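import Pool.Agent.Lib.MP_815ef6_nt.CT.CmA

/-! Descent of a component with three ends to finitely generated rings. -/

namespace Pool.Agent.Lib.MP_815ef6_nt.Ch
open Finset LaurentPolynomial Matrix Filter

variable {ι : Type*} [Fintype ι] [DecidableEq ι] {O : Subring ℂ} {t : ℂ}

theorem ev_lift3 (f : Lm O) : ∀ᶠ T in fG O t, ∀ hle : cl T ≤ O,
    ∃ f' : Lm (cl T), ml (Subring.inclusion hle) f' = f := by
  obtain ⟨N, g, rfl⟩ := rep f
  filter_upwards [ev_lift (t := t) g] with T hT hle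
  obtain ⟨g', rfl⟩ := hT hle
  exact ⟨jo g' * iv ^ N, by rw [map_mul, map_pow, ml_jo, ml_iv]⟩

theorem ev_liftM3 (A : Matrix ι ι (Lm O)) : ∀ᶠ T in fG O t, ∀ hle : cl T ≤ O,
    ∃ A' : Matrix ι ι (Lm (cl T)), A'.map (ml (Subring.inclusion hle)) = A := by
  filter_upwards [eventually_all.2 fun i => eventually_all.2 fun j => ev_lift3 (t := t) (A i j)]
    with T hT hle
  choose A' hA using fun i j => hT i j hle
  exact ⟨A', Matrix.ext hA⟩

theorem ev_un3 (H : Frame O t) {s : O} (hp : Prime s) {f : Lm O} (h : ¬ cL s ∣ f) :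
    ∀ᶠ T in fG O t, ∀ (hle : cl T ≤ O) (s' : cl T),
      (∀ x, s ∣ Subring.inclusion hle x → s' ∣ x) → ∀ f' : Lm (cl T),
        ml (Subring.inclusion hle) f' = f → Un3 s' f' := by
  have := H.pid
  have a : ∀ e, ∃ (lo : ℤ) (y : O), (∀ a < lo, s ∣ (ex e f).coeff a) ∧
      s ∣ (ex e f).coeff lo * y - 1 := fun e => by
    obtain ⟨lo, h1, h2⟩ := Int.exists_least_of_bdd (P := fun a => ¬ s ∣ (ex e f).coeff a)
      ⟨(ex e f).order, fun a k => not_lt.1 fun l => k (by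
        rw [HahnSeries.coeff_eq_zero_of_lt_order l]
        exact dvd_zero s)⟩ (not_forall.1 (mt (fun k => (dvd_ex e).2 (cS_dvd.2 k)) h))
    obtain ⟨c, d, k⟩ := hp.irreducible.coprime_iff_not_dvd.2 h1
    exact ⟨lo, d, fun a l => by_contra fun m => (h2 a m).not_gt l, -c, by linear_combination k⟩
  choose lo y h1 h2 using a
  filter_upwards [eventually_all.2 fun e => ev_in (y e).2] with T hT hle s' k f' q e
  have c : ∀ a, Subring.inclusion hle ((ex e f').coeff a) = (ex e f).coeff a := fun a => by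
    rw [← q, ← mL_ex]
    rfl
  refine (CmA_unit' (lo := lo e) (fun a l => k _ ?_) ⟨⟨y e, hT e⟩, k _ ?_⟩).imp fun _ m => m.1
  · rw [c]
    exact h1 e a l
  · rw [map_sub, map_mul, map_one, c]
    exact h2 e

theorem ev_pre3 (H : Frame O t) {s : O} (hp : Prime s) {ρ : O →+* ℂ} (hρ : ∀ x, ρ x = 0 ↔ s ∣ x)
    {F : Finset ℂ} (hF : ∀ x ∈ F, ∃ e : ℕ, t ^ e * x ∈ O) {p₀ : ℕ} {X : PD3 O ι}
    (h : PrO3 s X F p₀) : ∀ᶠ T in fG O t, ∀ (hle : cl T ≤ O) (hs : s.1 ∈ cl T),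
      Loc (⟨s, hs⟩ : cl T) (ρ.comp (Subring.inclusion hle)) →
        ∃ X' : PD3 (cl T) ι, X'.map (Subring.inclusion hle) = X ∧ Pre3 ⟨s, hs⟩ X' := by
  filter_upwards [ev_lift3 (t := t) X.δ, ev_lift3 (t := t) X.n, ev_liftM3 (t := t) X.A,
    eventually_all.2 fun b => ev_liftM3 (t := t) (X.W b),
    eventually_all.2 fun b => ev_lift (t := t) (X.l b),
    eventually_all.2 fun b => ev_liftM (t := t) (X.Cm b), ev_un3 H hp h.n0,
    eventually_all.2 fun b => ev_un3 H hp (h.W0 b), H.ev_desc hF]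
    with T h1 h2 h3 h4 h5 h6 u1 u2 ds hle hs L
  obtain ⟨δ, e1⟩ := h1 hle
  obtain ⟨n, e2⟩ := h2 hle
  obtain ⟨A, e3⟩ := h3 hle
  choose W e4 using fun b => h4 b hle
  choose l e5 using fun b => h5 b hle
  choose Cm e6 using fun b => h6 b hle
  have k : ∀ x, s ∣ Subring.inclusion hle x → (⟨s, hs⟩ : cl T) ∣ x := fun x m =>
    (L.ker x).1 ((hρ _).2 m)
  refine ⟨⟨δ, n, A, W, l, Cm⟩, ?_, (dvd_ml L.ker).2 ?_,
    fun b => As1_rel (ml_inj (Subring.inclusion_injective hle)) (ml_te _ b) ?_,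
    fun b => ⟨fun a m => k _ ?_, k _ ?_, fun i j a m => k _ ?_⟩, u1 hle _ k _ e2,
    fun b => u2 b hle _ k _ ?_, fun b => ⟨p₀, fun p hp' hp0 i j => ?_⟩⟩
  · simp only [PD3.map, e1, e2, e3, e4, e5, e6]
  · rw [← ml_ml, map_sub, map_one, e1]
    exact (dvd_ml hρ).1 h.one
  · rw [Am1_smul, ml_ro, ml_je, e1, e2, e3, e4, e5, show ((Cm b).map (je b)).map
      (ml (Subring.inclusion hle)) = (X.Cm b).map (je b) from by
        rw [← e6]
        exact Matrix.ext fun i j => ml_je _ b _]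
    exact h.rel b
  · rw [← coeff_mp, e5]
    exact (h.re b).pl a m
  · rw [map_sub, map_one, ← coeff_mp, e5]
    exact (h.re b).one
  · rw [← coeff_mp, ← Matrix.map_apply (f := mp _), e6]
    exact (h.re b).pc i j a m
  · rw [RingHom.map_det, RingHom.mapMatrix_apply, e4]
  · obtain ⟨g, hg, e7⟩ := h.mb b p hp' hp0 i j
    refine ds p hp'.ne_zero g hg 1 (one_mem _) _ ?_
    rw [map_one, one_mul, ← e7, ← e5, ← e6, ← Am_map _ (mp_th _), Matrix.map_apply, mp_mp]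
    rfl

end Pool.Agent.Lib.MP_815ef6_nt.Ch
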