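import Pool.Agent.Lib.MP_815ef6_nt.CT.MD3

/-! Deformations of a twisted model with vanishing `p`-curvature are trivial. -/

namespace Pool.Agent.Lib.MP_815ef6_nt.Ch
open Finset LaurentPolynomial Matrix

variable {ι : Type*} [Fintype ι] [DecidableEq ι] {μ u v : ι → ℚ} {c : ℚ}

theorem spl_th : th (1 - T 1 : ℂ[T;T⁻¹]) = -T 1 := by
  have := th_CT (1 : ℂ) 1
  rw [Am1_sub dv_th, Am1_one dv_th]
  simpa using this

theorem spl_Am (M : Matrix ι ι ℂ[T;T⁻¹]) (k : ℕ) : Am (fun _ => 0) 1 (-M.map ev1) k =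
    (-1 : ℂ) ^ k • (Am th (1 - T 1) M k).map ev1 := by
  induction k with
  | zero => simp [Am]
  | succ k ih =>
    rw [Am, Am, show (Am (fun _ => 0) 1 (-M.map ev1) k).map (fun _ => (0 : ℂ)) = 0 from rfl, ih,
      spl_th]
    simp only [Am1_sb, Am1_add, Am1_smul, Matrix.map_mul, map_mul, map_add, map_sub, map_neg,
      map_one, map_natCast, ev1_T, Matrix.mul_neg, Matrix.smul_mul]
    module

theorem spl_H {M : Matrix ι ι ℂ[T;T⁻¹]} (h : MD (1 - T 1) M) : ModH (-M.map ev1) := by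
  obtain ⟨F, p₀, h⟩ := h
  refine ⟨F, p₀, fun p hp k i j => ?_⟩
  have p0 : (p : ℂ) ≠ 0 := Nat.cast_ne_zero.2 hp.ne_zero
  have m : ev1 (C (p : ℂ)⁻¹ * Am th (1 - T 1) M p i j) ∈ cl F := lat2_mem (mem_LS.2 fun a => by
    obtain ⟨y, hy, e⟩ := h p hp k i j a
    rwa [coeff_C_mul, e, inv_mul_cancel_left₀ p0])
  refine ⟨(-1) ^ p * _, mul_mem (pow_mem (neg_mem (one_mem _)) p) m, ?_⟩
  rw [spl_Am, Matrix.smul_apply, map_apply, map_mul, ev1_C, smul_eq_mul]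
  field_simp

theorem spl_ker {E : Matrix ι ι ℂ} {u v b : ι → ℂ}
    (H : ModH (-fromBlocks (vecMulVec u v) E 0 (vecMulVec u v))) (hg : v ⬝ᵥ u ≠ 0)
    (hb : v ⬝ᵥ b = 0) : ∃ s : ℂ, ∀ l, (E *ᵥ b) l = s * u l := by
  refine ⟨v ⬝ᵥ (E *ᵥ b) / v ⬝ᵥ u, fun l => ?_⟩
  have := mod_simple H (x := 0) (y := Sum.elim ((v ⬝ᵥ (E *ᵥ b) / v ⬝ᵥ u) • u - E *ᵥ b) 0)
    (y' := Sum.elim (-(v ⬝ᵥ (E *ᵥ b) / (v ⬝ᵥ u) ^ 2) • u) b) ?_ ?_ (.inl l)
  · simpa [sub_eq_zero, eq_comm] using this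
  · rw [neg_mulVec, fromBlocks_mulVec]
    ext (k | k)
    · simp [vecMulVec_mulVec, div_mul_cancel₀ _ hg]
    · simp
  · rw [neg_mulVec, fromBlocks_mulVec]
    ext (k | k)
    · simp [vecMulVec_mulVec, mulVec_neg, mulVec_smul]
      field_simp
      ring
    · simp [vecMulVec_mulVec, hb]

theorem spl_ev : (mC μ u v).map ev1 = vecMulVec (fun i => (u i : ℂ)) fun i => (v i : ℂ) :=
  Matrix.ext fun l i => lemA_ev l i

/-- The condition at `w = 1` is automatic. -/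
theorem Mdl.tan (h : Mdl μ u v) {E : Matrix ι ι ℂ[T;T⁻¹]}
    (md : MD (1 - T 1) (fromBlocks (mC μ u v) E 0 (mC μ u v))) :
    Tan ((mC μ u v).map ev1) (E.map ev1) := by
  intro i j k l
  rw [spl_ev]
  rcases h.tr with t | t
  · have H := spl_H md
    rw [fromBlocks_map, spl_ev, Matrix.map_zero _ (map_zero _)] at H
    obtain ⟨s, hs⟩ := spl_ker H (b := Pi.single l (v j : ℂ) - Pi.single j (v l : ℂ))
      (fun e => t 0 (by
        simp only [dotProduct, mul_comm (v _ : ℂ)] at e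
        exact_mod_cast e)) (by simp [mul_comm])
    have a := hs i
    have b := hs k
    simp only [mulVec_sub, Pi.sub_apply, mulVec_single, vecMulVec_apply, Pi.smul_apply, col_apply,
      MulOpposite.smul_eq_mul_unop, MulOpposite.unop_op] at a b ⊢
    linear_combination (u i : ℂ) * b - u k * a
  · simp [vecMulVec_apply, t, (h.uv _).1 (t _)]

omit [DecidableEq ι] in
theorem spl_solve {R : Matrix ι ι ℂ} {g n : ℂ} (hR : R * R = g • R) (hn : n ≠ 0)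
    (h : n ^ 2 - g ^ 2 ≠ 0) (F : Matrix ι ι ℂ) : ∃ X, n • X - R * X + X * R = F := by
  refine ⟨n⁻¹ • F + (n ^ 2 - g ^ 2)⁻¹ • (R * F - F * R) +
    (n * (n ^ 2 - g ^ 2))⁻¹ • (g • (R * F) - (2 : ℂ) • (R * (F * R)) + g • (F * R)), ?_⟩
  have k : ∀ Y : Matrix ι ι ℂ, R * (R * Y) = g • (R * Y) := fun Y => by
    rw [← Matrix.mul_assoc, hR, Matrix.smul_mul]
  simp only [Matrix.mul_add, Matrix.mul_sub, Matrix.add_mul, Matrix.sub_mul, Matrix.mul_smul,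
    Matrix.smul_mul, Matrix.mul_assoc, hR, k]
  match_scalars <;> field_simp <;> ring

theorem spl_iv (n : ℕ) : tl ((iv : Lm ℂ) ^ n) = (n : Lm ℂ) * jo (T 1) * iv ^ (n + 1) := by
  induction n with
  | zero => simpa using Am1_one dv_tl
  | succ n ih =>
    rw [pow_succ, dv_tl.mul, ih, tl_iv]
    push_cast
    ring

section
variable {Λ : Type*} [CommRing Λ] {d : Λ → Λ}

theorem spl_gen (hd : Dv d) {q i s x t : Λ} (h : q * i = 1) (hx : d x = t * (x * i))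
    (A X : Matrix ι ι Λ) : gf d 1 (i • A - s • (1 : Matrix ι ι Λ)) (i • A - s • (1 : Matrix ι ι Λ))
      (x • X) = (x * i) • (gf d q A A X + t • X) := by
  simp only [gf, Am1_msmul hd, hx, Matrix.mul_sub, Matrix.sub_mul, Matrix.mul_smul, Matrix.smul_mul,
    Matrix.mul_one, Matrix.one_mul]
  linear_combination (norm := module) (-x) • congrArg (· • X.map d) h

omit [DecidableEq ι] in
theorem spl_add (hd : Dv d) (A δ δ' : Matrix ι ι Λ) :
    gf d 1 A A (δ + δ') = gf d 1 A A δ + gf d 1 A A δ' := by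
  simp only [gf, Am1_madd hd, Matrix.mul_add, Matrix.add_mul]
  module

end

theorem spl_gf (n : ℕ) (X : Matrix ι ι ℂ[T;T⁻¹]) :
    gf tl 1 (mTC μ u v c) (mTC μ u v c) ((iv : Lm ℂ) ^ n • X.map jo) = (iv : Lm ℂ) ^ (n + 1) •
      (gf th (1 - T 1) (mC μ u v) (mC μ u v) X + ((n : ℂ[T;T⁻¹]) * T 1) • X).map jo := by
  rw [Am1_add, Am1_smul, gf_map jo fun x => (tl_jo x).symm, mTC, mT_eq, map_mul, map_natCast,
    pow_succ]
  exact spl_gen dv_tl jo_iv (spl_iv n) _ _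

theorem spl_dvd {f : ℂ[T;T⁻¹]} (h : ev1 f = 0) : 1 - T 1 ∣ f := by
  obtain ⟨w, g, e⟩ := s2_dvd f
  have := congrArg ev1 e
  rw [map_add, map_mul, map_sub, map_one, ev1_T, ev1_C, h, zero_add, sub_self, zero_mul] at this
  exact ⟨g, by rwa [this, map_zero, add_zero] at e⟩

omit [Fintype ι] [DecidableEq ι] in
theorem spl_jo (n : ℕ) (g : Matrix ι ι ℂ[T;T⁻¹]) : (iv : Lm ℂ) ^ (n + 1) •
    ((1 - T 1 : ℂ[T;T⁻¹]) • g).map jo = (iv : Lm ℂ) ^ n • g.map jo := by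
  rw [Am1_smul, smul_smul, pow_succ, mul_assoc, mul_comm iv, jo_iv, mul_one]

theorem spl_step (h : Mdl μ u v) (n : ℕ) (g : Matrix ι ι ℂ[T;T⁻¹]) :
    ∃ (δ : Matrix ι ι (Lm ℂ)) (g' : Matrix ι ι ℂ[T;T⁻¹]), (iv : Lm ℂ) ^ (n + 2) • g.map jo -
      gf tl 1 (mTC μ u v c) (mTC μ u v c) δ = (iv : Lm ℂ) ^ (n + 1) • g'.map jo := by
  obtain ⟨X, hX⟩ := spl_solve (R := (mC μ u v).map ev1) (g := (∑ l, u l * v l : ℚ))
    (n := (n + 1 : ℕ)) (by
      rw [spl_ev, vecMulVec_mul_vecMulVec]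
      ext i j
      simp [vecMulVec_apply, dotProduct, mul_comm, mul_assoc]) (by exact_mod_cast n.succ_ne_zero)
    (fun e => by
      have e' : ((n + 1 : ℕ) : ℚ) ^ 2 = (∑ l, u l * v l) ^ 2 := by exact_mod_cast sub_eq_zero.1 e
      rcases h.tr with t | t
      · rcases sq_eq_sq_iff_eq_or_eq_neg.1 e'.symm with k | k
        · exact t (n + 1 : ℕ) (by rw [k, Int.cast_natCast])
        · exact t (-(n + 1 : ℕ)) (by rw [k, Int.cast_neg, Int.cast_natCast])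
      · simp only [t, zero_mul, sum_const_zero] at e'
        exact absurd e' (by positivity)) (g.map ev1)
  have d : (g - (gf th (1 - T 1) (mC μ u v) (mC μ u v) (X.map C) +
      (((n + 1 : ℕ) : ℂ[T;T⁻¹]) * T 1) • X.map C)).map ev1 = 0 := by
    have k : (X.map C).map (ev1 : ℂ[T;T⁻¹] →+* ℂ) = X := Matrix.ext fun i j => ev1_C _
    simp only [gf, Am1_sb, Am1_add, Am1_smul, Matrix.map_mul, map_mul, map_sub, map_one, ev1_T,
      map_natCast, k, ← hX]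
    module
  choose g' hg using fun i j => spl_dvd (congrFun (congrFun d i) j)
  refine ⟨(iv : Lm ℂ) ^ (n + 1) • (X.map C).map jo, g', ?_⟩
  rw [spl_gf, ← smul_sub, ← Am1_sb, ← spl_jo (n + 1)]
  congr 2
  exact Matrix.ext hg

theorem spl_red (h : Mdl μ u v) (n : ℕ) (g : Matrix ι ι ℂ[T;T⁻¹]) :
    ∃ (δ : Matrix ι ι (Lm ℂ)) (E' : Matrix ι ι ℂ[T;T⁻¹]), (iv : Lm ℂ) ^ (n + 1) • g.map jo -
      gf tl 1 (mTC μ u v c) (mTC μ u v c) δ = (iv : Lm ℂ) • E'.map jo := by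
  induction n generalizing g with
  | zero => exact ⟨0, g, by simp [gf, Am1_mzero dv_tl]⟩
  | succ n ih =>
    obtain ⟨δ, g', e⟩ := spl_step (c := c) h n g
    obtain ⟨δ', E', e'⟩ := ih g'
    exact ⟨δ + δ', E', by rw [spl_add dv_tl, ← sub_sub, e, e']⟩

omit [DecidableEq ι] in
theorem spl_rep (E : Matrix ι ι (Lm ℂ)) :
    ∃ (n : ℕ) (g : Matrix ι ι ℂ[T;T⁻¹]), E = (iv : Lm ℂ) ^ (n + 1) • g.map jo := by
  choose N g e using fun i j => rep (E i j)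
  refine ⟨∑ x : ι × ι, N x.1 x.2,
    of fun i j => (1 - T 1) ^ (∑ x : ι × ι, N x.1 x.2 + 1 - N i j) * g i j, Matrix.ext fun i j => ?_⟩
  obtain ⟨m, hm⟩ := Nat.exists_eq_add_of_le ((single_le_sum (f := fun x : ι × ι => N x.1 x.2)
    (fun _ _ => Nat.zero_le _) (mem_univ (i, j))).trans (Nat.le_succ _))
  rw [Matrix.smul_apply, map_apply, of_apply, Nat.add_one, hm, Nat.add_sub_cancel_left, e i j,
    map_mul, map_pow, smul_eq_mul, pow_add]
  linear_combination (-jo (g i j) * iv ^ N i j) *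
    (by rw [← mul_pow, jo_iv, one_pow] : jo (1 - T 1) ^ m * (iv : Lm ℂ) ^ m = 1)

/-- Reduction of the order of the pole at `w = 1`. -/
theorem Mdl.red1 (h : Mdl μ u v) (E : Matrix ι ι (Lm ℂ)) : ∃ (δ : Matrix ι ι (Lm ℂ))
    (E' : Matrix ι ι ℂ[T;T⁻¹]), E - gf tl 1 (mTC μ u v c) (mTC μ u v c) δ =
      (iv : Lm ℂ) • E'.map jo := by
  obtain ⟨n, g, rfl⟩ := spl_rep E
  exact spl_red h n g

theorem Mdl.split3 (h : Mdl μ u v) {E : Matrix ι ι (Lm ℂ)}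
    (md : MDL (fromBlocks (mTC μ u v c) E 0 (mTC μ u v c))) :
    ∃ δ, gf tl 1 (mTC μ u v c) (mTC μ u v c) δ = E := by
  obtain ⟨δ, E', e⟩ := h.red1 (c := c) E
  have m := (md.shift δ).twist (-c)
  have m' : MD (1 - T 1) (fromBlocks (mC μ u v) E' 0 (mC μ u v)) := MDL_iff.1 (by
    convert m using 1
    rw [e, mTC, mT_eq, Rat.cast_neg, map_neg]
    ext1 a b
    rcases a with a | a <;> rcases b with b | b <;> simp [one_apply])
  obtain ⟨δ', e'⟩ := h.split m' (h.tan m')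
  have k := spl_gf (μ := μ) (u := u) (v := v) (c := c) 0 δ'
  refine ⟨δ + _, by rw [spl_add dv_tl, k, e', ← eq_sub_iff_add_eq', e]; simp⟩

end Pool.Agent.Lib.MP_815ef6_nt.Ch
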