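import Pool.Agent.Lib.MP_815ef6_nt.CT.CmD
import Pool.Agent.Lib.MP_815ef6_nt.CT.Spl

/-! Construction of the data of a component with three ends. -/

namespace Pool.Agent.Lib.MP_815ef6_nt.Ch
open Finset LaurentPolynomial Matrix

variable {ι : Type*} [Fintype ι] [DecidableEq ι]

theorem Sl3.map {R R' : Type*} [CommRing R] [CommRing R'] {A : Matrix ι ι (Lm R)} {κ : En → ι → R}
    {Φ Φ' : En → Matrix ι ι (Ls R)} {D : ℕ} (h : Sl3 A κ Φ Φ' D) (φ : R →+* R') :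
    Sl3 (A.map (ml φ)) (fun e i => φ (κ e i)) (fun e => (Φ e).map (mL φ))
      (fun e => (Φ' e).map (mL φ)) D := by
  have od : ∀ M : Matrix ι ι (Ls R), Od 0 D M → Od 0 D (M.map (mL φ)) := fun M k i j a ha =>
    map_zero φ ▸ map_dvd φ (k i j a ha)
  refine ⟨fun e => ?_, fun e => ?_, fun e => ⟨od _ (h.od e).1, od _ (h.od e).2⟩, h.mb.map φ⟩
  · rw [← dfe_map, h.fund, Matrix.map_zero _ (map_zero _)]
  · rw [← Matrix.map_mul, h.inv, Matrix.map_one _ (map_zero _) (map_one _)]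

theorem mk_cmp3 {B : Subring ℂ} {s : B} {ρ : B →+* ℂ} (H : Loc s ρ) {X : PD3 B ι}
    (pre : Pre3 s X) {μ u v : ι → ℚ} {c : ℚ} (mdl : Mdl μ u v) {A0 : Matrix ι ι (Lm B)}
    (hA : A0.map (ml ρ) = mTC μ u v c) {κ₀ : En → ι → B} {Φ Φ' : En → Matrix ι ι (Ls B)} {D₀ : ℕ}
    (sl : Sl3 A0 κ₀ Φ Φ' D₀) {κ : En → ι → ℚ} {K : En → ι → B}
    (hK : ∀ e i, (K e i : ℂ) = κ e i) {P : En → Matrix ι ι B} (pp : ∀ e, IsUnit (P e))
    {g g' : Matrix ι ι (Lm B)} (gg : g.map (ml ρ) * g'.map (ml ρ) = 1)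
    (hg : gf tl 1 (X.A.map (ml ρ)) (mTC μ u v c) (g.map (ml ρ)) = 0)
    {S S' : En → Matrix ι ι B[T;T⁻¹]} (SS : ∀ e, (S e).map (mp ρ) * (S' e).map (mp ρ) = 1)
    (sup : ∀ e i j a, (S e i j).coeff a ≠ 0 → a + K e j - κ₀ e i = 0) {D : ℕ}
    (hD : ∀ e i j (a : ℤ), D < |a| →
      (S e i j).coeff a = 0 ∧ (S' e i j).coeff a = 0 ∧ a + κ e j - κ e i ≠ 0)
    (reg : ∀ e, ∃ U : Matrix ι ι (Ls ℂ), Od 0 0 U ∧ c0 U = (P e).map ρ ∧ ex e (ml ρ X.n) • U =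
      ((X.W e * g).map (ml ρ)).map (ex e) *
        ((Φ e).map (mL ρ) * ((S e).map (mp ρ)).map (io (sd e))))
    (desc : ∀ δ : Matrix ι ι (Lm ℂ), (∀ e, Od 0 (3 * (D₀ + D)) (δ.map (ex e))) →
      (∀ i j, gf tl 1 (mTC μ u v c) (mTC μ u v c) δ i j ∈ LL ρ.range) →
        ∃ δ' : Matrix ι ι (Lm ℂ), (∀ i j, δ' i j ∈ LL ρ.range) ∧
          gf tl 1 (mTC μ u v c) (mTC μ u v c) δ' = gf tl 1 (mTC μ u v c) (mTC μ u v c) δ) :
    ∃ Y, Cmp3 s ρ X K P Y := by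
  have one : ∀ {M N : Matrix ι ι B[T;T⁻¹]}, M.map (mp ρ) * N.map (mp ρ) = 1 →
      Dd (C s) (M * N - 1) := fun e => as2_ker H (by
    rw [Am1_sb, Matrix.map_mul, e, Matrix.map_one _ (map_zero _) (map_one _), sub_self])
  have ab : ∀ b, ∀ n < -(D : ℤ), (D : ℤ) < |sg b * n| := fun b n hn => by
    cases b <;> simp only [sg, one_mul, neg_mul, abs_neg] <;> exact lt_abs.2 (.inr (by omega))
  have o0 : ∀ {M : Matrix ι ι (Ls B)}, Od 0 D₀ M → ∀ i j, ∀ n < -(D₀ : ℤ), (M i j).coeff n = 0 :=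
    fun k i j n hn => zero_dvd_iff.1 (k i j n hn)
  refine ⟨⟨A0, g, g', fun e => Φ e * (S e).map (io (sd e)),
    fun e => (S' e).map (io (sd e)) * Φ' e, D₀ + D⟩, pre, sl.mb, (Dd_ml H.ker).2 ?_,
    (Dd_ml H.ker).2 ?_, fun e => ?_, fun e => ?_, fun e => ⟨?_, ?_⟩, fun b i j a e => ?_, pp,
    fun e => ?_, fun E => hA ▸ mdl.split3, fun δ E h1 h2 => ?_⟩
  · rw [Am1_sb, Matrix.map_mul, gg, Matrix.map_one _ (map_zero _) (map_one _), sub_self]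
  · rw [gf_map _ (ml_tl ρ), map_one, hA, hg]
  · have := sl.fund e
    have k := as2_gf (sd e) 1 (sup e)
    rw [one_smul, one_smul] at k
    rw [dfe] at this ⊢
    rw [gf_mul (dv_dS (sd e)) (A' := diagonal fun i => cS (κ₀ e i)), this, k, Matrix.zero_mul,
      Matrix.mul_zero, add_zero]
  · have k : Dd (cS s) ((S e * S' e - 1).map (io (sd e))) := fun i j =>
      io_C (sd e) s ▸ map_dvd (io (sd e)) (one (SS e) i j)
    have := as2_dd k (Φ e) (Φ' e)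
    rwa [Am1_sb, Matrix.map_mul, Matrix.map_one _ (map_zero _) (map_one _), Matrix.mul_sub,
      Matrix.sub_mul, Matrix.mul_one, sl.inv, ← Matrix.mul_assoc, Matrix.mul_assoc _ _ (Φ' e)]
      at this
  · exact as2_od (o0 (sl.od e).1)
      (fun i j n hn => (coeff_io (sd e) _ n).trans (hD e i j _ (ab _ n hn)).1) s
      (by push_cast; ring)
  · exact as2_od (fun i j n hn => (coeff_io (sd e) _ n).trans (hD e i j _ (ab _ n hn)).2.1)
      (o0 (sl.od e).2) s (by push_cast; ring)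
  · have e1 : ((a + K b j - K b i : B) : ℂ) = (a + κ b j - κ b i : ℚ) := by
      push_cast
      rw [hK, hK]
    have e2 : (a + κ b j - κ b i : ℚ) = 0 := by exact_mod_cast (rho_rat ρ e1).symm.trans e
    exact ⟨Subtype.ext (by rw [e1, e2]; simp),
      (not_lt.1 fun l => (hD b i j a l).2.2 e2).trans (Nat.cast_le.2 (Nat.le_add_left D D₀))⟩
  · obtain ⟨U, h1, h2, h3⟩ := reg e
    refine ⟨U, h1, h2, h3.trans (congrArg _ ?_)⟩
    rw [Matrix.map_mul]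
    exact congrArg _ (Matrix.ext fun i j => (mL_io ρ (sd e) _).symm)
  · rw [hA] at h2
    obtain ⟨δ', k1, k2⟩ := desc δ h1 fun i j => h2 ▸ (range_ml ρ).2 ⟨E i j, rfl⟩
    choose δ₀ k0 using fun i j => (range_ml ρ).1 (k1 i j)
    refine ⟨Matrix.of δ₀, (Dd_ml H.ker).2 ?_⟩
    rw [Am1_sb, gf_map _ (ml_tl ρ), map_one, hA,
      show (Matrix.of δ₀).map (ml ρ) = δ' from Matrix.ext k0, k2, h2, sub_self]

end Pool.Agent.Lib.MP_815ef6_nt.Ch
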