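import Pool.Agent.Lib.MP_815ef6_nt.CT.Cls

/-! The classification of the limit systems with three ends. -/

namespace Pool.Agent.Lib.MP_815ef6_nt.Ch
open Finset LaurentPolynomial Matrix

theorem kpack3 {k : Type} [Field k] (φ : k →+* ℂ) {A : Matrix (Fin 2) (Fin 2) (Lm k)}
    {W : En → Matrix (Fin 2) (Fin 2) (Lm k)} {n : Lm k} {l : En → k[T;T⁻¹]}
    {Cm : En → Matrix (Fin 2) (Fin 2) k[T;T⁻¹]}
    (rel : ∀ e, Rel (te e) 1 ((ro e : Lm k) • A) (je e (l e)) ((Cm e).map (je e)) n (W e))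
    (re : ∀ e, Re 0 (sd e) (l e) (Cm e)) (hn : n ≠ 0) (hW : ∀ e, (W e).det ≠ 0)
    {κ : En → Fin 2 → ℚ} {P P' : En → Matrix (Fin 2) (Fin 2) k} (hP : ∀ e, P e * P' e = 1)
    (eig : ∀ e, (Cm e).map (fun f => f.coeff 0) * P e = P e * diagonal fun i => (κ e i : k))
    (md : MDL (A.map (ml φ))) (mdb : ∀ e, MD (mp φ (l e)) ((Cm e).map (mp φ))) :
    ∃ (μ u v : Fin 2 → ℚ) (c : ℚ) (g g' : Matrix (Fin 2) (Fin 2) (Lm k)), Mdl μ u v ∧ g * g' = 1 ∧
      gf tl 1 A (mT (fun i => (μ i : k)) (fun i => (u i : k)) (fun i => (v i : k)) c) g = 0 ∧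
      ∀ e (κ₀ : Fin 2 → ℚ) (Φ Φ' : Matrix (Fin 2) (Fin 2) (Ls k)),
        dfe e (mT (fun i => (μ i : k)) (fun i => (u i : k)) (fun i => (v i : k)) c)
          (fun i => (κ₀ i : k)) Φ = 0 → Φ * Φ' = 1 →
        ∃ (S S' : Matrix (Fin 2) (Fin 2) k[T;T⁻¹]) (U : Matrix (Fin 2) (Fin 2) (Ls k)),
          S * S' = 1 ∧ (∀ i j a, (S i j).coeff a ≠ 0 → a + κ e j - κ₀ i = 0) ∧ Od 0 0 U ∧
          c0 U = P e ∧ ex e n • U = (W e * g).map (ex e) * (Φ * S.map (io (sd e))) := by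
  have : CharZero k := φ.charZero
  have nz : ∀ e {f : Lm k}, f ≠ 0 → ex e f ≠ 0 := fun e f => (map_ne_zero_iff _ (ex_inj e)).2
  choose U hU oU cU using fun e => frob φ (re e) (hP e) (eig e) (mdb e)
  have H : ∀ e, ∃ Ψ : Matrix (Fin 2) (Fin 2) (Ls k), IsUnit Ψ ∧
      ex e n • U e = (W e).map (ex e) * Ψ ∧ dfe e A (fun i => (κ e i : k)) Ψ = 0 := fun e => by
    have uW : IsUnit ((W e).map (ex e)) := by
      rw [Matrix.isUnit_iff_isUnit_det, isUnit_iff_ne_zero, ← RingHom.mapMatrix_apply,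
        ← RingHom.map_det]
      exact nz e (hW e)
    obtain ⟨W', iW⟩ := uW.exists_right_inv
    have uU : IsUnit (U e) := kpk_unit (oU e) (cU e ▸ IsUnit.of_mul_eq_one _ (hP e))
    have q : ex e n • U e = (W e).map (ex e) * (W' * ex e n • U e) := by
      rw [← Matrix.mul_assoc, iW, Matrix.one_mul]
    have hl : io (sd e) (l e) ≠ 0 :=
      (map_ne_zero_iff _ (io_inj _)).2 fun t => by simpa [t] using (re e).one
    refine ⟨_, (IsUnit.of_mul_eq_one_right _ iW).mul ?_, q, ?_⟩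
    · rw [Matrix.isUnit_iff_isUnit_det, isUnit_iff_ne_zero] at uU ⊢
      rw [det_smul]
      exact mul_ne_zero (pow_ne_zero _ (nz e hn)) uU
    · have h1 := ((rel e).map (ex e) (ex_te e)).gf (dv_dS (sd e))
        (K := diagonal fun i => cS (κ e i : k)) q
      have h2 := hU e
      have h3 : ((Cm e).map (je e)).map (ex e) = (Cm e).map (io (sd e)) :=
        Matrix.ext fun i j => ex_je e _
      rw [df] at h2
      rw [ex_je, h3, h2, smul_zero, eq_comm, smul_eq_zero,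
        or_iff_right (mul_ne_zero hl (nz e hn)), map_one, one_smul] at h1
      exact kpk_cancel uW h1
  choose Ψ uΨ eΨ hΨ using H
  obtain ⟨μ, u, v, c, g, hM, ug, hg⟩ := cls3 φ md hΨ uΨ
  obtain ⟨g', ig⟩ := ug.exists_right_inv
  refine ⟨μ, u, v, c, g, g', hM, ig, hg, fun e κ₀ Φ Φ' hΦ iΦ => ?_⟩
  have ib : g.map (ex e) * g'.map (ex e) = 1 := by
    rw [← Matrix.map_mul, ig, Matrix.map_one _ (map_zero _) (map_one _)]
  have eY : g.map (ex e) * (Φ * (Φ' * (g'.map (ex e) * Ψ e))) = Ψ e := by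
    rw [← Matrix.mul_assoc Φ, iΦ, Matrix.one_mul, ← Matrix.mul_assoc, ib, Matrix.one_mul]
  have uS : IsUnit (Φ' * (g'.map (ex e) * Ψ e)) :=
    (IsUnit.of_mul_eq_one_right _ iΦ).mul ((IsUnit.of_mul_eq_one_right _ ib).mul (uΨ e))
  generalize Φ' * (g'.map (ex e) * Ψ e) = S₀ at eY uS
  obtain ⟨S₀', iS⟩ := uS.exists_right_inv
  have h1 := hΨ e
  rw [← eY, dfe_gauge e, hg, smul_zero, Matrix.map_zero _ (map_zero _), Matrix.zero_mul,
    zero_add, dfe] at h1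
  rw [dfe] at hΦ
  rw [gf_mul (dv_dS (sd e)), hΦ, Matrix.zero_mul, zero_add] at h1
  have h2 := kpk_cancel (IsUnit.of_mul_eq_one _ iΦ) (kpk_cancel (IsUnit.of_mul_eq_one _ ib) h1)
  obtain ⟨S, eS, hS⟩ := kpk_mono (κ₀ := κ₀) (κ := κ e) (S₀ := S₀) (sd e) one_ne_zero
    (by rwa [one_smul, one_smul])
  obtain ⟨S', eS', -⟩ := kpk_mono (κ₀ := κ e) (κ := κ₀) (S₀ := S₀') (sd e) one_ne_zero
    (by rw [one_smul, one_smul]; exact kpk_inv (dv_dS _) h2 iS)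
  refine ⟨S, S', U e, Matrix.map_injective (io_inj (sd e)) ?_, hS, oU e, cU e, ?_⟩
  · change (S * S').map (io (sd e)) = (1 : Matrix (Fin 2) (Fin 2) k[T;T⁻¹]).map (io (sd e))
    rw [Matrix.map_mul, eS, eS', iS, Matrix.map_one _ (map_zero _) (map_one _)]
  · rw [eS, Matrix.map_mul, Matrix.mul_assoc, eY, eΨ]

end Pool.Agent.Lib.MP_815ef6_nt.Ch
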