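import Pool.Agent.Lib.MP_815ef6_nt.CT.CmD
import Pool.Agent.Lib.MP_815ef6_nt.CT.Kpk

/-! The classification of the reduction of a component, lifted to the semilocal ring. -/

namespace Pool.Agent.Lib.MP_815ef6_nt.Ch
open Finset LaurentPolynomial Matrix

variable {O : Subring ℂ} {t : ℂ}

theorem pack3 (H : Frame O t) {s : O} (hp : Prime s) {ρ : O →+* ℂ} (hρ : ∀ x, ρ x = 0 ↔ s ∣ x)
    {F : Finset ℂ} {p₀ : ℕ} {X : PD3 O (Fin 2)} (h : PrO3 s X F p₀) {κ : En → Fin 2 → ℚ}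
    {P P' : En → Matrix (Fin 2) (Fin 2) ℚ} (eg : Eg3 ρ X.Cm κ P P') (md : MDL (X.A.map (ml ρ)))
    (mdb : ∀ e, MD (mp ρ (X.l e)) ((X.Cm e).map (mp ρ))) :
    ∃ (μ u v : Fin 2 → ℚ) (c : ℚ), Mdl μ u v ∧ ∃ g g' : Matrix (Fin 2) (Fin 2) (Lm O),
      g.map (ml ρ) * g'.map (ml ρ) = 1 ∧
      gf tl 1 (X.A.map (ml ρ)) (mTC μ u v c) (g.map (ml ρ)) = 0 ∧
      ∀ e (κ₀ : Fin 2 → ℚ) (Φ Φ' : Matrix (Fin 2) (Fin 2) (Ls ℚ)), dfe e (mT μ u v c) κ₀ Φ = 0 →
        Φ * Φ' = 1 → ∃ S S' : Matrix (Fin 2) (Fin 2) O[T;T⁻¹],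
          S.map (mp ρ) * S'.map (mp ρ) = 1 ∧
          (∀ i j a, (S i j).coeff a ≠ 0 → a + κ e j - κ₀ i = 0) ∧
          ∃ U : Matrix (Fin 2) (Fin 2) (Ls ℂ), Od 0 0 U ∧ c0 U = (P e).map (fun x => (x : ℂ)) ∧
            ex e (ml ρ X.n) • U = ((X.W e * g).map (ml ρ)).map (ex e) *
              (Φ.map (mL (Rat.castHom ℂ)) * (S.map (mp ρ)).map (io (sd e))) := by
  obtain ⟨k, _, π, φ, hs, hφ⟩ := as3_field H hp hρ
  have := φ.charZero
  have hπ : ∀ x, π x = 0 ↔ s ∣ x := fun x => by rw [← hρ, ← hφ, map_eq_zero φ]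
  have m1 : ∀ f : O[T;T⁻¹], mp φ (mp π f) = mp ρ f := fun f => by
    ext a
    simp [hφ]
  have m2 : ∀ A : Matrix (Fin 2) (Fin 2) O[T;T⁻¹], (A.map (mp π)).map (mp φ) = A.map (mp ρ) :=
    fun A => Matrix.ext fun i j => m1 _
  have m3 : ∀ f : Lm O, ml φ (ml π f) = ml ρ f := fun f => by
    rw [ml_ml, show φ.comp π = ρ from RingHom.ext hφ]
  have m4 : ∀ A : Matrix (Fin 2) (Fin 2) (Lm O), (A.map (ml π)).map (ml φ) = A.map (ml ρ) :=
    fun A => Matrix.ext fun i j => m3 _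
  have lift : ∀ A : Matrix (Fin 2) (Fin 2) (Lm k), ∃ B : Matrix (Fin 2) (Fin 2) (Lm O),
      B.map (ml π) = A := fun A => by
    choose B hB using fun i j => ml_surj hs (A i j)
    exact ⟨of B, Matrix.ext hB⟩
  have hδ : ml π X.δ = 1 := by
    have := (dvd_ml hπ).1 h.one
    rwa [map_sub, map_one, sub_eq_zero] at this
  obtain ⟨μ, u, v, c, g, g', hm, k1, k2, k3⟩ := kpack3 φ (A := X.A.map (ml π))
    (W := fun e => (X.W e).map (ml π)) (n := ml π X.n) (l := fun e => mp π (X.l e))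
    (Cm := fun e => (X.Cm e).map (mp π))
    (fun e => by
      have := (h.rel e).map (ml π) (ml_te π e)
      rwa [hδ, ml_je, Am1_smul, ml_ro,
        show ((X.Cm e).map (je e)).map (ml π) = ((X.Cm e).map (mp π)).map (je e) from
          Matrix.ext fun i j => ml_je π e _] at this)
    (fun e => ⟨fun a ha => zero_dvd_iff.2 ((hπ _).2 ((h.re e).pl a ha)),
      zero_dvd_iff.2 (by simpa using (hπ _).2 (h.re e).one),
      fun i j a ha => zero_dvd_iff.2 ((hπ _).2 ((h.re e).pc i j a ha))⟩)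
    (fun t => h.n0 ((dvd_ml hπ).2 t))
    (fun e t => h.W0 e ((dvd_ml hπ).2 ((RingHom.map_det _ _).trans t)))
    (κ := κ) (P := fun e => (P e).map (Rat.castHom k)) (P' := fun e => (P' e).map (Rat.castHom k))
    (fun e => by rw [← Matrix.map_mul, eg.inv, Matrix.map_one _ (map_zero _) (map_one _)])
    (fun e => by
      refine Matrix.ext fun i j => φ.injective ?_
      have := congrFun (congrFun (eg.eig e) i) j
      rw [mul_diagonal] at this ⊢
      simpa [Matrix.mul_apply, hφ] using this)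
    (by rwa [m4]) (fun e => by rw [m1, m2]; exact mdb e)
  obtain ⟨G, rfl⟩ := lift g
  obtain ⟨G', rfl⟩ := lift g'
  refine ⟨μ, u, v, c, hm, G, G', ?_, ?_, fun e κ₀ Φ Φ' f1 f2 => ?_⟩
  · rw [← m4, ← m4, ← Matrix.map_mul, k1, Matrix.map_one _ (map_zero _) (map_one _)]
  · have := gf_map (d := tl) (d' := tl) (q := 1) (A := X.A.map (ml π))
      (A' := mT (fun i => (μ i : k)) (fun i => (u i : k)) (fun i => (v i : k)) c)
      (G := G.map (ml π)) (ml φ) (ml_tl φ)
    rw [k2, m4, m4, mT_map, Matrix.map_zero _ (map_zero _)] at this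
    simpa using this.symm
  · obtain ⟨S, S', U, s1, s2, s3, s4, s5⟩ := k3 e κ₀ (Φ.map (mL (Rat.castHom k)))
      (Φ'.map (mL (Rat.castHom k))) (by
        have := dfe_map (Rat.castHom k) e (mT μ u v c) κ₀ Φ
        rw [f1, mT_map, Matrix.map_zero _ (map_zero _)] at this
        simpa using this.symm)
      (by rw [← Matrix.map_mul, f2, Matrix.map_one _ (map_zero _) (map_one _)])
    obtain ⟨Z, rfl, z1⟩ := as3_liftM hs S
    obtain ⟨Z', rfl, -⟩ := as3_liftM hs S'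
    refine ⟨Z, Z', ?_, fun i j a ha => s2 i j a (z1 i j a ha), U.map (mL φ),
      fun i j a ha => ?_, Matrix.ext fun i j => ?_, ?_⟩
    · rw [← m2, ← m2, ← Matrix.map_mul, s1, Matrix.map_one _ (map_zero _) (map_one _)]
    · simpa using map_dvd φ (s3 i j a ha)
    · simpa [c0] using congrArg φ (congrFun (congrFun s4 i) j)
    · have a0 : ∀ A : Matrix (Fin 2) (Fin 2) (Lm O),
          ((A.map (ml π)).map (ex e)).map (mL φ) = (A.map (ml ρ)).map (ex e) := fun A =>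
        Matrix.ext fun i j => (mL_ex φ e _).trans (congrArg _ (m3 _))
      have a1 : ((Z.map (mp π)).map (io (sd e))).map (mL φ) = (Z.map (mp ρ)).map (io (sd e)) :=
        Matrix.ext fun i j => (mL_io φ _ _).trans (congrArg _ (m1 _))
      have a2 : (Φ.map (mL (Rat.castHom k))).map (mL φ) = Φ.map (mL (Rat.castHom ℂ)) := by
        ext i j a
        simp
      rw [← Matrix.map_mul (f := ml π)] at s5
      have := congrArg (fun M => Matrix.map M (mL φ)) s5
      beta_reduce at this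
      rw [Matrix.map_mul (f := mL φ), Matrix.map_mul (f := mL φ), a0, a1, a2] at this
      rw [← this, ← m3, ← mL_ex]
      exact Matrix.ext fun i j => (map_mul _ _ _).symm

end Pool.Agent.Lib.MP_815ef6_nt.Ch
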