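import Pool.Agent.Lib.MP_815ef6_nt.CT.MD3

/-! Descent of the trivializations. -/

namespace Pool.Agent.Lib.MP_815ef6_nt.Ch
open Finset LaurentPolynomial Matrix

variable {ι : Type*} [Fintype ι] [DecidableEq ι]

theorem Dsc_lin (q : ℚ[T;T⁻¹]) (A A' : Matrix ι ι ℚ[T;T⁻¹]) (q₀ : ℂ[T;T⁻¹])
    (A₀ A₀' : Matrix ι ι ℂ[T;T⁻¹]) (hq : mp (Rat.castHom ℂ) q = q₀)
    (hA : A.map (mp (Rat.castHom ℂ)) = A₀) (hA' : A'.map (mp (Rat.castHom ℂ)) = A₀') (D : ℕ) :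
    ∃ M : ℕ, 0 < M ∧ ∀ S : Subring ℂ, (M : ℂ)⁻¹ ∈ S →
    ∀ δ : Matrix ι ι ℂ[T;T⁻¹], (∀ i j (a : ℤ), D < |a| → (δ i j).coeff a = 0) →
      (∀ i j, gf th q₀ A₀ A₀' δ i j ∈ LS S) →
        ∃ δ' : Matrix ι ι ℂ[T;T⁻¹], (∀ i j, δ' i j ∈ LS S) ∧
          gf th q₀ A₀ A₀' δ' = gf th q₀ A₀ A₀' δ := by
  classical
  let c := Rat.castHom ℂ
  let E : ι × ι × Icc (-(D : ℤ)) D → Matrix ι ι ℚ[T;T⁻¹] := fun j => single j.1 j.2.1 (T j.2.2)
  let w := fun j => gf th q A A' (E j)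
  let Z : Finset ℤ := univ.biUnion fun p : (ι × ι × Icc (-(D : ℤ)) D) × ι × ι =>
    (w p.1 p.2.1 p.2.2).coeff.support
  have key : ∀ (x : ι × ι × Icc (-(D : ℤ)) D → ℂ) i i' a, (gf th q₀ A₀ A₀'
      (∑ j, (C (x j) : ℂ[T;T⁻¹]) • (E j).map (mp c)) i i').coeff a =
        ∑ j, c ((w j i i').coeff a) * x j := fun x i i' a => by
    have : ∀ j, gf th q₀ A₀ A₀' ((E j).map (mp c)) = (w j).map (mp c) :=
      fun j => by rw [gf_map (mp c) (mp_th c), hA, hA', hq]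
    simp only [lin_gf_sum, this, Matrix.map_apply, Matrix.sum_apply, Matrix.smul_apply, smul_eq_mul,
      AddMonoidAlgebra.coeff_sum, Finsupp.coe_finsetSum, Finset.sum_apply, coeff_C_mul, coeff_mp,
      mul_comm]
  obtain ⟨M, hM, H⟩ := lin_abs (of fun (k : ι × ι × Z) j => (w j k.1 k.2.1).coeff k.2.2)
  refine ⟨M, hM, fun S hS δ h0 h1 => ?_⟩
  have hδ : δ = ∑ j, (C ((δ j.1 j.2.1).coeff j.2.2) : ℂ[T;T⁻¹]) • (E j).map (mp c) := by
    ext i i' a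
    simp only [E, Matrix.map_apply, Matrix.sum_apply, Matrix.smul_apply, smul_eq_mul,
      AddMonoidAlgebra.coeff_sum, Finsupp.coe_finsetSum, Finset.sum_apply, single_apply,
      apply_ite (mp c), mp_T, map_zero, mul_ite, mul_zero,
      apply_ite fun f : ℂ[T;T⁻¹] => f.coeff a, coeff_CT]
    by_cases ha : a ∈ Icc (-(D : ℤ)) D
    · rw [sum_eq_single (i, i', ⟨a, ha⟩) _ fun h => (h (mem_univ _)).elim]
      · simp
      · rintro ⟨j, j', b, hb⟩ - hj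
        split_ifs with h h'
        · obtain ⟨rfl, rfl⟩ := h
          obtain rfl : b = a := h'
          exact (hj rfl).elim
        · rfl
        · rfl
    · rw [h0 i i' a (by rw [mem_Icc, ← abs_le] at ha; omega)]
      refine (sum_eq_zero fun j _ => ?_).symm
      split_ifs with h h'
      · exact (ha (h' ▸ j.2.2.2)).elim
      · rfl
      · rfl
  obtain ⟨x, hx, e⟩ := H S hS (fun j => (δ j.1 j.2.1).coeff j.2.2) fun k => by
    have := mem_LS.1 (h1 k.1 k.2.1) k.2.2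
    rwa [hδ, key] at this
  refine ⟨∑ j, (C (x j) : ℂ[T;T⁻¹]) • (E j).map (mp c), fun i i' => ?_, ?_⟩
  · rw [Matrix.sum_apply]
    refine sum_mem fun j _ => mul_mem (C_mem (hx j)) ?_
    simp only [E, Matrix.map_apply, single_apply, apply_ite (mp c), mp_T, map_zero]
    split_ifs
    · exact T_mem _ _
    · exact zero_mem _
  · ext i i' a
    rw [hδ, key, key]
    by_cases ha : a ∈ Z
    · exact congrFun e (i, i', ⟨a, ha⟩)
    · have : ∀ j, (w j i i').coeff a = 0 := fun j => by_contra fun h =>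
        ha (mem_biUnion.2 ⟨(j, i, i'), mem_univ _, Finsupp.mem_support_iff.2 h⟩)
      simp only [this, map_zero, zero_mul]

theorem Dsc_pow {R : Type*} [CommRing R] (D : ℕ) :
    tl ((iv : Lm R) ^ D) = (D : Lm R) * jo (T 1) * iv ^ (D + 1) := by
  induction D with
  | zero =>
    have := tl_cL (1 : R)
    rw [map_one] at this
    rw [pow_zero, this, Nat.cast_zero, zero_mul, zero_mul]
  | succ n h =>
    rw [pow_succ, dv_tl.mul, h, tl_iv]
    push_cast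
    ring

theorem Dsc_gf {R : Type*} [CommRing R] (μ u v : ι → R) (c : R) (D : ℕ)
    (g : Matrix ι ι R[T;T⁻¹]) :
    gf tl 1 (mT μ u v c) (mT μ u v c) ((iv : Lm R) ^ D • g.map jo) = (iv : Lm R) ^ (D + 1) •
      (gf th (1 - T 1) (mA μ u v - ((D : R[T;T⁻¹]) * T 1) • (1 : Matrix ι ι R[T;T⁻¹])) (mA μ u v)
        g).map jo := by
  rw [mT_eq]
  generalize mA μ u v = A
  have h1 : ((iv : Lm R) ^ D • g.map jo).map tl = (iv : Lm R) ^ (D + 1) •
      (((1 - T 1 : R[T;T⁻¹]) • g.map th + ((D : R[T;T⁻¹]) * T 1) • g).map jo) := by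
    ext i j : 1
    simp only [Matrix.map_apply, Matrix.smul_apply, Matrix.add_apply, smul_eq_mul, dv_tl.mul,
      Dsc_pow, tl_jo, map_add, map_mul, map_natCast]
    linear_combination (-(iv ^ D * jo (th (g i j)))) * jo_iv (R := R)
  have h2 : gf th (1 - T 1) (A - ((D : R[T;T⁻¹]) * T 1) • (1 : Matrix ι ι R[T;T⁻¹])) A g =
      ((1 - T 1 : R[T;T⁻¹]) • g.map th + ((D : R[T;T⁻¹]) * T 1) • g) - A * g + g * A := by
    rw [gf, sub_mul, Matrix.smul_mul, Matrix.one_mul]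
    abel
  rw [h2, gf, h1, one_smul]
  generalize (1 - T 1 : R[T;T⁻¹]) • g.map th + ((D : R[T;T⁻¹]) * T 1) • g = X
  rw [Matrix.map_add _ (map_add jo), Matrix.map_sub _ (map_sub jo), Matrix.map_mul, Matrix.map_mul]
  simp only [sub_mul, mul_sub, Matrix.smul_mul, Matrix.mul_smul, Matrix.one_mul, Matrix.mul_one,
    smul_add, smul_sub, smul_smul, pow_succ, mul_comm (iv : Lm R), mul_comm _ ((iv : Lm R) ^ D)]
  abel

theorem desc3 (μ u v : ι → ℚ) (c : ℚ) (D : ℕ) : ∃ M : ℕ, 0 < M ∧ ∀ S : Subring ℂ, (M : ℂ)⁻¹ ∈ S →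
    ∀ δ : Matrix ι ι (Lm ℂ), (∀ e, Od 0 D (δ.map (ex e))) →
      (∀ i j, gf tl 1 (mTC μ u v c) (mTC μ u v c) δ i j ∈ LL S) →
        ∃ δ' : Matrix ι ι (Lm ℂ), (∀ i j, δ' i j ∈ LL S) ∧
          gf tl 1 (mTC μ u v c) (mTC μ u v c) δ' = gf tl 1 (mTC μ u v c) (mTC μ u v c) δ := by
  have hA : (mA μ u v).map (mp (Rat.castHom ℂ)) = mC μ u v := by
    ext i j : 1
    simp [mA, diagonal_apply, vecMulVec_apply, apply_ite]
  obtain ⟨M, hM, H⟩ := Dsc_lin (1 - T 1)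
    (mA μ u v - ((D : ℚ[T;T⁻¹]) * T 1) • (1 : Matrix ι ι ℚ[T;T⁻¹])) (mA μ u v) (1 - T 1)
    (mC μ u v - ((D : ℂ[T;T⁻¹]) * T 1) • (1 : Matrix ι ι ℂ[T;T⁻¹])) (mC μ u v)
    (by rw [map_sub, map_one, mp_T]) (by
      rw [Matrix.map_sub _ (map_sub _), hA]
      congr 1
      ext i j : 1
      by_cases h : i = j <;> simp [one_apply, h]) hA (2 * D)
  refine ⟨M, hM, fun S hS δ h0 h1 => ?_⟩
  choose g hg hg' using fun i j =>
    bdd_ord (f := δ i j) (D := D) fun e a ha => zero_dvd_iff.1 (h0 e i j a ha)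
  obtain rfl : δ = (iv : Lm ℂ) ^ D • (of g).map jo := Matrix.ext fun i j => by
    rw [hg, Matrix.smul_apply, smul_eq_mul, mul_comm]
    rfl
  rw [Dsc_gf] at h1 ⊢
  obtain ⟨g', k1, k2⟩ := H S hS (of g) hg' fun i j => by
    have := mul_mem (pow_mem (jo_mem.2 (sub_mem (one_mem _) (T_mem S 1))) (D + 1)) (h1 i j)
    rwa [Matrix.smul_apply, smul_eq_mul, ← mul_assoc, ← mul_pow, jo_iv, one_pow, one_mul,
      Matrix.map_apply, jo_mem] at this
  exact ⟨(iv : Lm ℂ) ^ D • g'.map jo, fun i j => mul_mem (pow_mem (iv_mem S) D) (jo_mem.2 (k1 i j)),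
    by rw [Dsc_gf, k2]⟩

end Pool.Agent.Lib.MP_815ef6_nt.Ch
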