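import Pool.Agent.Lib.MP_815ef6_nt.CT.Sol

/-! Integral fundamental matrices of the twisted models of rank two. -/

namespace Pool.Agent.Lib.MP_815ef6_nt.Ch
open Finset LaurentPolynomial Matrix Filter

section
variable {ι : Type*} [Fintype ι] [DecidableEq ι]

/-- Frobenius solutions of a system with a simple pole. -/
theorem Sol2_frob (b : Bool) {B : Matrix ι ι (Lm ℚ)} (md : MDL (B.map (ml (Rat.castHom ℂ))))
    {X Y P P' : Matrix ι ι ℚ} {κ : ι → ℚ} (hB : ∀ i j, jo (1 - T (sg b)) * B i j =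
      cL (X i j) + cL (Y i j) * jo (T (sg b))) (hP : P * P' = 1) (eig : X * P = P * diagonal κ) :
    ∃ Ψ : Matrix ι ι (Ls ℚ), dfe (some b) B κ Ψ = 0 ∧ IsUnit Ψ := by
  have s0 : sg b ≠ 0 := by cases b <;> decide
  have k : ∀ (x y : ℚ) (a : ℤ), (C x * T 0 + C y * T (sg b) : ℚ[T;T⁻¹]).coeff a =
      (if 0 = a then x else 0) + if sg b = a then y else 0 := fun x y a => by
    rw [← coeff_CT, ← coeff_CT]
    rfl
  have k1 : ∀ (x y : ℚ) (a : ℤ), sg b * a < 0 →
      0 ∣ (C x * T 0 + C y * T (sg b) : ℚ[T;T⁻¹]).coeff a := fun x y a h => by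
    rw [k, if_neg (by rintro rfl; simp at h), if_neg (by rintro rfl; simp [sg_sq] at h), add_zero]
  have k0 : ∀ x y : ℚ, (C x * T 0 + C y * T (sg b) : ℚ[T;T⁻¹]).coeff 0 = x := fun x y => by
    rw [k, if_pos rfl, if_neg s0, add_zero]
  have el : (1 - T (sg b) : ℚ[T;T⁻¹]) = C 1 * T 0 + C (-1) * T (sg b) := by
    simp [sub_eq_add_neg]
  let Cm : Matrix ι ι ℚ[T;T⁻¹] := fun i j => C (X i j) * T 0 + C (Y i j) * T (sg b)
  have hC : je (some b) (1 - T (sg b) : ℚ[T;T⁻¹]) • (ro (some b) : Lm ℚ) • B =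
      Cm.map (je (some b)) := by
    ext i j : 2
    change jo (1 - T (sg b)) * (1 * B i j) = jo (C (X i j) * T 0 + C (Y i j) * T (sg b))
    rw [one_mul, hB, T_zero, mul_one, map_add, map_mul, jo_C, jo_C]
  obtain ⟨U, h1, h2, h3⟩ := frob (Rat.castHom ℂ) (b := b) (l := 1 - T (sg b)) (Cm := Cm)
    ⟨el ▸ k1 _ _, by rw [el, k0, sub_self], fun i j => k1 _ _⟩ hP (κ := κ)
    ((congrArg (· * P) (Matrix.ext fun i j => k0 _ _)).trans eig) (md.md (some b) (by
      ext i j : 2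
      have := congrArg (ml (Rat.castHom ℂ)) (congrFun (congrFun hC i) j)
      simpa only [Matrix.smul_apply, smul_eq_mul, Matrix.map_apply, map_mul, ml_je, ml_ro]
        using this))
  refine ⟨U, ?_, kpk_unit h2 (h3 ▸ IsUnit.of_mul_eq_one _ hP)⟩
  have e := (dfe_df (some b) hC κ U).symm.trans h1
  have l0 : io b (1 - T (sg b) : ℚ[T;T⁻¹]) ≠ 0 := fun h => by
    have := k0 1 (-1)
    rw [← el, io_inj b (h.trans (map_zero _).symm)] at this
    exact zero_ne_one this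
  exact Matrix.ext fun i j => (mul_eq_zero.1 (congrFun (congrFun e i) j)).resolve_left l0

omit [Fintype ι] in
theorem Sol2_sw {R : Type*} [CommRing R] (μ u v : ι → R) (c : R) (i j : ι) :
    ((ro none : Lm R) • mT μ u v c).map sw i j = cL (diagonal (fun i => μ i + c) i j) -
      iv * cL (diagonal μ i j + u i * v j) := by
  have e : ((ro none : Lm R) • mT μ u v c) i j = cL (diagonal (fun i => μ i + c) i j) -
      jo (T (-1)) * cL (diagonal μ i j + u i * v j) := by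
    have h1 := jo_iv (R := R)
    have h2 : (jo (T (-1)) : Lm R) * jo (T 1) = 1 := by
      rw [← map_mul, ← T_add, neg_add_cancel, T_zero, map_one]
    simp only [mT, mA, ro, Matrix.smul_apply, Matrix.map_apply, Matrix.sub_apply, Matrix.add_apply,
      smul_eq_mul, map_sub, map_add, map_mul, map_one, jo_C, vecMulVec_apply, diagonal_apply,
      one_apply] at h1 ⊢
    split_ifs
    · rw [map_add, map_one]
      linear_combination (cL (μ i) * (1 - jo (T (-1))) - jo (T (-1)) * cL (u i) * cL (v j) +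
        cL c) * h1 + (iv * cL c - iv * cL (u i) * cL (v j)) * h2
    · rw [map_zero, map_zero]
      linear_combination (-jo (T (-1)) * cL (u i) * cL (v j)) * h1 -
        (iv * cL (u i) * cL (v j)) * h2
  rw [Matrix.map_apply, e, map_sub, map_mul, sw_cL, sw_cL, sw_jo, ← sw_jo, ← sw_iv, sw_sw]

theorem Sol2_md {μ u v : ι → ℚ} (h : Mdl μ u v) (c : ℚ) :
    MDL ((((ro none : Lm ℚ) • mT μ u v c).map sw).map (ml (Rat.castHom ℂ))) := by
  have e := mT_map (Rat.castHom ℂ) μ u v c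
  refine (congrArg MDL (Matrix.ext fun i j => ?_)).mp (h.mdl c).sw
  have e1 : mTC μ u v c i j = ml (Rat.castHom ℂ) (mT μ u v c i j) :=
    (congrFun (congrFun e i) j).symm
  simp only [Matrix.map_apply, Matrix.smul_apply, smul_eq_mul, ml_sw, map_mul, ml_ro, e1]

omit [Fintype ι] [DecidableEq ι] in
theorem Sol2_inj {M : ℕ} {Φ Ψ : Matrix ι ι (Ls (ZM M))}
    (h : Φ.map (mL (ZM M).subtype) = Ψ.map (mL (ZM M).subtype)) : Φ = Ψ := by
  ext i j a
  exact congrArg (fun f : Matrix ι ι (Ls ℚ) => (f i j).coeff a) h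

omit [Fintype ι] [DecidableEq ι] in
theorem Sol2_lift {M : ℕ} {Φ : Matrix ι ι (Ls ℚ)} (h : InZ M Φ) :
    ∃ Ψ : Matrix ι ι (Ls (ZM M)), Ψ.map (mL (ZM M).subtype) = Φ := by
  choose Ψ e using fun i j => frob_lift (φ := (ZM M).subtype) (f := Φ i j) fun a =>
    ⟨⟨_, h i j a⟩, rfl⟩
  exact ⟨Ψ, Matrix.ext e⟩

end

variable {μ u v : Fin 2 → ℚ}

/-- Formal solutions of the system in the coordinate `1 - w`. -/
theorem Mdl.sol_sw (h : Mdl μ u v) (c : ℚ) (e : En) : ∃ (κ : Fin 2 → ℚ)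
    (Ψ : Matrix (Fin 2) (Fin 2) (Ls ℚ)),
      dfe e (((ro none : Lm ℚ) • mT μ u v c).map sw) κ Ψ = 0 ∧ IsUnit Ψ := by
  have h1 := jo_iv (R := ℚ)
  rcases e with _ | _ | _
  · obtain ⟨κ, Φ, Φ', a, b, -⟩ := h.sol_some c true
    refine ⟨κ, Φ, ?_, IsUnit.of_mul_eq_one _ b⟩
    rw [← dfe_sw, ← a]
    congr 1
    ext i j : 2
    simp only [Matrix.map_apply, Matrix.smul_apply, smul_eq_mul, map_mul, sw_sw]
    rw [← mul_assoc, mul_comm (sw _), ro_sw, one_mul]
  · refine ⟨fun i => μ i + c, Sol2_frob false (Sol2_md h c) (X := diagonal fun i => μ i + c)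
      (Y := vecMulVec u v - diagonal fun _ => c) (fun i j => ?_) (Matrix.mul_one 1)
      (by rw [Matrix.mul_one, Matrix.one_mul])⟩
    have h2 : (jo (T (-1)) : Lm ℚ) * jo (T 1) = 1 := by
      rw [← map_mul, ← T_add, neg_add_cancel, T_zero, map_one]
    rw [Sol2_sw]
    simp only [sg, Matrix.sub_apply, vecMulVec_apply, diagonal_apply, map_sub, map_one] at h1 ⊢
    split_ifs
    · simp only [map_add]
      linear_combination (jo (T (-1)) * h1 + iv * h2) * (cL (μ i) + cL (u i * v j))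
    · simp only [map_zero, zero_add]
      linear_combination (jo (T (-1)) * h1 + iv * h2) * cL (u i * v j)
  · have hB : ∀ i j, jo (1 - T (sg true)) * ((ro none : Lm ℚ) • mT μ u v c).map sw i j =
        cL (((diagonal fun _ => c) - vecMulVec u v : Matrix (Fin 2) (Fin 2) ℚ) i j) +
          cL ((-diagonal fun i => μ i + c) i j) * jo (T (sg true)) := fun i j => by
      rw [Sol2_sw]
      simp only [sg, Matrix.sub_apply, Matrix.neg_apply, vecMulVec_apply, diagonal_apply, map_sub,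
        map_neg, map_one] at h1 ⊢
      split_ifs
      · simp only [map_add]
        linear_combination -h1 * (cL (μ i) + cL (u i * v j))
      · simp only [map_zero, zero_add]
        linear_combination -h1 * cL (u i * v j)
    rcases h.tr with g | g
    · have g0 : u 0 * v 0 + u 1 * v 1 ≠ 0 := by simpa using g 0
      refine ⟨![c - (u 0 * v 0 + u 1 * v 1), c], Sol2_frob true (Sol2_md h c) hB
        (Matrix.mul_nonsing_inv !![u 0, -v 1; u 1, v 0] (Ne.isUnit ?_)) ?_⟩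
      · rw [det_fin_two_of]
        exact fun e => g0 (by linear_combination e)
      · ext i j
        fin_cases i <;> fin_cases j <;>
          simp [Matrix.mul_apply, Fin.sum_univ_two, vecMulVec_apply] <;> ring
    · refine ⟨fun _ => c, Sol2_frob true (Sol2_md h c) hB (Matrix.mul_one 1) ?_⟩
      rw [Matrix.mul_one, Matrix.one_mul, sub_eq_self]
      exact Matrix.ext fun i j => by simp [vecMulVec_apply, g]

theorem Mdl.sol_end (h : Mdl μ u v) (c : ℚ) (e : En) : ∃ (κ : Fin 2 → ℚ)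
    (Φ Φ' : Matrix (Fin 2) (Fin 2) (Ls ℚ)), dfe e (mT μ u v c) κ Φ = 0 ∧ Φ * Φ' = 1 ∧
      ∀ᶠ n : ℕ in atTop, InZ n.factorial Φ ∧ InZ n.factorial Φ' := by
  rcases e with _ | b
  · choose κ Ψ a b using h.sol_sw c
    obtain ⟨μ₂, u₂, v₂, c₂, g, m, ⟨g, rfl⟩, e⟩ := cls3 (Rat.castHom ℂ) (Sol2_md h c) a b
    obtain ⟨κ₂, Φ, Φ', a1, a2, a3⟩ := m.sol_some c₂ true
    refine ⟨κ₂, g.1.map (ex (some true)) * Φ, Φ' * g.2.map (ex (some true)), ?_, ?_,
      (a3.and ((inz_ex (some true) g.1).and (inz_ex (some true) g.2))).mono fun n k =>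
        ⟨k.2.1.mul k.1.1, k.1.2.mul k.2.2⟩⟩
    · rw [← dfe_sw, dfe_gauge (A' := mT μ₂ u₂ v₂ c₂), a1,
        show gf tl 1 _ (mT μ₂ u₂ v₂ c₂) g.1 = 0 from e, smul_zero, Matrix.map_zero _ (map_zero _),
        Matrix.zero_mul, Matrix.mul_zero, add_zero]
    · rw [Matrix.mul_assoc, ← Matrix.mul_assoc Φ, a2, Matrix.one_mul, ← Matrix.map_mul, g.3,
        Matrix.map_one _ (map_zero _) (map_one _)]
  · exact h.sol_some c b

theorem Mdl.sol3 (h : Mdl μ u v) (c : ℚ) : ∃ M : ℕ, 0 < M ∧ ∃ (μ' u' v' : Fin 2 → ZM M) (c' : ZM M)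
    (κ : En → Fin 2 → ZM M) (Φ Φ' : En → Matrix (Fin 2) (Fin 2) (Ls (ZM M))) (D : ℕ),
      (∀ i, (μ' i : ℚ) = μ i) ∧ (∀ i, (u' i : ℚ) = u i) ∧ (∀ i, (v' i : ℚ) = v i) ∧ (c' : ℚ) = c ∧
        Sl3 (mT μ' u' v' c') κ Φ Φ' D := by
  choose κ Φ Φ' a b d using h.sol_end c
  have all : ∀ c : Fin 2 → ℚ, ∀ᶠ n : ℕ in atTop, ∀ i, c i ∈ ZM n.factorial := fun c =>
    eventually_all.2 fun i => sol2_q _
  obtain ⟨n, m1, m2, m3, m4, m5, m6, m7⟩ := ((all μ).and ((all u).and ((all v).and ((sol2_q c).and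
    ((eventually_all.2 fun e => all (κ e)).and ((eventually_all.2 d).and (h.ml c))))))).exists
  choose Ψ e1 using fun e => Sol2_lift (m6 e).1
  choose Ψ' e2 using fun e => Sol2_lift (m6 e).2
  obtain ⟨D, hD⟩ := (eventually_all.2 fun e => (exists_od (Ψ e)).and (exists_od (Ψ' e))).exists
  refine ⟨_, n.factorial_pos, fun i => ⟨μ i, m1 i⟩, fun i => ⟨u i, m2 i⟩, fun i => ⟨v i, m3 i⟩,
    ⟨c, m4⟩, fun e i => ⟨κ e i, m5 e i⟩, Ψ, Ψ', D, fun _ => rfl, fun _ => rfl, fun _ => rfl, rfl,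
    fun e => Sol2_inj ?_, fun e => Sol2_inj ?_, hD,
    m7 _ _ _ _ (fun _ => rfl) (fun _ => rfl) (fun _ => rfl) rfl⟩
  · rw [dfe_map, mT_map, e1, Matrix.map_zero _ (map_zero _)]
    exact a e
  · rw [Matrix.map_mul, e1, e2, b, Matrix.map_one _ (map_zero _) (map_one _)]

end Pool.Agent.Lib.MP_815ef6_nt.Ch
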