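import Pool.Agent.Lib.MP_815ef6_nt.CT.As1
import Pool.Agent.Lib.MP_815ef6_nt.CT.As2
import Pool.Agent.Lib.MP_815ef6_nt.CT.As3
import Pool.Agent.Lib.MP_815ef6_nt.CT.Sol2
import Pool.Agent.Lib.MP_815ef6_nt.CT.Dsc

/-! The data of a component with three ends over large finitely generated rings. -/

namespace Pool.Agent.Lib.MP_815ef6_nt.Ch
open Finset LaurentPolynomial Matrix Filter

variable {O : Subring ℂ} {t : ℂ}

theorem As4_ml {R R' R'' α β : Type*} [CommRing R] [CommRing R'] [CommRing R''] (φ : R →+* R')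
    (ψ : R' →+* R'') (A : Matrix α β (Lm R)) :
    A.map (ml (ψ.comp φ)) = (A.map (ml φ)).map (ml ψ) := Matrix.ext fun _ _ => (ml_ml _ _ _).symm

theorem As4_bd3 {R ι : Type*} [CommRing R] [Finite ι] (S S' : En → Matrix ι ι R[T;T⁻¹])
    (κ : En → ι → ℚ) : ∃ D : ℕ, ∀ b i j (a : ℤ), D < |a| →
      (S b i j).coeff a = 0 ∧ (S' b i j).coeff a = 0 ∧ a + κ b j - κ b i ≠ 0 := by
  refine Eventually.exists (f := atTop) ?_
  simp only [eventually_all]
  intro b i j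
  have k : {a : ℤ | a + κ b j - κ b i = 0}.Subsingleton := fun a (ha : _ = _) a' (ha' : _ = _) =>
    Int.cast_injective (α := ℚ) (by linear_combination ha - ha')
  filter_upwards [As4_fin (S b i j).coeff.support.finite_toSet,
    As4_fin (S' b i j).coeff.support.finite_toSet, As4_fin k.finite] with D h1 h2 h3 a ha
  exact ⟨Finsupp.notMem_support_iff.1 (h1 a ha), Finsupp.notMem_support_iff.1 (h2 a ha), h3 a ha⟩

theorem ev_cmp3 (H : Frame O t) {s : O} (hp : Prime s) (hs : s ∣ ⟨t, H.mem⟩) {ρ : O →+* ℂ}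
    (hρ : ∀ x, ρ x = 0 ↔ s ∣ x) {F : Finset ℂ} (hF : ∀ x ∈ F, ∃ e : ℕ, t ^ e * x ∈ O) {p₀ : ℕ}
    {X : PD3 O (Fin 2)} (h : PrO3 s X F p₀) {κ : En → Fin 2 → ℚ}
    {P P' : En → Matrix (Fin 2) (Fin 2) ℚ} (eg : Eg3 ρ X.Cm κ P P') :
    ∀ᶠ T in fG O t, ∀ (hle : cl T ≤ O) (hs : s.1 ∈ cl T),
      Loc (⟨s, hs⟩ : cl T) (ρ.comp (Subring.inclusion hle)) → ∀ K : En → Fin 2 → cl T,
        (∀ e i, (K e i : ℂ) = κ e i) → ∀ Q : En → Matrix (Fin 2) (Fin 2) (cl T),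
          (∀ e i j, (Q e i j : ℂ) = P e i j) → (∀ e, IsUnit (Q e)) →
            ∃ X' Y, PD3.map (Subring.inclusion hle) X' = X ∧
              Cmp3 ⟨s, hs⟩ (ρ.comp (Subring.inclusion hle)) X' K Q Y := by
  have := H.neBot
  obtain ⟨T₁, ⟨hle₁, hs₁, L₁⟩, h₁⟩ := ((H.ev_loc hs hρ).and (ev_pre3 H hp hρ hF h)).exists
  obtain ⟨X₁, e₁, p₁⟩ := h₁ hle₁ hs₁ L₁
  have md : MDL (X.A.map (ml ρ)) := by
    have k := p₁.md L₁
    rwa [As4_ml, show X₁.A.map _ = X.A from congrArg PD3.A e₁] at k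
  have mdb : ∀ b, MD (mp ρ (X.l b)) ((X.Cm b).map (mp ρ)) := fun b => by
    have k := (p₁.mb b).md _ L₁.fg
    rwa [As4_mm, ← mp_mp, show (X₁.Cm b).map _ = X.Cm b from congrArg (·.Cm b) e₁,
      show mp _ (X₁.l b) = X.l b from congrArg (·.l b) e₁] at k
  obtain ⟨μ, u, v, c, mdl, g, g', gg, hg, hS⟩ := pack3 H hp hρ h eg md mdb
  obtain ⟨M, -, μ', u', v', c', κ₀, Φ, Φ', D₀, hμ, hu, hv, rfl, sl⟩ := mdl.sol3 c
  obtain rfl : (fun i => (μ' i : ℚ)) = μ := funext hμ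
  obtain rfl : (fun i => (u' i : ℚ)) = u := funext hu
  obtain rfl : (fun i => (v' i : ℚ)) = v := funext hv
  have slQ := sl.map (ZM M).subtype
  rw [mT_map] at slQ
  choose S S' SS sup reg using fun b => hS b _ _ _ (slQ.fund b) (slQ.inv b)
  obtain ⟨D, hD⟩ := As4_bd3 S S' κ
  obtain ⟨M₀, -, desc⟩ := desc3 (fun i => (μ' i : ℚ)) (fun i => (u' i : ℚ))
    (fun i => (v' i : ℚ)) c' (3 * (D₀ + D))
  filter_upwards [ev_pre3 H hp hρ hF h, ev_liftM3 g, ev_liftM3 g',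
    eventually_all.2 fun b => ev_liftM (S b), eventually_all.2 fun b => ev_liftM (S' b),
    ev_in (H.rat (M : ℚ)⁻¹), ev_in (H.rat (M₀ : ℚ)⁻¹)]
    with T' h1 h2 h3 h4 h5 h6 h7 hle hs' L K hK Q hQ pp
  obtain ⟨X', eX, pre⟩ := h1 hle hs' L
  obtain ⟨G, eG⟩ := h2 hle
  obtain ⟨G', eG'⟩ := h3 hle
  choose R eR using fun b => h4 b hle
  choose R' eR' using fun b => h5 b hle
  have hψ : ZM M ≤ (cl T').comap (Rat.castHom ℂ) :=
    Subring.closure_le.2 (Set.singleton_subset_iff.2 h6)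
  let ψ : ZM M →+* cl T' :=
    ((Rat.castHom ℂ).comp (ZM M).subtype).codRestrict (cl T') fun x => hψ x.2
  have rψ : ∀ x, ρ.comp (Subring.inclusion hle) (ψ x) = (x : ℚ) := fun x => rho_rat _ rfl
  have c : ∀ {A : Matrix (Fin 2) (Fin 2) (LaurentPolynomial (cl T'))}
      {B : Matrix (Fin 2) (Fin 2) O[T;T⁻¹]}, A.map (mp (Subring.inclusion hle)) = B → ∀ i j a,
        ((A i j).coeff a = 0 ↔ (B i j).coeff a = 0) := by
    rintro A _ rfl i j a
    exact (map_eq_zero_iff _ (Subring.inclusion_injective hle)).symm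
  obtain ⟨Y, hY⟩ := mk_cmp3 L pre mdl (c := c') (by simp only [mT_map, rψ]) (sl.map ψ) hK pp
    (g := G) (g' := G') (by rwa [As4_ml, As4_ml _ _ G', eG, eG'])
    (by rwa [As4_ml, As4_ml _ _ G, eG, show X'.A.map _ = X.A from congrArg PD3.A eX])
    (S := R) (S' := R') (fun b => by rw [As4_mm, As4_mm _ _ (R' b), eR, eR', SS])
    (fun b i j a l => Subtype.ext (by
      have k := congrArg (Rat.castHom ℂ) (sup b i j a fun l' => l ((c (eR b) i j a).2 l'))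
      rw [map_sub, map_add, map_intCast, map_zero, Rat.coe_castHom, ← hK] at k
      push_cast
      exact k)) (D := D)
    (fun b i j a l => ⟨(c (eR b) i j a).2 (hD b i j a l).1, (c (eR' b) i j a).2 (hD b i j a l).2.1,
      (hD b i j a l).2.2⟩)
    (fun b => by
      obtain ⟨U, k1, k2, k3⟩ := reg b
      refine ⟨U, k1, k2.trans (Matrix.ext fun i j =>
        (rho_rat (ρ.comp (Subring.inclusion hle)) (hQ b i j)).symm), ?_⟩
      rw [As4_ml, As4_mm _ _ (R b), eR, ← ml_ml, Matrix.map_mul (L := X'.W b), eG,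
        show (X'.W b).map _ = X.W b from congrArg (·.W b) eX,
        show ml _ X'.n = X.n from congrArg PD3.n eX, k3]
      congr 2
      ext i j a
      exact (rψ _).symm)
    (desc _ ⟨⟨_, h7⟩, (rho_rat _ rfl).trans (by simp)⟩)
  exact ⟨X', Y, eX, hY⟩

end Pool.Agent.Lib.MP_815ef6_nt.Ch
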