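import Pool.Agent.Lib.MP_815ef6_nt.CT.CmB

/-! Components with three ends: the inductive step. -/

namespace Pool.Agent.Lib.MP_815ef6_nt.Ch
open Finset LaurentPolynomial Matrix

variable {B : Type*} [CommRing B] {ι : Type*} [Fintype ι] [DecidableEq ι] {s : B} {ρ : B →+* ℂ}
  {X : PD3 B ι} {K : En → ι → B} {P : En → Matrix ι ι B} {Y : CD3 B ι}

omit [Fintype ι] [DecidableEq ι] in
theorem CmC_eq (H : Loc s ρ) {M N : Matrix ι ι (Lm B)} (h : Dd (cL s) (M - N)) :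
    M.map (ml ρ) = N.map (ml ρ) := sub_eq_zero.1 (by rw [← Am1_sb, (Dd_ml H.ker).1 h])

theorem CmC_gg (H : Loc s ρ) (h : Cmp3 s ρ X K P Y) : Y.g.map (ml ρ) * Y.g'.map (ml ρ) = 1 := by
  rw [← Matrix.map_mul, CmC_eq H h.gg, Matrix.map_one _ (map_zero _) (map_one _)]

theorem CmC_inv (H : Loc s ρ) (h : Cmp3 s ρ X K P Y) (e : En) :
    (Y.Ψ e).map (mL ρ) * (Y.Ψ' e).map (mL ρ) = 1 := by
  rw [← Matrix.map_mul, cmc_eqL H (h.inv e), Matrix.map_one _ (map_zero _) (map_one _)]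

omit [Fintype ι] [DecidableEq ι] in
theorem CmC_ex (e : En) (M : Matrix ι ι (Lm B)) :
    (M.map (ex e)).map (mL ρ) = (M.map (ml ρ)).map (ex e) := Matrix.ext fun _ _ => mL_ex ρ e _

omit [Fintype ι] [DecidableEq ι] in
theorem CmC_je (e : En) (M : Matrix ι ι B[T;T⁻¹]) :
    (M.map (je e)).map (ex e) = M.map (io (sd e)) := Matrix.ext fun _ _ => ex_je e _

theorem CmC_s (H : Loc s ρ) : ml ρ (cL s) = 0 := (dvd_ml H.ker).1 dvd_rfl

theorem CmC_del (H : Loc s ρ) (h : Pre3 s X) : ml ρ X.δ = 1 :=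
  sub_eq_zero.1 (by rw [← map_one (ml ρ), ← map_sub, (dvd_ml H.ker).1 h.one])

theorem CmC_gf (e : En) {q : Lm B} {A A' G E : Matrix ι ι (Lm B)} (h : gf tl q A A' G = E) :
    gf (dS (sd e)) (ex e q) (ex e (ro e : Lm B) • A.map (ex e)) (ex e (ro e : Lm B) • A'.map (ex e))
      (G.map (ex e)) = ex e (ro e : Lm B) • E.map (ex e) := by
  rw [← Am1_smul, ← Am1_smul, ← Am1_smul, ← gf_map (ex e) (ex_te e), ← h, gf, gf,
    show G.map (te e) = (ro e : Lm B) • G.map tl from rfl, Matrix.smul_mul, Matrix.mul_smul,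
    smul_add, smul_sub, smul_comm q]

theorem Cmp3.side (H : Loc s ρ) (h : Cmp3 s ρ X K P Y) {m : ℕ} {G E : Matrix ι ι (Lm B)} (e : En)
    {Ψ V M F : Matrix ι ι (Ls B)}
    (hE : gf tl X.δ X.A (X.δ • Y.A0) G = (cL s ^ (m + 1) : Lm B) • E)
    (h0 : dfe e Y.A0 (K e) Ψ = 0) (h1 : Dd (cS s) (Ψ - Y.Ψ e))
    (hM : ex e X.n • V - (X.W e * G).map (ex e) * Ψ = cS s ^ (m + 1) • M)
    (hF : df (sd e) (X.l e) (X.Cm e) (K e) V = cS s ^ (m + 1) • F)
    (h2 : Od (s ^ (m + 2)) 0 (df (sd e) (X.l e) (X.Cm e) (K e) V)) : ∃ ζ : Matrix ι ι (Ls B),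
      M.map (mL ρ) = ((X.W e * Y.g).map (ml ρ)).map (ex e) * (Y.Ψ e).map (mL ρ) * ζ.map (mL ρ) ∧
      ∀ Z, gf tl 1 (Y.A0.map (ml ρ)) (Y.A0.map (ml ρ)) Z = (Y.g' * E).map (ml ρ) →
        ∀ i j a, a < 0 → (((Y.Ψ' e).map (mL ρ) * Z.map (ex e) * (Y.Ψ e).map (mL ρ) +
          ζ.map (mL ρ)) i j).coeff a ≠ 0 → (sg (sd e) * a : ℤ) + K e j - K e i = 0 ∧ |a| ≤ Y.D := by
  obtain ⟨w, hw⟩ := h.uW e e
  obtain ⟨ν, hν⟩ := h.un e
  obtain ⟨l, hl, hl0⟩ := (h.re e).unit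
  obtain ⟨U, U0, U1, U2⟩ := h.reg e
  obtain ⟨U', V0, -, V1⟩ := inv_reg (s := 0) (U := U) (P := (P e).map ρ)
    ((h.pp e).map ρ.mapMatrix) U0 (by rw [U1, sub_self]; exact fun _ _ => dvd_zero _)
  have V1 : U' * U = 1 := sub_eq_zero.1 (Matrix.ext fun i j => by
    have := V1 i j
    rwa [map_zero, zero_dvd_iff] at this)
  have gg : (Y.g.map (ml ρ)).map (ex e) * (Y.g'.map (ml ρ)).map (ex e) = 1 := by
    rw [← Matrix.map_mul, CmC_gg H h, Matrix.map_one _ (map_zero _) (map_one _)]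
  have ww : ((X.W e).map (ml ρ)).map (ex e) *
      (w • ((X.W e).map (ex e)).adjugate).map (mL ρ) = 1 := by
    rw [← CmC_ex, ← Matrix.map_mul, Matrix.mul_smul, mul_adjugate, smul_smul, Am1_smul, map_mul,
      mul_comm, show ((X.W e).map (ex e)).det = ex e (X.W e).det from ((ex e).map_det _).symm,
      cmc_un H hw, one_smul, Matrix.map_one _ (map_zero _) (map_one _)]
  obtain ⟨ζ, hζ⟩ : ∃ ζ : Matrix ι ι (Ls B), M.map (mL ρ) = ((X.W e).map (ml ρ)).map (ex e) *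
      (Y.g.map (ml ρ)).map (ex e) * (Y.Ψ e).map (mL ρ) * ζ.map (mL ρ) := by
    refine ⟨Y.Ψ' e * Y.g'.map (ex e) * (w • ((X.W e).map (ex e)).adjugate) * M, ?_⟩
    rw [Matrix.map_mul, Matrix.map_mul, Matrix.map_mul, CmC_ex, ← Matrix.mul_assoc,
      ← Matrix.mul_assoc, ← Matrix.mul_assoc, Matrix.mul_assoc _ ((Y.Ψ e).map _), CmC_inv H h,
      Matrix.mul_one, Matrix.mul_assoc _ ((Y.g.map _).map _), gg, Matrix.mul_one, ww,
      Matrix.one_mul]
  refine ⟨ζ, by rw [Matrix.map_mul, Matrix.map_mul]; exact hζ, fun Z hZ i j a ha hne => ?_⟩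
  have r := (h.rel e).map (ex e) (ex_te e)
  have e1 := CmC_gf e hE
  rw [Am1_smul, Am1_smul, smul_comm, smul_comm (ex e (ro e)), map_pow, ex_cL] at e1
  rw [Am1_smul, ex_je, CmC_je, ← one_mul (ex e X.δ)] at r
  rw [Matrix.map_mul] at hM
  rw [dfe, Am1_smul, ← one_smul (Ls B) (diagonal _)] at h0
  have e2 := congrArg (fun M => M.map (mL ρ)) (cmc_reg H (m + 1) (cmc_pre (dv_dS (sd e)) r
    (by rw [← map_pow, dS_cS]) (by rwa [one_mul]) h0 hM hF))
  have dg : (diagonal fun i => cS (K e i)).map (mL ρ) = diagonal fun i => cS (ρ (K e i)) := by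
    rw [diagonal_map (map_zero _)]
    simp only [mL_cS]
  have r' := r.map (mL ρ) (mL_dS ρ _)
  simp only [Am1_smul, Am1_add, Am1_sb, Matrix.map_mul, gf_map (mL ρ) (mL_dS ρ _), map_mul, map_pow,
    mL_dS, mL_io, mL_ex, ml_ro, CmC_del H h.toPre3, map_one, mul_one, cmc_io, CmC_ex, cmc_eqL H h1,
    dg] at e2 r'
  have g0 := CmC_gf e ((gf_map (ml ρ) (ml_tl ρ)).symm.trans ((Dd_ml H.ker).1 h.hg))
  have f0 := congrArg (fun M => M.map (mL ρ)) (h.fund e)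
  have z0 := CmC_gf e hZ
  simp only [dfe_map, Matrix.map_mul, map_one, smul_zero, ← Matrix.mul_smul,
    Matrix.map_zero _ (map_zero (ex e)), Matrix.map_zero _ (map_zero (mL ρ))] at g0 f0 z0 U2
  rw [dfe, Am1_smul, ← one_smul (Ls ℂ) (diagonal _)] at f0
  have hn := cmc_un H hν
  rw [mL_ex] at hn
  have e3 := cmc_core (dv_dS (sd e)) r' g0 gg f0 (CmC_inv H h e) U2 hζ e2 z0 one_ne_zero
    (left_ne_zero_of_mul_eq_one hn)
  have e4 := congrArg (fun M => mL ρ l • (U' * M)) e3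
  have hl := cmc_un H hl
  rw [mL_io] at hl
  simp only [Matrix.mul_smul, smul_smul, ← Matrix.mul_assoc U', V1, Matrix.one_mul] at e4
  rw [mul_comm, hl, one_smul] at e4
  have F0 : Oz 0 (F.map (mL ρ)) := fun i j a ha => (H.ker _).2 (by
    obtain ⟨y, e⟩ := h2 i j a (by simpa using ha)
    rw [hF, Matrix.smul_apply, smul_eq_mul, ← map_pow, coeff_cS_mul] at e
    exact cmb_canc H (m + 1) e)
  have e5 := cmc_cmul (f := mL ρ l) (x := 0) (fun a ha => by rw [coeff_mL, hl0 a ha, map_zero])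
    (Oz.mul (x := 0) (fun i j a ha => zero_dvd_iff.1 (V0 i j a (by simpa using ha))) F0 i j) a
    (by simpa using ha)
  rw [← smul_eq_mul, ← Matrix.smul_apply, e4, cmc_nab] at e5
  have e6 := h.res e i j (sg (sd e) * a) (by
    rw [map_sub, map_add, map_intCast]
    exact (mul_eq_zero.1 e5).resolve_right hne)
  refine ⟨e6.1, le_of_eq_of_le ?_ e6.2⟩
  cases sd e <;> simp [sg]

theorem Cmp3.step (H : Loc s ρ) (h : Cmp3 s ρ X K P Y) {m : ℕ} {U V : En → Matrix ι ι (Ls B)}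
    (S : St3 s X K Y (m + 1) U) (h1 : ∀ e, Dd (cS s ^ (m + 1)) (V e - U e))
    (h2 : ∀ e, Od (s ^ (m + 2)) 0 (df (sd e) (X.l e) (X.Cm e) (K e) (V e))) :
    ∃ U', St3 s X K Y (m + 2) U' ∧
      ∀ e, Dd (cS s ^ (m + 1)) (U' e - V e) ∧ Od (s ^ (m + 2)) 0 (U' e - V e) := by
  classical
  have hs := h.toPre3.sol S
  obtain ⟨G, Ψ, g1, g2, g3⟩ := S
  obtain ⟨E, hE⟩ := cmb_dd.1 g1
  have hc : ∀ b, dS b (cS s ^ (m + 1) : Ls B) = 0 := fun b => by rw [← map_pow, dS_cS]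
  choose M hM using fun b => cmb_dd.1 (show Dd (cS s ^ (m + 1))
      (ex b X.n • V b - (X.W b * G).map (ex b) * Ψ b) by
    obtain ⟨N, e⟩ := cmb_dd.1 (h1 b)
    obtain ⟨N', e'⟩ := cmb_dd.1 (g3 b).2.2
    refine cmb_dd.2 ⟨ex b X.n • N + N', ?_⟩
    rw [sub_eq_iff_eq_add.1 e, smul_add, add_sub_assoc, e', smul_add, smul_comm])
  choose F hF using fun b => cmb_dd.1 (show Dd (cS s ^ (m + 1))
      (df (sd b) (X.l b) (X.Cm b) (K b) (V b)) by
    obtain ⟨N, e⟩ := cmb_dd.1 (h1 b)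
    obtain ⟨N', e'⟩ := cmb_dd.1 (hs b)
    refine cmb_dd.2 ⟨df (sd b) (X.l b) (X.Cm b) (K b) N + N', ?_⟩
    rw [df] at e'
    rw [sub_eq_iff_eq_add.1 e, df, cmc_add (dv_dS _), cmc_smul (dv_dS _), hc, e', mul_zero,
      zero_smul, zero_add, smul_add, df])
  choose ζ hζ hz using fun b => h.side H b hE (g3 b).1 (g3 b).2.1 (hM b) (hF b) (h2 b)
  obtain ⟨Z, hZ⟩ := h.obs H g2 hE
  obtain ⟨Z, hZ⟩ := h.dsc H hZ (ζ := ζ) fun b i j a ha => by
    by_contra k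
    have := (hz b Z hZ i j a (by omega) k).2
    rw [abs_of_neg (by omega)] at this
    omega
  have hZ := CmC_eq H hZ
  rw [gf_map (ml ρ) (ml_tl ρ), map_one] at hZ
  obtain ⟨S, hS⟩ : ∃ S : En → Matrix ι ι (Ls B), ∀ b i j a, (S b i j).coeff a =
      if a < 0 ∧ (sg (sd b) * a : ℤ) + K b j - K b i = 0 then
        ((Y.Ψ' b * Z.map (ex b) * Y.Ψ b + ζ b) i j).coeff a else 0 :=
    ⟨fun b i j => ⟨fun a => if a < 0 ∧ (sg (sd b) * a : ℤ) + K b j - K b i = 0 then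
      ((Y.Ψ' b * Z.map (ex b) * Y.Ψ b + ζ b) i j).coeff a else 0,
      ((Y.Ψ' b * Z.map (ex b) * Y.Ψ b + ζ b) i j).isPWO_support.mono
        fun a k l => k (by simp only [l, ite_self])⟩, fun _ _ _ _ => rfl⟩
  choose ν hν using h.un
  refine ⟨fun b => V b + cS s ^ (m + 1) • ν b • ((X.W b * Y.g).map (ex b) *
    (Y.Ψ b * S b - Z.map (ex b) * Y.Ψ b) - M b), ⟨G * (1 + (cL s ^ (m + 1) : Lm B) • -Z),
    fun b => Ψ b * (1 + cS s ^ (m + 1) • S b), ?_, ?_, fun b => ⟨?_, ?_, ?_⟩⟩, fun b => ?_⟩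
  · rw [gf_mul dv_tl (A' := X.δ • Y.A0), hE, cmc_one dv_tl (by rw [← map_pow, tl_cL]),
      cmc_neg dv_tl, Matrix.smul_mul, Matrix.mul_smul, ← smul_add]
    refine cmc_pow ((Dd_ml H.ker).2 ?_) _
    simp only [Am1_add, Am1_smul, Matrix.map_mul, map_pow, CmC_s H, CmC_del H h.toPre3, CmC_eq H g2,
      Matrix.map_neg _ (map_neg (ml ρ)), gf_map (ml ρ) (ml_tl ρ), one_smul, hZ,
      Matrix.map_one _ (map_zero (ml ρ)) (map_one (ml ρ))]
    rw [zero_pow m.succ_ne_zero, zero_smul, add_zero, Matrix.mul_one, Matrix.mul_neg,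
      ← Matrix.mul_assoc, CmC_gg H h, Matrix.one_mul, add_neg_cancel]
  · refine (Dd_ml H.ker).2 ?_
    simp only [Am1_add, Am1_sb, Am1_smul, Matrix.map_mul, map_pow, CmC_s H, CmC_eq H g2,
      Matrix.map_one _ (map_zero (ml ρ)) (map_one (ml ρ))]
    rw [zero_pow m.succ_ne_zero, zero_smul, add_zero, Matrix.mul_one, sub_self]
  · have e := (g3 b).1
    rw [dfe] at e ⊢
    rw [gf_mul (dv_dS _) (A' := diagonal fun i => cS (K b i)), e,
      cmc_one (dv_dS _) (hc _), show gf (dS (sd b)) 1 (diagonal fun i => cS (K b i))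
        (diagonal fun i => cS (K b i)) (S b) = 0 from Matrix.ext fun i j => HahnSeries.ext
          (funext fun a => by
            rw [cmc_nab, hS]
            split_ifs with k
            · rw [k.2, zero_mul]; rfl
            · rw [mul_zero]; rfl)]
    simp
  · refine (cmc_ddL H).2 ?_
    simp only [Am1_add, Am1_sb, Am1_smul, Matrix.map_mul, cmc_sL H, cmc_eqL H (g3 b).2.1,
      Matrix.map_one _ (map_zero (mL ρ)) (map_one (mL ρ))]
    rw [zero_smul, add_zero, Matrix.mul_one, sub_self]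
  · rw [← Matrix.mul_assoc (X.W b), Matrix.map_mul (L := X.W b * G), Am1_add, Am1_smul, map_pow,
      ex_cL, Matrix.map_neg _ (map_neg (ex b)),
      Matrix.map_one _ (map_zero (ex b)) (map_one (ex b)), cmc_new (hM b)]
    refine cmc_pow ((cmc_ddL H).2 ?_) _
    simp only [Am1_add, Am1_sb, Am1_smul, Matrix.map_mul, cmc_sL H, cmc_eqL H (g3 b).2.1, map_mul,
      cmc_un H (hν b), CmC_ex, CmC_eq H g2]
    rw [one_smul, zero_smul, sub_zero, add_sub_cancel, sub_self]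
  · rw [add_sub_cancel_left]
    refine ⟨cmb_dd.2 ⟨_, rfl⟩, fun i j a ha => ?_⟩
    rw [Matrix.smul_apply, smul_eq_mul, ← map_pow, coeff_cS_mul, pow_succ s (m + 1)]
    refine mul_dvd_mul_left _ ((H.ker _).1 ?_)
    obtain ⟨U, U0, -, U2⟩ := h.reg b
    have hn := cmc_un H (hν b)
    rw [mL_ex] at hn
    have e : (ν b • ((X.W b * Y.g).map (ex b) * (Y.Ψ b * S b - Z.map (ex b) * Y.Ψ b) - M b)).map
        (mL ρ) = U * (S b - (Y.Ψ' b * Z.map (ex b) * Y.Ψ b + ζ b)).map (mL ρ) := by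
      rw [← one_smul (Ls ℂ) U, ← hn, mul_comm, mul_smul, U2, Am1_smul, Matrix.smul_mul, Am1_sb, hζ]
      congr 1
      simp only [Am1_add, Am1_sb, Matrix.map_mul (f := mL ρ), CmC_ex, Matrix.mul_sub, Matrix.mul_add,
        Matrix.mul_assoc]
      rw [← Matrix.mul_assoc ((Y.Ψ b).map _) ((Y.Ψ' b).map _), CmC_inv H h, Matrix.one_mul, sub_sub]
    have o := Oz.mul (x := 0) (y := 0)
      (fun i j a ha => zero_dvd_iff.1 (U0 i j a (by simpa using ha)))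
      (N := (S b - (Y.Ψ' b * Z.map (ex b) * Y.Ψ b + ζ b)).map (mL ρ)) fun i j a ha => by
        rw [map_apply, coeff_mL, Matrix.sub_apply, HahnSeries.coeff_sub, hS]
        split_ifs with k
        · rw [sub_self, map_zero]
        · rw [zero_sub, map_neg, neg_eq_zero]
          by_contra l
          refine k ⟨ha, (hz b _ hZ i j a ha ?_).1⟩
          rwa [← CmC_ex, ← Matrix.map_mul, ← Matrix.map_mul, ← Am1_add]
    rw [← e] at o
    exact o i j a (by simpa using ha)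

theorem Cmp3.abs (H : Loc s ρ) (h : Cmp3 s ρ X K P Y) : Abs3 s X.l X.Cm K P (St3 s X K Y) :=
  ⟨h.base, fun _ _ S => h.red H S, fun _ _ S => h.toPre3.sol S,
    fun _ _ _ S h1 h2 => h.step H S h1 h2, fun _ _ c S => S.scale c⟩

end Pool.Agent.Lib.MP_815ef6_nt.Ch
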