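import Pool.Agent.Lib.MP_815ef6_nt.CT.CmD
import Pool.Agent.Lib.MP_815ef6_nt.CS.Glu

/-! Gluing along a graph. -/

namespace Pool.Agent.Lib.MP_815ef6_nt.Ch
open Finset LaurentPolynomial Matrix

variable {B : Type*} [CommRing B] {ι : Type*} [Fintype ι] [DecidableEq ι] {s : B} {V : Type*}

theorem Glu_tri (N : V × En → V × En → Prop) (x : V × En) :
    (∃ y, N x y) ∨ (∃ y, N y x) ∨ ∀ y, ¬ N x y ∧ ¬ N y x := by
  by_contra! H
  obtain ⟨y, hy⟩ := H.2.2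
  exact H.2.1 y (hy (H.1 y))

theorem Glu_ex {α : Type*} {N : V × En → V × En → Prop} (hN : Nod N) (f g : ∀ x y, N x y → α)
    (u : ∀ x, (∀ y, ¬ N x y ∧ ¬ N y x) → α) : ∃ W : V → En → α,
      (∀ x y h, W x.1 x.2 = f x y h ∧ W y.1 y.2 = g x y h) ∧ ∀ x h, W x.1 x.2 = u x h := by
  classical
  refine ⟨fun j e => if h : ∃ y, N (j, e) y then f _ _ h.choose_spec else
    if h' : ∃ y, N y (j, e) then g _ _ h'.choose_spec else
      u _ fun y => ⟨fun l => h ⟨y, l⟩, fun l => h' ⟨y, l⟩⟩, fun x y h => ⟨?_, ?_⟩, fun x h => ?_⟩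
  · have k : ∀ y' h', f x y' h' = f x y h := fun y' h' => by
      obtain rfl := hN.u0 _ _ _ h h'
      rfl
    exact (dif_pos ⟨y, h⟩).trans (k _ _)
  · have k : ∀ x' h', g x' y h' = g x y h := fun x' h' => by
      obtain rfl := hN.u1 _ _ _ h h'
      rfl
    refine (dif_neg fun ⟨z, hz⟩ => ?_).trans ((dif_pos ⟨x, h⟩).trans (k _ _))
    exact Bool.false_ne_true ((hN.sd0 _ _ hz).symm.trans (hN.sd1 _ _ h))
  · exact (dif_neg fun ⟨y, l⟩ => (h y).1 l).trans (dif_neg fun ⟨y, l⟩ => (h y).2 l)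

theorem Gr3.glue {N : V × En → V × En → Prop} {l : V → En → B[T;T⁻¹]}
    {Cm : V → En → Matrix ι ι B[T;T⁻¹]} {K : V → En → ι → B} {P : V → En → Matrix ι ι B}
    (h : Gr3 s N l Cm K P) {S : V → ℕ → (En → Matrix ι ι (Ls B)) → Prop}
    (hS : ∀ j, Abs3 s (l j) (Cm j) (K j) (P j) (S j)) (m : ℕ) :
    ∃ U : V → En → Matrix ι ι (Ls B), ∀ j, S j (m + 1) (U j) := by
  choose τ tau nl nC using h.nd
  suffices H : ∃ U : V → En → Matrix ι ι (Ls B), (∀ j, S j (m + 1) (U j)) ∧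
      (∀ x y hn, Nm (s ^ (m + 1)) (τ x y hn) (U x.1 x.2) (U y.1 y.2)) ∧
      ∀ x : V × En, (∀ y, ¬ N x y ∧ ¬ N y x) → Od (s ^ (m + 1)) 0 (U x.1 x.2) from
    let ⟨U, hU, _⟩ := H; ⟨U, hU⟩
  have hdf : ∀ c x y hn U W, Nm c (τ x y hn) U W → Nm c (τ x y hn)
      (df false (l x.1 x.2) (Cm x.1 x.2) (K y.1 y.2) U)
      (df true (l y.1 y.2) (Cm y.1 y.2) (K y.1 y.2) W) := fun c x y hn U W =>
    glu_df (fun _ _ => gluN.dS) (glu_nd (nl x y hn)) fun i i' => glu_nd (nC x y hn i i')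
  induction m with
  | zero =>
    choose U hU using fun j => (hS j).base
    have R := fun j => (hS j).red 0 _ (hU j)
    simp only [zero_add, pow_one]
    refine ⟨U, hU, fun x y hn i i' k => ?_, fun _ _ => (R _ _).1⟩
    rcases k.eq_zero_or_pos with rfl | l
    · have z := ((R x.1 x.2).2 i i').sub ((R y.1 y.2).2 i i')
      rw [h.hP x y hn] at z
      simp only [Matrix.sub_apply, c0, sub_sub_sub_cancel_right] at z
      simpa using And.intro z (dvd_sub_comm.1 z)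
    · exact ⟨(glu_od.1 (R _ _).1 i i' _ (by omega)).sub ((dvd_pow (tau x y hn) l.ne').mul_right _),
        (glu_od.1 (R _ _).1 i i' _ (by omega)).sub ((dvd_pow (tau x y hn) l.ne').mul_right _)⟩
  | succ m ih =>
    obtain ⟨U, hU, hN, o0⟩ := ih
    obtain ⟨W, v1, v2, v3⟩ : ∃ W : V → En → Matrix ι ι (Ls B),
        (∀ j e, Dd (cS s ^ (m + 1)) (W j e - U j e)) ∧
        (∀ x y hn, Nm (s ^ (m + 2)) (τ x y hn) (W x.1 x.2) (W y.1 y.2)) ∧
        ∀ x : V × En, (∀ y, ¬ N x y ∧ ¬ N y x) → Od (s ^ (m + 2)) 0 (W x.1 x.2) := by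
      choose Vf Vt x1 x2 x3 using fun x y hn i i' => glu_lift (tau x y hn) (hN x y hn i i')
      choose V0 _ y1 _ y3 using fun x hx i i' =>
        glu_lift (dvd_zero s) (glu_self (glu_od.1 (o0 x hx) i i'))
      obtain ⟨W, q1, q2⟩ := Glu_ex h.nod (fun x y hn => of (Vf x y hn))
        (fun x y hn => of (Vt x y hn)) fun x hx => of (V0 x hx)
      refine ⟨W, fun j e => ?_, fun x y hn => ?_,
        fun x hx => q2 x hx ▸ glu_od.2 fun i i' => glu_neg (y3 x hx i i')⟩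
      · rcases Glu_tri N (j, e) with ⟨y, hn⟩ | ⟨y, hn⟩ | hx
        · exact (q1 _ _ hn).1 ▸ glu_dd.2 (x1 _ _ hn)
        · exact (q1 _ _ hn).2 ▸ glu_dd.2 (x2 _ _ hn)
        · exact q2 _ hx ▸ glu_dd.2 (y1 _ hx)
      · rw [(q1 x y hn).1, (q1 x y hn).2]
        exact x3 x y hn
    have w1 := fun j e => glu_dd.1 (glu_cong (v1 j e) ((hS j).sol _ _ (hU j) e))
    have w2 : ∀ j e, Od (s ^ (m + 2)) 0 (df (sd e) (l j e) (Cm j e) (K j e) (W j e)) :=
      fun j e => by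
      rcases Glu_tri N (j, e) with ⟨y, hn⟩ | ⟨y, hn⟩ | hx
      · rw [show sd e = false from h.nod.sd0 _ _ hn, show K j e = _ from h.hK _ _ hn]
        exact glu_od.2 fun i i' => glu_pol (tau _ _ hn) (hdf _ _ _ hn _ _ (v2 _ _ hn) i i')
          (h.nod.sd1 _ _ hn ▸ w1 y.1 y.2 i i')
      · rw [show sd e = true from h.nod.sd1 _ _ hn]
        exact glu_od.2 fun i i' => glu_pol (tau _ _ hn)
          (gluN.symm (hdf _ _ _ hn _ _ (v2 _ _ hn) i i'))
          (h.nod.sd0 _ _ hn ▸ h.hK _ _ hn ▸ w1 y.1 y.2 i i')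
      · exact glu_end (h.e0 _ hx) (v3 _ hx)
    choose U' u1 u2 using fun j => (hS j).step m _ (W j) (hU j) (v1 j) (w2 j)
    have R := fun j => (hS j).red _ _ (u1 j)
    choose c hc using fun x y hn => glu_node h.reg (tau x y hn) (hdf _ x y hn) (v2 x y hn)
      (u2 x.1 x.2).1 (u2 x.1 x.2).2 (u2 y.1 y.2).1 (u2 y.1 y.2).2
      (h.nod.sd0 x y hn ▸ h.hK x y hn ▸ (hS x.1).sol _ _ (u1 _) x.2)
      (h.nod.sd1 x y hn ▸ (hS y.1).sol _ _ (u1 _) y.2)
      (R y.1 y.2).1 (R y.1 y.2).2 (h.re y.1 y.2).one (h.pp y.1 y.2) (h.sep y.1 y.2) (h.eig y.1 y.2)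
    obtain ⟨d, q1, q2⟩ := Glu_ex h.nod (fun _ _ _ => 0) c fun _ _ => 0
    have e : (diagonal fun i => cS (1 + s * (0 : ι → B) i)) = 1 := by simp
    refine ⟨fun j b => U' j b * diagonal fun i => cS (1 + s * d j b i),
      fun j => (hS j).scale (m + 1) (U' j) (d j) (u1 j), fun x y hn => ?_, fun x hx => ?_⟩ <;>
      beta_reduce
    · rw [(q1 x y hn).1, (q1 x y hn).2, e, mul_one]
      exact hc x y hn
    · rw [q2 x hx, e, mul_one]
      exact fun i i' a ha => by simpa using ((u2 x.1 x.2).2 i i' a ha).add (v3 x hx i i' a ha)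

end Pool.Agent.Lib.MP_815ef6_nt.Ch
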