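import Pool.Agent.Lib.MP_815ef6_nt.CT.As4
import Pool.Agent.Lib.MP_815ef6_nt.CT.CmC
import Pool.Agent.Lib.MP_815ef6_nt.CT.Glu

/-! The graph over large finitely generated rings. -/

namespace Pool.Agent.Lib.MP_815ef6_nt.Ch
open Finset LaurentPolynomial Matrix Filter

variable {O : Subring ℂ} {t : ℂ}

theorem ev_graph (H : Frame O t) {s : O} (hp : Prime s) (hs : s ∣ ⟨t, H.mem⟩) {ρ : O →+* ℂ}
    (hρ : ∀ x, ρ x = 0 ↔ s ∣ x) {F : Finset ℂ} (hF : ∀ x ∈ F, ∃ e : ℕ, t ^ e * x ∈ O) {p₀ : ℕ}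
    {V : Type*} [Finite V] {X : V → PD3 O (Fin 2)} (h : ∀ j, PrO3 s (X j) F p₀)
    {κ : V → En → Fin 2 → ℚ} {P P' : V → En → Matrix (Fin 2) (Fin 2) ℚ}
    (eg : ∀ j, Eg3 ρ (X j).Cm (κ j) (P j) (P' j)) (inj : ∀ j e, Function.Injective (κ j e))
    {N : V × En → V × En → Prop} (nod : Nod N)
    (nd : ∀ x y, N x y → ∃ τ : O, s ∣ τ ∧ Nd ⊥ τ (cf ((X x.1).l x.2)) (cf ((X y.1).l y.2)) ∧
      ∀ i i', Nd ⊥ τ (cf ((X x.1).Cm x.2 i i')) (cf ((X y.1).Cm y.2 i i')))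
    (hK : ∀ x y, N x y → κ x.1 x.2 = κ y.1 y.2) (hP : ∀ x y, N x y → P x.1 x.2 = P y.1 y.2)
    (e0 : ∀ x, (∀ y, ¬ N x y ∧ ¬ N y x) → Re 0 (sd x.2) ((X x.1).l x.2) ((X x.1).Cm x.2))
    (j : V) (e : En) : ∀ᶠ T in fG O t, ∀ (E m : ℕ) i i' a, ∃ y ∈ cl T, ∃ z ∈ cl T,
      ((Am th ((X j).l e) ((X j).Cm e) m i i').coeff a : ℂ) = m.factorial * y + s ^ E * z := by
  classical
  have nd' : ∀ x y, ∃ τ : O, N x y → s ∣ τ ∧
      Nd ⊥ τ (cf ((X x.1).l x.2)) (cf ((X y.1).l y.2)) ∧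
      ∀ i i', Nd ⊥ τ (cf ((X x.1).Cm x.2 i i')) (cf ((X y.1).Cm y.2 i i')) := fun x y => by
    by_cases k : N x y
    · exact (nd x y k).imp fun _ l _ => l
    · exact ⟨0, fun l => (k l).elim⟩
  choose τ hτ using nd'
  filter_upwards [H.ev_loc hs hρ, eventually_all.2 fun j => ev_cmp3 H hp hs hρ hF (h j) (eg j),
    as5_ev H fun x : _ × _ × _ => κ x.1 x.2.1 x.2.2,
    as5_ev H fun x : _ × _ × _ × _ => P x.1 x.2.1 x.2.2.1 x.2.2.2,
    as5_ev H fun x : _ × _ × _ × _ => P' x.1 x.2.1 x.2.2.1 x.2.2.2,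
    as5_ev H fun x : _ × _ × _ × _ => (κ x.1 x.2.1 x.2.2.1 - κ x.1 x.2.1 x.2.2.2)⁻¹,
    as5_ev H fun i => ((κ j e i).den : ℚ)⁻¹,
    eventually_all.2 fun x : (V × En) × V × En => ev_in (τ x.1 x.2).2]
    with T ⟨hle, hT, L⟩ hc h1 h2 h3 h4 h5 h6 E m i i' a
  let K : V → En → Fin 2 → cl T := fun j b i => ⟨κ j b i, h1 (j, b, i)⟩
  let Q : V → En → Matrix (Fin 2) (Fin 2) (cl T) := fun j b =>
    Matrix.of fun i i' => ⟨P j b i i', h2 (j, b, i, i')⟩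
  have pp : ∀ j b, IsUnit (Q j b) := fun j b => as5_unit ((eg j).inv b) (fun _ _ => rfl)
    (Q' := Matrix.of fun i i' => ⟨P' j b i i', h3 (j, b, i, i')⟩) fun _ _ => rfl
  choose X' Y hX hY using fun j => hc j hle hT L (K j) (fun _ _ => rfl) (Q j) (fun _ _ _ => rfl)
    (pp j)
  have hi : Function.Injective (Subring.inclusion hle) := Subring.inclusion_injective hle
  have hl : ∀ j b, mp (Subring.inclusion hle) ((X' j).l b) = (X j).l b := fun j b => by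
    rw [← hX j]; rfl
  have hC : ∀ j b, ((X' j).Cm b).map (mp (Subring.inclusion hle)) = (X j).Cm b := fun j b => by
    rw [← hX j]; rfl
  have hC' : ∀ j b i i', mp (Subring.inclusion hle) ((X' j).Cm b i i') = (X j).Cm b i i' :=
    fun j b i i' => by rw [← hC j b]; rfl
  have ch : Gr3 (⟨s, hT⟩ : cl T) N (fun j => (X' j).l) (fun j => (X' j).Cm) K Q := by
    refine ⟨nod, L.reg, fun x y n => ⟨⟨τ x y, h6 (x, y)⟩, (L.ker _).1 ((hρ _).2 (hτ x y n).1),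
      as5_nd hi ?_, fun i i' => as5_nd hi ?_⟩, fun x y n => funext fun i => Subtype.ext ?_,
      fun x y n => Matrix.ext fun i i' => Subtype.ext ?_, fun x n => as5_re hi ?_,
      fun j => (hY j).re, fun j b i i' n => ?_, pp, fun j b i i' => (L.ker _).1 ?_⟩
    · rw [hl, hl]
      exact (hτ x y n).2.1
    · rw [hC', hC']
      exact (hτ x y n).2.2 i i'
    · exact congrArg (fun x : Fin 2 → ℚ => (x i : ℂ)) (hK x y n)
    · exact congrArg (fun x : Matrix (Fin 2) (Fin 2) ℚ => (x i i' : ℂ)) (hP x y n)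
    · rw [hl, hC]
      exact e0 x n
    · have n0 : (κ j b i : ℂ) - κ j b i' ≠ 0 :=
        sub_ne_zero.2 fun k => n (inj j b (Rat.cast_injective k))
      exact IsUnit.of_mul_eq_one ⟨_, h4 (j, b, i, i')⟩ (Subtype.ext (by simp [K, n0]))
    · have k := congrFun (congrFun ((eg j).eig b) i) i'
      have k1 : ∀ l l', ρ.comp (Subring.inclusion hle) (Q j b l l') = P j b l l' :=
        fun l l' => rho_rat _ rfl
      have k2 : ρ.comp (Subring.inclusion hle) (K j b i') = κ j b i' := rho_rat _ rfl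
      have k3 : ∀ l, ρ.comp (Subring.inclusion hle) (((X' j).Cm b i l).coeff 0) =
          ρ (((X j).Cm b i l).coeff 0) := fun l => by rw [← hC', coeff_mp]; rfl
      rw [mul_diagonal, Matrix.mul_apply] at k
      rw [Matrix.sub_apply, mul_diagonal, Matrix.mul_apply, map_sub, map_sum, map_mul, k1, k2,
        sub_eq_zero]
      simp only [map_mul, Matrix.map_apply, k1, k3] at k ⊢
      exact k
  obtain ⟨U, hU⟩ := ch.glue (fun j => (hY j).abs L) E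
  obtain ⟨r1, r2⟩ := ((hY j).abs L).red E _ (hU j) e
  obtain ⟨y, z, hy⟩ := fin_am (pp j e) r1 r2 (((hY j).abs L).sol _ _ (hU j) e)
    (fun m i => as5_fact rfl (h5 i) m) m i i' a
  refine ⟨y, y.2, s * z, mul_mem hT z.2, ?_⟩
  rw [← hl, ← hC, ← Am_map _ (mp_th _), Matrix.map_apply, coeff_mp, hy]
  simp [pow_succ, mul_assoc]

end Pool.Agent.Lib.MP_815ef6_nt.Ch
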