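import Pool.Agent.Lib.MP_815ef6_nt.CT.Trl

/-! The scalar equation of a system of rank two. -/

namespace Pool.Agent.Lib.MP_815ef6_nt.Ch
open Finset Polynomial Matrix

theorem bas_ms (s : Multiset ℂ) : ∃ (M : ℕ) (β : Fin M → ℂ),
    (s.map fun x => X - C x).prod = ∏ l, (X - C (β l)) := by
  induction s using Multiset.induction_on with
  | empty => exact ⟨0, Fin.elim0, by simp⟩
  | cons x s ih =>
    obtain ⟨M, β, k⟩ := ih
    refine ⟨M + 1, Fin.cons x β, ?_⟩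
    rw [Multiset.map_cons, Multiset.prod_cons, k, Fin.prod_univ_succ]
    rfl

theorem bas_fac {Q : ℂ[X]} (hQ : Q ≠ 0) : ∃ (c : ℂ) (M : ℕ) (β : Fin M → ℂ), c ≠ 0 ∧
    Q = C c * ∏ l, (X - C (β l)) := by
  obtain ⟨M, β, k⟩ := bas_ms Q.roots
  exact ⟨_, M, β, leadingCoeff_ne_zero.2 hQ, by
    rw [← k, C_leadingCoeff_mul_prod_multiset_X_sub_C IsAlgClosed.card_roots_eq_natDegree]⟩

theorem bas_den (A : Matrix (Fin 2) (Fin 2) (RatFunc ℂ)) :
    ∃ (qo : ℂ[X]) (Ao : Matrix (Fin 2) (Fin 2) ℂ[X]), qo.Monic ∧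
      (∀ y, qo.eval y = 0 → ∃ i j, (A i j).denom.eval y = 0) ∧ Ao.map am = am qo • A := by
  have h : ∀ j k, ∃ w, am w = am (∏ p : Fin 2 × Fin 2, (A p.1 p.2).denom) * A j k := fun j k => by
    obtain ⟨c, hc⟩ := dvd_prod_of_mem (fun p : Fin 2 × Fin 2 => (A p.1 p.2).denom) (mem_univ (j, k))
    exact ⟨c * (A j k).num, by rw [hc, map_mul, map_mul, ← mul_denom]; ring⟩
  choose w hw using h
  refine ⟨_, Matrix.of w, monic_prod_of_monic _ _ fun p _ => RatFunc.monic_denom _, fun y e => ?_,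
    Matrix.ext fun j k => hw j k⟩
  rw [eval_prod, prod_eq_zero_iff] at e
  exact e.elim fun p l => ⟨p.1, p.2, l.2⟩

/-- The system of the equation `Δ u'' + Q 1 u' + Q 0 u = 0`. -/
noncomputable def basM (Δ : ℂ[X]) (Q : Fin 2 → ℂ[X]) : Matrix (Fin 2) (Fin 2) (RatFunc ℂ) :=
  !![0, 1; -am (Q 0) / am Δ, -am (Q 1) / am Δ]

theorem bas_mul {c : ℂ[X]} (hc : c ≠ 0) (D : ℂ[X]) (P : Fin 2 → ℂ[X]) :
    basM (c * D) (fun k => c * P k) = basM D P := by
  simp only [basM, map_mul, ← mul_neg, mul_div_mul_left _ _ (am_ne hc)]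

theorem bas_la (p : ℂ) (Δ : ℂ[X]) (Q : Fin 2 → ℂ[X]) :
    (basM Δ Q).map (RatFunc.laurent p) = basM (taylor p Δ) fun i => taylor p (Q i) := by
  ext i j : 1
  fin_cases i <;> fin_cases j <;> simp [basM, neg_div]

theorem bas_cM {Δ : ℂ[X]} (hΔ : Δ ≠ 0) (Q : Fin 2 → ℂ[X]) :
    (cM 1 (Lz Δ Q)).map am = am Δ • basM Δ Q := by
  have := am_ne hΔ
  ext i j : 1
  fin_cases i <;> fin_cases j <;> simp [basM, cM, Lz] <;> field_simp

/-- The gauge transformation to the form with `z d/dz`. -/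
noncomputable def basG (x : RatFunc ℂ) : Matrix (Fin 2) (Fin 2) (RatFunc ℂ) := !![1, 0; 0, x]

theorem bas_GH : basG (am X)⁻¹ * basG (am X) = 1 := by
  ext i j : 1
  fin_cases i <;> fin_cases j <;> simp [basG, Matrix.mul_apply, RatFunc.X_ne_zero]

theorem bas_g {Δ : ℂ[X]} (hΔ : Δ ≠ 0) (Q : Fin 2 → ℂ[X]) :
    basG (am X) * basM Δ Q * basG (am X)⁻¹ - basG (am X) * (basG (am X)⁻¹).map rder =
      compM Δ ![X ^ 2 * Q 0, X * Q 1 - Δ] := by
  have h0 := am_ne hΔ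
  have h1 : am (X : ℂ[X]) ≠ 0 := am_ne X_ne_zero
  have r0 : rder (0 : RatFunc ℂ) = 0 := by simpa using rder_am (0 : ℂ[X])
  have r1 : rder (1 : RatFunc ℂ) = 0 := by simpa using rder_am (1 : ℂ[X])
  have r2 : am X * rder (am (X : ℂ[X]))⁻¹ = -(am X)⁻¹ := by
    have := rder_mul (am (X : ℂ[X])) (am X)⁻¹
    rw [mul_inv_cancel₀ h1, r1, rder_am, derivative_X, map_one, mul_one] at this
    linear_combination -this
  have e : (RatFunc.X : RatFunc ℂ) = am X := RatFunc.algebraMap_X.symm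
  have e1 : (basG (am X)⁻¹).map rder = !![0, 0; 0, rder (am (X : ℂ[X]))⁻¹] := by
    ext i j : 1
    fin_cases i <;> fin_cases j
    exacts [r1, r0, r0, rfl]
  have e2 : compM Δ ![X ^ 2 * Q 0, X * Q 1 - Δ] = !![0 / RatFunc.X, 1 / RatFunc.X;
      -am (X ^ 2 * Q 0) / am Δ / RatFunc.X, -am (X * Q 1 - Δ) / am Δ / RatFunc.X] := by
    ext i j : 1
    fin_cases i <;> fin_cases j <;> rfl
  rw [e1, e2, e, basG, basG, basM, mul_fin_two, mul_fin_two, mul_fin_two, r2, map_sub, map_mul,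
    map_mul, map_pow]
  generalize am (X : ℂ[X]) = x at h1
  generalize am Δ = d at h0
  generalize am (Q 0) = a
  generalize am (Q 1) = b
  ext i j : 1
  fin_cases i <;> fin_cases j <;> simp <;> field_simp
  ring

theorem bas_rel {A B H : Matrix (Fin 2) (Fin 2) (RatFunc ℂ)} (e4 : B * H = H * A + H.map rder)
    {qo no Δ : ℂ[X]} {Ao Wo Cm : Matrix (Fin 2) (Fin 2) ℂ[X]} (e3 : Ao.map am = am qo • A)
    (hW : Wo.map am = am no • H) (e2 : Cm.map am = am Δ • B) :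
    Rel derivative qo Ao Δ Cm no Wo := by
  have e1 : (Wo.map derivative).map am = rder (am no) • H + am no • H.map rder := by
    ext j k : 1
    have := congrFun (congrFun hW j) k
    simp only [Matrix.map_apply, Matrix.smul_apply, Matrix.add_apply, smul_eq_mul] at this ⊢
    rw [← rder_am, this, rder_mul]
    ring
  have sm : ∀ (c : ℂ[X]) (B : Matrix (Fin 2) (Fin 2) ℂ[X]),
      (c • B).map am = am c • B.map am := fun c B => Matrix.map_smul' _ _ _ (map_mul am)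
  have sb : ∀ B B' : Matrix (Fin 2) (Fin 2) ℂ[X],
      (B - B').map am = B.map am - B'.map am := fun B B' => Matrix.map_sub _ (map_sub am) _ _
  refine Matrix.map_injective (f := am) (fun _ _ => am_inj) ?_
  simp only [sm, sb, Matrix.map_mul, e1, e2, e3, hW, ← rder_am, map_mul, Matrix.smul_mul,
    Matrix.mul_smul, e4]
  ext j k : 1
  simp only [Matrix.smul_apply, Matrix.add_apply, Matrix.sub_apply, smul_eq_mul]
  ring

theorem bas_iff {A G H B : Matrix (Fin 2) (Fin 2) (RatFunc ℂ)} (hG : G * H = 1)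
    (e : H * A * G - H * G.map rder = B) : (Dormant A ↔ Dormant B) ∧ (Bd A ↔ Bd B) := by
  subst e
  exact ⟨⟨dorm_gauge hG, fun h => gauge_inv (A := A) hG ▸ dorm_gauge (mul_eq_one_comm.1 hG) h⟩,
    bd_gauge hG, fun h => gauge_inv (A := A) hG ▸ bd_gauge (mul_eq_one_comm.1 hG) h⟩

theorem base3 {A : Matrix (Fin 2) (Fin 2) (RatFunc ℂ)} (h : Dormant A) :
    ∃ (M : ℕ) (β : Fin M → ℂ) (Q : Fin 2 → ℂ[X]) (qo no : ℂ[X])
      (Ao Wo : Matrix (Fin 2) (Fin 2) ℂ[X]), qo.Monic ∧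
      (∀ y, qo.eval y = 0 → ∃ i j, (A i j).denom.eval y = 0) ∧ no ≠ 0 ∧ Wo.det ≠ 0 ∧
      (∀ y, (qo * (no * Wo.det)).eval y = 0 → ∃ l, β l = y) ∧
      Rel derivative qo Ao (∏ l, (X - C (β l))) (cM 1 (Lz (∏ l, (X - C (β l))) Q)) no Wo ∧
      ∀ p, Dormant (compM (taylor p (∏ l, (X - C (β l)))) (Pp (∏ l, (X - C (β l))) Q p)) ∧
        (Bd (compM (taylor p (∏ l, (X - C (β l)))) (Pp (∏ l, (X - C (β l))) Q p)) → Bd A) := by
  obtain ⟨G, H, D, P, hG, hD, e⟩ := cyc A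
  obtain ⟨qo, Ao, hq, rq, hA⟩ := bas_den A
  obtain ⟨no, Wo, hn, hW⟩ := cyc2_den (basG (am X)⁻¹ * H)
  have hd : Wo.det ≠ 0 := fun k => by
    have k1 := RingHom.map_det am Wo
    rw [k, map_zero, RingHom.mapMatrix_apply, hW, det_smul] at k1
    have k2 : G * basG (am X) * (basG (am X)⁻¹ * H) = 1 := by
      rw [Matrix.mul_assoc, ← Matrix.mul_assoc _ _ H, mul_eq_one_comm.1 bas_GH, Matrix.one_mul, hG]
    have k3 := congrArg det k2
    rw [det_mul, det_one, (mul_eq_zero.1 k1.symm).resolve_left (pow_ne_zero _ (am_ne hn)),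
      mul_zero] at k3
    exact zero_ne_one k3
  have hE : qo * (no * Wo.det) ≠ 0 := mul_ne_zero hq.ne_zero (mul_ne_zero hn hd)
  have hX : (X ^ 2 : ℂ[X]) ≠ 0 := pow_ne_zero _ X_ne_zero
  obtain ⟨c, M, β, hc, hQ⟩ := bas_fac (mul_ne_zero hE (mul_ne_zero hX hD))
  have rt : ∀ y, (qo * (no * Wo.det)).eval y = 0 → ∃ l, β l = y := fun y k => by
    have k1 := congrArg (eval y) hQ
    rw [eval_mul, k, zero_mul, eval_mul, eval_C, eval_prod] at k1
    obtain ⟨l, -, k2⟩ := prod_eq_zero_iff.1 ((mul_eq_zero.1 k1.symm).resolve_left hc)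
    rw [eval_sub, eval_X, eval_C] at k2
    exact ⟨l, (sub_eq_zero.1 k2).symm⟩
  have h0 : (∏ l, (X - C (β l)) : ℂ[X]) ≠ 0 := prod_ne_zero_iff.2 fun l _ => X_sub_C_ne_zero _
  refine ⟨M, β, fun k => C c⁻¹ * (qo * (no * Wo.det) * ![P 0, X * (P 1 + D)] k), qo, no, Ao, Wo,
    hq, rq, hn, hd, rt, ?_⟩
  generalize (∏ l, (X - C (β l)) : ℂ[X]) = Δ at hQ h0 ⊢
  generalize qo * (no * Wo.det) = E at hE hQ
  have e1 : basM Δ (fun k => C c⁻¹ * (E * ![P 0, X * (P 1 + D)] k)) =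
      basM (X ^ 2 * D) ![P 0, X * (P 1 + D)] := by
    rw [← bas_mul hE (X ^ 2 * D), hQ, ← bas_mul (C_ne_zero.2 (inv_ne_zero hc)) (C c * _),
      ← mul_assoc (C _), ← map_mul, inv_mul_cancel₀ hc, map_one, one_mul]
  generalize (fun k => C c⁻¹ * (E * ![P 0, X * (P 1 + D)] k)) = Q at e1
  have e2 := bas_g (mul_ne_zero hX hD) ![P 0, X * (P 1 + D)]
  rw [← e1, show ![X ^ 2 * ![P 0, X * (P 1 + D)] 0, X * ![P 0, X * (P 1 + D)] 1 - X ^ 2 * D] =
    fun k => X ^ 2 * P k from funext (Fin.forall_fin_two.2 ⟨rfl, by simp; ring⟩),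
    cyc2_mul hX] at e2
  have i1 := bas_iff hG e
  have i2 := bas_iff bas_GH e2
  refine ⟨bas_rel ?_ hA hW (bas_cM h0 Q), fun p => ?_⟩
  · have k0 := ga_mder G H
    rw [hG, ga_one] at k0
    have k1 : compM D P * H = H * A + H.map rder := by
      have k : (H * A * G - H * G.map rder) * H = H * A * (G * H) + H * G * H.map rder -
          H * (G.map rder * H + G * H.map rder) := by noncomm_ring
      rw [← e, k, ← k0, hG, mul_eq_one_comm.1 hG, mul_one, one_mul, mul_zero, sub_zero]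
    have k2 : basM Δ Q * basG (am X)⁻¹ = basG (am X)⁻¹ * compM D P + (basG (am X)⁻¹).map rder := by
      rw [← e2, Matrix.mul_sub, ← Matrix.mul_assoc, ← Matrix.mul_assoc, ← Matrix.mul_assoc, bas_GH,
        Matrix.one_mul, Matrix.one_mul, sub_add_cancel]
    rw [← Matrix.mul_assoc, k2, ga_mder, Matrix.add_mul, Matrix.mul_assoc, k1]
    noncomm_ring
  · have i3 := bas_iff bas_GH (bas_g ((taylor_injective p).ne_iff' (map_zero _) |>.2 h0)
      fun i => taylor p (Q i))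
    rw [← bas_la] at i3
    refine ⟨i3.1.1 (dorm_laurent (i2.1.2 (i1.1.1 h)) p), fun k => i1.2.2 (i2.2.1 ?_)⟩
    have k1 := bd_laurent (i3.2.2 k) (-p)
    convert k1 using 1
    ext i j : 1
    rw [Matrix.map_apply, Matrix.map_apply, RatFunc.laurent_laurent, neg_add_cancel,
      RatFunc.laurent_at_zero]

end Pool.Agent.Lib.MP_815ef6_nt.Ch
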