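import Pool.Agent.Lib.MP_815ef6_nt.CT.MD3

/-! The classification of the systems of rank two with three singular points. -/

namespace Pool.Agent.Lib.MP_815ef6_nt.Ch
open Finset LaurentPolynomial Matrix

variable {k : Type} [Field k]

section
variable {R : Type*} [CommRing R] {ι : Type*} [Fintype ι] [DecidableEq ι]

theorem cls_sol (e : En) {A A' G G' : Matrix ι ι (Lm R)} (h : gf tl 1 A A' G = 0)
    (i : G * G' = 1) {K : ι → R} {Ψ : Matrix ι ι (Ls R)}
    (hΨ : dfe e A K (G.map (ex e) * Ψ) = 0) : dfe e A' K Ψ = 0 := by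
  rw [dfe_gauge e (A' := A'), h, smul_zero, Matrix.map_zero _ (map_zero _), Matrix.zero_mul,
    zero_add] at hΨ
  exact kpk_cancel ((IsUnit.of_mul_eq_one _ i).map (ex e).mapMatrix) hΨ

theorem cls_res {N : Matrix ι ι (Lm R)} {K : ι → R} {V V' : Matrix ι ι (Ls R)} (oV : Od 0 0 V)
    (oV' : Od 0 0 V') (i : V * V' = 1) (h : dfe none N K V' = 0) :
    ∃ M : Matrix ι ι R[T;T⁻¹], M.map jo = (ro none : Lm R) • N ∧
      M.map ev1 = c0 V' * diagonal K * c0 V := by
  have e : ((ro none : Lm R) • N).map (ex none) =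
      V'.map (dS true) * V + V' * (diagonal fun i => cS (K i)) * V := by
    rw [dfe, gf, one_smul, sub_add_eq_add_sub, sub_eq_zero] at h
    rw [← Matrix.add_mul]
    refine Eq.trans ?_ (congrArg (· * V) h.symm)
    rw [Matrix.mul_assoc, mul_eq_one_comm.1 i, Matrix.mul_one]
  have o1 : Od 0 0 (V'.map (dS true)) := nrm_od.2 fun i j a l => by
    rw [Matrix.map_apply, coeff_dS, nrm_od.1 oV' i j a l, mul_zero]
  have z1 : c0 (V'.map (dS true)) = 0 := by
    ext i j
    simp [c0]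
  have m1 := nrm_mul o1 oV
  have m2 := nrm_mul oV' (nrm_diag K).1
  have m3 := nrm_mul m2.1 oV
  have H : ∀ i j, ∃ g, jo g = ((ro none : Lm R) • N) i j := fun i j => reg1 fun a l => by
    have := congrArg (fun f : Ls R => f.coeff a) (congrFun (congrFun e i) j)
    simp only [Matrix.add_apply, HahnSeries.coeff_add, nrm_od.1 m1.1 i j a l,
      nrm_od.1 m3.1 i j a l, add_zero] at this
    exact this
  choose M hM using H
  refine ⟨of M, Matrix.ext hM, Matrix.ext fun i j => ?_⟩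
  have := congrArg (fun f : Ls R => f.coeff 0) (congrFun (congrFun e i) j)
  rw [Matrix.map_apply, ← hM, (ex_none_jo _).2] at this
  refine this.trans ?_
  rw [← (nrm_diag K).2, ← m2.2, ← m3.2, Matrix.add_apply, HahnSeries.coeff_add]
  have z2 := congrFun (congrFun m1.2 i) j
  rw [z1, Matrix.zero_mul] at z2
  exact (congrArg (· + _) z2).trans (zero_add _)

omit [Fintype ι] in
theorem cls_tw (A : Matrix ι ι (Lm R)) (c : R) :
    A - (cL c * jo (T 1) * iv : Lm R) • (1 : Matrix ι ι (Lm R)) -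
      (cL (-c) * jo (T 1) * iv : Lm R) • (1 : Matrix ι ι (Lm R)) = A := by
  rw [map_neg, neg_mul, neg_mul, neg_smul, sub_neg_eq_add, sub_add_cancel]

theorem cls_up {A A' g : Matrix ι ι R[T;T⁻¹]} (h : gf th (1 - T 1) A A' g = 0) (s : Lm R) :
    gf tl 1 ((iv : Lm R) • A.map jo - s • (1 : Matrix ι ι (Lm R)))
      ((iv : Lm R) • A'.map jo - s • (1 : Matrix ι ι (Lm R))) (g.map jo) = 0 := by
  have h1 := gf_map (d := th) (d' := tl) (q := 1 - T 1) (A := A) (A' := A') (G := g) jo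
    fun x => (tl_jo x).symm
  rw [h, Matrix.map_zero _ (map_zero _), gf] at h1
  have h2 := congrArg (fun M => (iv : Lm R) • M) h1
  simp only [smul_zero, smul_add, smul_sub, smul_smul, mul_comm iv, jo_iv] at h2
  rw [h2, gf]
  simp only [Matrix.sub_mul, Matrix.mul_sub, Matrix.smul_mul, Matrix.mul_smul, Matrix.one_mul,
    Matrix.mul_one]
  abel

end

theorem cls_two {ι : Type*} [Fintype ι] [DecidableEq ι] (φ : k →+* ℂ) {A : Matrix ι ι k[T;T⁻¹]}
    (md : MD (1 - T 1) (A.map (mp φ))) {u₁ v₁ : ι → k} (rk : A.map ev1 = vecMulVec u₁ v₁)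
    (tr : (∀ z : ℤ, ∑ l, u₁ l * v₁ l ≠ z) ∨ vecMulVec u₁ v₁ = 0) {κ : Bool → ι → ℚ}
    {Ψ : Bool → Matrix ι ι (Ls k)} (hΨ : ∀ b, df b (1 - T 1) A (fun i => (κ b i : k)) (Ψ b) = 0)
    (uΨ : ∀ b, IsUnit (Ψ b)) : ∃ (μ u v : ι → ℚ) (g : Matrix ι ι k[T;T⁻¹]), Mdl μ u v ∧ IsUnit g ∧
      gf th (1 - T 1) A (mA (fun i => (μ i : k)) (fun i => (u i : k)) fun i => (v i : k)) g = 0 := by
  have : CharZero k := φ.charZero
  have eq : mp φ (1 - T 1) = 1 - T 1 := by rw [map_sub, map_one, mp_T]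
  obtain ⟨μ, u, v, g₀, hM, ug₀, hg₀⟩ := classify (u₁ := fun i => φ (u₁ i)) (v₁ := fun i => φ (v₁ i))
    (κ := κ) (Ψ := fun b => (Ψ b).map (mL φ)) md (by
      ext i j
      have := congrFun (congrFun rk i) j
      simp only [Matrix.map_apply, vecMulVec_apply] at this ⊢
      rw [ev1_mp, this, map_mul])
    (tr.imp (fun l z e => l z (φ.injective (by simpa using e))) fun l => by
      ext i j
      have := congrFun (congrFun l i) j
      simp only [vecMulVec_apply, Matrix.zero_apply] at this ⊢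
      rw [← map_mul, this, map_zero])
    (fun b => by
      have := df_map (b := b) (q := 1 - T 1) (A := A) (K := fun i => (κ b i : k)) φ (Ψ b)
      rw [hΨ, Matrix.map_zero _ (map_zero _), eq] at this
      simpa only [map_ratCast] using this.symm)
    fun b => (uΨ b).map (mL φ).mapMatrix
  obtain ⟨g, ug, hg⟩ := descend φ kpk_q (A := A)
    (A' := mA (fun i => (μ i : k)) (fun i => (u i : k)) fun i => (v i : k)) ug₀ (by
      rw [eq, kpk_mA]
      simpa only [map_ratCast] using hg₀)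
  exact ⟨μ, u, v, g, hM, ug, hg⟩

theorem cls_exp [CharZero k] {A : Matrix (Fin 2) (Fin 2) (Lm k)} {κ : Fin 2 → ℚ}
    {Ψ : Matrix (Fin 2) (Fin 2) (Ls k)} (h : dfe none A (fun i => (κ i : k)) Ψ = 0)
    (hΨ : IsUnit Ψ) : ∃ (K : Fin 2 → ℚ) (Φ : Matrix (Fin 2) (Fin 2) (Ls k)),
      dfe none A (fun i => (K i : k)) Φ = 0 ∧ IsUnit Φ ∧ ((∀ z : ℤ, K 1 - K 0 ≠ z) ∨ K 1 = K 0) := by
  by_cases l : ∀ z : ℤ, κ 1 - κ 0 ≠ z
  · exact ⟨κ, Ψ, h, hΨ, .inl l⟩
  push Not at l
  obtain ⟨z, hz⟩ := l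
  refine ⟨fun i => κ i - (![0, z] : Fin 2 → ℤ) i,
    Ψ * diagonal fun i => io (sd none) (T ((![0, z] : Fin 2 → ℤ) i)), ?_, hΨ.mul ?_, .inr ?_⟩
  · simpa only [Rat.cast_sub, Rat.cast_intCast] using dfe_shift none h ![0, z]
  · rw [Matrix.isUnit_iff_isUnit_det, det_diagonal, IsUnit.prod_univ_iff]
    exact fun i => (isUnit_T _).map _
  · simp [← hz]

/-- Normalization at `w = 1`. -/
theorem cls_one [CharZero k] {A : Matrix (Fin 2) (Fin 2) (Lm k)} {κ : Fin 2 → ℚ}
    {Ψ : Matrix (Fin 2) (Fin 2) (Ls k)} (h : dfe none A (fun i => (κ i : k)) Ψ = 0)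
    (hΨ : IsUnit Ψ) : ∃ (G : Matrix (Fin 2) (Fin 2) (Lm k)) (A' : Matrix (Fin 2) (Fin 2) k[T;T⁻¹])
      (c : ℚ) (u v : Fin 2 → k), IsUnit G ∧ gf tl 1 A ((iv : Lm k) • A'.map jo -
        (cL (c : k) * jo (T 1) * iv : Lm k) • (1 : Matrix (Fin 2) (Fin 2) (Lm k))) G = 0 ∧
      A'.map ev1 = vecMulVec u v ∧ ((∀ z : ℤ, ∑ l, u l * v l ≠ z) ∨ vecMulVec u v = 0) := by
  obtain ⟨K, Φ, hΦ, uΦ, hK⟩ := cls_exp h hΨ
  obtain ⟨g, V, V', ug, oV, oV', iV, e⟩ := hermite uΦ
  have uG : IsUnit (g.map s0) := ug.map (s0 (R := k)).mapMatrix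
  obtain ⟨G', iG⟩ := uG.exists_right_inv
  have hA : gf tl 1 A (G' * (A * g.map s0 - (g.map s0).map tl)) (g.map s0) = 0 := by
    rw [gf, ← Matrix.mul_assoc, iG, Matrix.one_mul, one_smul]
    abel
  generalize G' * (A * g.map s0 - (g.map s0).map tl) = N at hA
  have e' : (g.map s0).map (ex none) * V' = Φ := by
    rw [show (g.map s0).map (ex none) = g.map (io true) from
      Matrix.ext fun i j => ex_je none (g i j), e, Matrix.mul_assoc, iV, Matrix.mul_one]
  obtain ⟨M, hM, ev⟩ := cls_res oV oV' iV (cls_sol none hA iG (e' ▸ hΦ))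
  have i0 : c0 V * c0 V' = 1 := by rw [← (nrm_mul oV oV').2, iV, nrm_one]
  have tr : ∑ l, ((K 1 : k) - K 0) * c0 V' l 0 * c0 V 0 l = ((K 1 - K 0 : ℚ) : k) := by
    have := congrFun (congrFun i0 0) 0
    rw [mul_apply, one_apply_eq, Fin.sum_univ_two] at this
    rw [Fin.sum_univ_two, Rat.cast_sub]
    linear_combination ((K 1 : k) - K 0) * this
  refine ⟨g.map s0, (C (K 1 : k) * T 1 : k[T;T⁻¹]) • 1 - (T 1 : k[T;T⁻¹]) • M, K 1,
    fun l => ((K 1 : k) - K 0) * c0 V' l 0, fun l => c0 V 0 l, uG, ?_, ?_, ?_⟩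
  · convert hA using 2
    refine Matrix.ext fun i j => ?_
    have h1 := congrFun (congrFun hM i) j
    simp only [Matrix.map_apply, Matrix.smul_apply, smul_eq_mul, Matrix.sub_apply, map_sub,
      map_mul, jo_C, one_apply, apply_ite jo, map_one, map_zero] at h1 ⊢
    have h2 := ro_eq (R := k)
    have h3 := jo_iv (R := k)
    rw [h1]
    linear_combination (-iv * N i j) * h2 + N i j * h3
  · ext i j
    have h1 := congrFun (congrFun ev i) j
    have i1 : c0 V' * c0 V = 1 := mul_eq_one_comm.1 i0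
    have h2 := congrFun (congrFun i1 i) j
    simp only [Matrix.map_apply, Matrix.smul_apply, smul_eq_mul, Matrix.sub_apply, map_sub,
      map_mul, ev1_C, ev1_T, one_apply, apply_ite ev1, map_one, map_zero, vecMulVec_apply,
      mul_apply (N := c0 V), mul_diagonal, Fin.sum_univ_two] at h1 h2 ⊢
    rw [h1, ← h2]
    ring
  · exact hK.imp (fun l z e => l z (Rat.cast_injective (α := k)
      (tr.symm.trans (e.trans (Rat.cast_intCast z).symm)))) fun l => Matrix.ext fun i j => by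
        simp [l, vecMulVec_apply]

theorem cls3 (φ : k →+* ℂ) {A : Matrix (Fin 2) (Fin 2) (Lm k)} (md : MDL (A.map (ml φ)))
    {κ : En → Fin 2 → ℚ} {Ψ : En → Matrix (Fin 2) (Fin 2) (Ls k)}
    (h : ∀ e, dfe e A (fun i => (κ e i : k)) (Ψ e) = 0) (hΨ : ∀ e, IsUnit (Ψ e)) :
    ∃ (μ u v : Fin 2 → ℚ) (c : ℚ) (g : Matrix (Fin 2) (Fin 2) (Lm k)), Mdl μ u v ∧ IsUnit g ∧
      gf tl 1 A (mT (fun i => (μ i : k)) (fun i => (u i : k)) (fun i => (v i : k)) c) g = 0 := by
  have : CharZero k := φ.charZero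
  obtain ⟨G, A', c, u₁, v₁, uG, hG, rk, tr⟩ := cls_one (h none) (hΨ none)
  obtain ⟨G', iG⟩ := uG.exists_right_inv
  have ib : ∀ e, G.map (ex e) * G'.map (ex e) = 1 := fun e => by
    rw [← Matrix.map_mul, iG, Matrix.map_one _ (map_zero _) (map_one _)]
  choose f f' i1 _ _ hf using fun b => exists_bn (bn_field (-(c : k))) b
  have md' : MD (1 - T 1) (A'.map (mp φ)) := by
    have h1 := gf_map (d := tl) (d' := tl) (q := 1) (A := A) (A' := (iv : Lm k) • A'.map jo -
      (cL (c : k) * jo (T 1) * iv : Lm k) • (1 : Matrix (Fin 2) (Fin 2) (Lm k))) (G := G) (ml φ)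
      (ml_tl φ)
    rw [hG, Matrix.map_zero _ (map_zero _), map_one] at h1
    have h2 := ((MDL.gauge h1.symm (uG.map (ml φ).mapMatrix)).1 md).twist (-c)
    refine MDL_iff.1 ?_
    convert h2 using 1
    refine Matrix.ext fun i j => ?_
    simp only [Matrix.map_apply, Matrix.smul_apply, smul_eq_mul, Matrix.sub_apply, map_sub,
      map_mul, ml_iv, ml_jo, ml_cL, mp_T, map_ratCast, one_apply, apply_ite (ml φ), map_one,
      map_zero, Rat.cast_neg, map_neg]
    ring
  obtain ⟨μ, u, v, g, hM, ug, hg⟩ := cls_two φ md' rk tr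
    (κ := fun b i => κ (some b) i + if b then 0 else -c)
    (Ψ := fun b => f b • (G'.map (ex (some b)) * Ψ (some b))) (fun b => by
      have h1 := dfe_tw b (cls_sol (some b) hG iG (Ψ := G'.map (ex (some b)) * Ψ (some b)) (by
        rw [← Matrix.mul_assoc, ib, Matrix.one_mul]
        exact h (some b))) (hf b)
      rw [cls_tw] at h1
      have h2 := dfe_df (some b) (A := (iv : Lm k) • A'.map jo) (l := 1 - T 1) (Cm := A') (by
        rw [smul_smul, smul_smul]
        exact (congrArg (· • A'.map jo) ((congrArg (· * iv) (mul_one _)).trans jo_iv)).trans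
          (one_smul _ _)) (fun i => (κ (some b) i : k) + if b then 0 else -(c : k))
        (f b • (G'.map (ex (some b)) * Ψ (some b)))
      rw [h1, smul_zero] at h2
      refine Eq.trans ?_ h2
      congr 2
      funext i
      cases b <;> simp)
    fun b => by
      have := (IsUnit.of_mul_eq_one_right _ (ib (some b))).mul (hΨ (some b))
      rw [Matrix.isUnit_iff_isUnit_det] at this ⊢
      rw [det_smul]
      exact ((IsUnit.of_mul_eq_one _ (i1 b)).pow _).mul this
  refine ⟨μ, u, v, c, G * g.map jo, hM, uG.mul (ug.map (jo (R := k)).mapMatrix), ?_⟩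
  rw [gf_mul dv_tl, hG, mT_eq, cls_up hg, Matrix.zero_mul, Matrix.mul_zero, add_zero]

end Pool.Agent.Lib.MP_815ef6_nt.Ch
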