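import Pool.Agent.Lib.MP_815ef6_nt.CT.CmD

/-! Components with three ends: the easy properties. -/

namespace Pool.Agent.Lib.MP_815ef6_nt.Ch
open Finset LaurentPolynomial Matrix

section
variable {R R' : Type*} [CommRing R] [CommRing R'] {π : R →+* R'}

/-- The expansion after a change of the coefficients. -/
noncomputable def CmA3_f (π : R →+* R') (e : En) : Lm R →+* Ls R' := (mL π).comp (ex e)

theorem CmA3_f_te (e : En) (x : Lm R) : CmA3_f π e (te e x) = dS (sd e) (CmA3_f π e x) := by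
  simp only [CmA3_f, RingHom.comp_apply, ex_te, mL_dS]

theorem CmA3_f_eq (e : En) (x : Lm R) : CmA3_f π e x = ex e (ml π x) := mL_ex _ _ _

theorem CmA3_f_je (e : En) (x : R[T;T⁻¹]) : CmA3_f π e (je e x) = CmA_f π (sd e) x := by
  simp only [CmA3_f, CmA_f, RingHom.comp_apply, ex_je]

theorem CmA3_f_map {α β : Type*} (e : En) (M : Matrix α β R[T;T⁻¹]) :
    (M.map (je e)).map (CmA3_f π e) = M.map (CmA_f π (sd e)) :=
  Matrix.ext fun _ _ => CmA3_f_je _ _

end

variable {B : Type*} [CommRing B] {ι : Type*} [Fintype ι] [DecidableEq ι] {s : B} {ρ : B →+* ℂ}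
  {X : PD3 B ι} {K : En → ι → B} {P : En → Matrix ι ι B} {Y : CD3 B ι}

omit [DecidableEq ι] in
theorem CmA3_gf {Λ : Type*} [CommRing Λ] (d : Λ → Λ) (f : Λ) (A K G : Matrix ι ι Λ) :
    gf d f (f • A) (f • K) G = f • gf d 1 A K G := by
  simp only [gf, Matrix.mul_smul, Matrix.smul_mul]
  module

omit [DecidableEq ι] in
theorem CmA3_ro {Λ : Type*} [CommRing Λ] (d : Λ → Λ) (r q : Λ) (A A' G : Matrix ι ι Λ) :
    gf (fun f => r * d f) q (r • A) (r • A') G = r • gf d q A A' G := by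
  have h : G.map (fun f => r * d f) = r • G.map d := Matrix.ext fun _ _ => rfl
  simp only [gf, h, Matrix.mul_smul, Matrix.smul_mul]
  module

omit [DecidableEq ι] in
theorem CmA3_one {Λ : Type*} [CommRing Λ] (d : Λ → Λ) (q : Λ) (A A' G : Matrix ι ι Λ) :
    gf d q A (q • A') G = gf d 1 A A' G + (q - 1) • (G.map d + G * A') := by
  simp only [gf, Matrix.mul_smul]
  module

omit [DecidableEq ι] in
theorem CmA3_te (e : En) (q : Lm B) (A A' G : Matrix ι ι (Lm B)) :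
    gf (te e) q ((ro e : Lm B) • A) ((ro e : Lm B) • A') G = (ro e : Lm B) • gf tl q A A' G :=
  CmA3_ro tl (ro e) q A A' G

theorem Pre3.dm (h : Pre3 s X) : ∃ p₀ : ℕ, ∀ p : ℕ, p.Prime → p₀ ≤ p → ∀ (m : ℕ) i j,
    ∃ y z, Am tl X.δ X.A p i j = p * y + cL s ^ m * z := by
  obtain ⟨p₀, hp⟩ := h.mb (some true)
  refine ⟨p₀, fun p pp l m i j => ?_⟩
  set π := Ideal.Quotient.mk (Ideal.span {(p : B), s ^ m})
  have h0 : π (s ^ m) = 0 := Ideal.Quotient.eq_zero_iff_mem.2 (Ideal.subset_span (by simp))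
  have h1 : ((p : ℕ) : B ⧸ Ideal.span {(p : B), s ^ m}) = 0 := by
    rw [← map_natCast π]
    exact Ideal.Quotient.eq_zero_iff_mem.2 (Ideal.subset_span (by simp))
  have h2 : ((p : ℕ) : Ls (B ⧸ Ideal.span {(p : B), s ^ m})) = 0 := by
    rw [← map_natCast cS, h1, map_zero]
  obtain ⟨_, un⟩ := h.un (some true)
  obtain ⟨_, uW⟩ := h.uW (some true) (some true)
  obtain ⟨_, ul, -⟩ := (h.re (some true)).unit
  have e := CmA_dm (dv_dS _)
    ((h.rel (some true)).map (CmA3_f π (some true)) (CmA3_f_te (some true)))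
    (CmA_isUnit h0 un) (by
      rw [Matrix.isUnit_iff_isUnit_det, ← RingHom.mapMatrix_apply, ← RingHom.map_det]
      exact CmA_isUnit h0 uW) (by
      rw [CmA3_f_je]
      exact CmA_isUnit h0 ul) pp h2 (pf_dS_p pp h1) (by
      rw [CmA3_f_je, CmA3_f_map, ← Am_map _ (CmA_f_th _)]
      refine Matrix.ext fun i j => ?_
      obtain ⟨y, e⟩ := hp p pp l i j
      rw [Matrix.map_apply, e, map_mul, map_natCast, h2, zero_mul]
      rfl)
  rw [← Am_map _ (CmA3_f_te (some true)), te_some, show (ro (some true) : Lm B) = 1 from rfl,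
    one_smul] at e
  have e' : ml π (Am tl X.δ X.A p i j) = 0 :=
    ex_inj (some true) (by rw [map_zero, ← CmA3_f_eq]; exact congrFun (congrFun e i) j)
  have := span_ml e'
  rwa [map_natCast, map_pow] at this

theorem Pre3.md (H : Loc s ρ) (h : Pre3 s X) : MDL (X.A.map (ml ρ)) := by
  obtain ⟨p₀, hp⟩ := h.dm
  obtain ⟨F, hF⟩ := H.fg
  refine ⟨F, p₀, fun p pp l i j => ?_⟩
  obtain ⟨y, z, e⟩ := hp p pp l 1 i j
  have h1 : ml ρ X.δ = 1 := by
    have := (dvd_ml H.ker).1 h.one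
    rwa [map_sub, map_one, sub_eq_zero] at this
  have h2 := congrFun (congrFun (Am_map (q := X.δ) (A := X.A) (ml ρ) (ml_tl ρ) p) i) j
  rw [h1, Matrix.map_apply, e, map_add, map_mul, map_mul, pow_one, ml_cL, (H.ker s).2 dvd_rfl,
    map_zero, zero_mul, add_zero, map_natCast] at h2
  exact ⟨ml ρ y, ml_mem hF y, h2.symm⟩

theorem Cmp3.base (h : Cmp3 s ρ X K P Y) : ∃ U, St3 s X K Y 1 U := by
  choose γ hγ using h.un
  refine ⟨fun e => γ e • ((X.W e * Y.g).map (ex e) * Y.Ψ e), Y.g, Y.Ψ, fun i j => ?_,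
    fun i j => by simp, fun b => ⟨h.fund b, fun i j => by simp, fun i j => ?_⟩⟩
  · rw [pow_one, CmA3_one]
    exact (h.hg i j).add (h.one.mul_right _)
  · rw [pow_one, smul_smul, Matrix.sub_apply, Matrix.smul_apply, smul_eq_mul, ← sub_one_mul]
    exact (hγ b).mul_right _

theorem Cmp3.red (H : Loc s ρ) (h : Cmp3 s ρ X K P Y) {m : ℕ} {U : En → Matrix ι ι (Ls B)}
    (S : St3 s X K Y (m + 1) U) (e : En) : Od s 0 (U e) ∧ Dd s (c0 (U e) - P e) := by
  obtain ⟨G, Ψ, -, hG, hΨ⟩ := S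
  obtain ⟨-, h1, h2⟩ := hΨ e
  obtain ⟨V, v1, v2, v3⟩ := h.reg e
  obtain ⟨_, un⟩ := h.un e
  have hn := CmA_isUnit (π := ρ) (m := 1) (by rw [pow_one, H.ker]) un
  replace h2 := (CmA_DdL H.ker).1 fun i j => (dvd_pow_self _ m.succ_ne_zero).trans (h2 i j)
  rw [CmA_DdL H.ker, Matrix.map_sub _ (map_sub _), sub_eq_zero] at h1
  rw [Dd_ml H.ker, Matrix.map_sub _ (map_sub _), sub_eq_zero] at hG
  have e1 : ((X.W e * G).map (ex e)).map (mL ρ) = ((X.W e * Y.g).map (ml ρ)).map (ex e) := by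
    rw [Matrix.map_mul (L := X.W e) (M := Y.g), ← hG, ← Matrix.map_mul]
    exact Matrix.ext fun i j => mL_ex _ _ _
  rw [Matrix.map_sub _ (map_sub _), Matrix.map_mul, e1, h1, ← v3, ← mL_ex,
    Matrix.map_smul' _ _ _ (map_mul _), ← smul_sub] at h2
  have e2 := sub_eq_zero.1 (CmA_cancel hn h2)
  subst e2
  refine ⟨fun i j a ha => (H.ker _).1 (zero_dvd_iff.1 (v1 i j a ha)), fun i j => (H.ker _).1 ?_⟩
  rw [Matrix.sub_apply, map_sub, sub_eq_zero]
  exact congrFun (congrFun v2 i) j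

theorem Pre3.sol (h : Pre3 s X) {m : ℕ} {U : En → Matrix ι ι (Ls B)} (S : St3 s X K Y m U)
    (e : En) : Dd (cS s ^ m) (df (sd e) (X.l e) (X.Cm e) (K e) (U e)) := by
  obtain ⟨G, Ψ, hG, -, hΨ⟩ := S
  obtain ⟨h1, -, h2⟩ := hΨ e
  set π := Ideal.Quotient.mk (Ideal.span {s ^ m})
  have hπ := CmA_ker (s ^ m)
  have h0 : π (s ^ m) = 0 := (hπ _).2 dvd_rfl
  obtain ⟨_, un⟩ := h.un e
  have uδ : IsUnit (CmA3_f π e X.δ) := CmA_isUnit (g := 1) h0 (by
    rw [mul_one, ← ex_cL e, ← map_one (ex e), ← map_sub]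
    exact map_dvd _ h.one)
  rw [← map_pow, CmA_DdL hπ] at h2 ⊢
  rw [← map_pow, Dd_ml hπ] at hG
  rw [Matrix.map_sub _ (map_sub _), sub_eq_zero, Matrix.map_smul' _ _ _ (map_mul _),
    Matrix.map_mul,
    show ((X.W e * G).map (ex e)).map (mL π) = (X.W e * G).map (CmA3_f π e) from rfl,
    Matrix.map_mul, Matrix.mul_assoc] at h2
  have e0 := Rel.gf (dv_dS _) ((h.rel e).map (CmA3_f π e) (CmA3_f_te e))
    (K := diagonal fun i => cS (π (K e i))) h2
  have e1 : gf (dS (sd e)) (CmA3_f π e X.δ) (((ro e : Lm B) • X.A).map (CmA3_f π e))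
      (((ro e : Lm B) • X.δ • Y.A0).map (CmA3_f π e)) (G.map (CmA3_f π e)) = 0 := by
    rw [← gf_map _ (CmA3_f_te e), CmA3_te]
    refine Matrix.ext fun i j => ?_
    rw [Matrix.map_apply, Matrix.smul_apply, smul_eq_mul, map_mul, CmA3_f_eq e (gf _ _ _ _ _ i j),
      show ml π _ = 0 from congrFun (congrFun hG i) j, map_zero, mul_zero]
    rfl
  have e2 := congrArg (fun M : Matrix ι ι (Ls B) => M.map (mL π)) h1
  have e3 : (diagonal fun i => cS (K e i)).map (mL π) = diagonal fun i => cS (π (K e i)) := by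
    rw [diagonal_map (map_zero _)]
    simp only [mL_cS]
  simp only [dfe] at e2
  rw [gf_map (mL π) (mL_dS π _), map_one, e3, Matrix.map_zero _ (map_zero _)] at e2
  have e4 : gf (dS (sd e)) (CmA3_f π e X.δ) (((ro e : Lm B) • X.δ • Y.A0).map (CmA3_f π e))
      (CmA3_f π e X.δ • diagonal fun i => cS (π (K e i))) ((Ψ e).map (mL π)) = 0 := by
    rw [smul_comm, Matrix.map_smul' _ _ _ (map_mul _), CmA3_gf]
    exact (congrArg _ e2).trans (smul_zero _)
  rw [gf_mul (dv_dS _) (A' := ((ro e : Lm B) • X.δ • Y.A0).map (CmA3_f π e)), e1, e4,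
    Matrix.zero_mul, Matrix.mul_zero, add_zero, Matrix.mul_zero, smul_zero, CmA3_f_je,
    CmA3_f_map] at e0
  rw [df, gf_map (mL π) (mL_dS π _), Matrix.map_smul' _ _ _ (map_mul _), e3]
  exact CmA_cancel (uδ.mul ((CmA_isUnit h0 un).pow 2)) e0

theorem St3.scale {m : ℕ} {U : En → Matrix ι ι (Ls B)} (S : St3 s X K Y m U) (c : En → ι → B) :
    St3 s X K Y m fun e => U e * diagonal fun i => cS (1 + s * c e i) := by
  obtain ⟨G, Ψ, h1, h2, hΨ⟩ := S
  refine ⟨G, fun b => Ψ b * diagonal fun i => cS (1 + s * c b i), h1, h2, fun b => ?_⟩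
  obtain ⟨h3, h4, h5⟩ := hΨ b
  beta_reduce
  refine ⟨?_, fun i j => ?_, fun i j => ?_⟩
  · rw [dfe, gf_mul (dv_dS _) (A' := diagonal fun i => cS (K b i)), ← dfe, h3, Matrix.zero_mul,
      zero_add]
    have e : (diagonal fun i => cS (1 + s * c b i)).map (dS (sd b)) = 0 := Matrix.ext fun i j => by
      rw [Matrix.map_apply, diagonal_apply]
      split_ifs
      · exact dS_cS _ _
      · exact (congrArg _ (map_zero (cS (R := B))).symm).trans (dS_cS _ _)
    rw [gf, e, smul_zero, diagonal_mul_diagonal, diagonal_mul_diagonal]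
    simp only [mul_comm, zero_sub, neg_add_cancel, Matrix.mul_zero]
  · rw [Matrix.sub_apply, mul_diagonal, map_add, map_one, map_mul, mul_add, mul_one,
      add_sub_right_comm]
    exact (h4 i j).add (((dvd_mul_right _ _)).mul_left _)
  · rw [← Matrix.mul_assoc, ← Matrix.smul_mul, ← Matrix.sub_mul, mul_diagonal]
    exact (h5 i j).mul_right _

end Pool.Agent.Lib.MP_815ef6_nt.Ch
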