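import Pool.Agent.Lib.MP_815ef6_nt.CT.CmA

/-! Components with three ends: the obstruction vanishes. -/

namespace Pool.Agent.Lib.MP_815ef6_nt.Ch
open Finset LaurentPolynomial Matrix

variable {B : Type*} [CommRing B] {ι : Type*} [Fintype ι] [DecidableEq ι] {s : B} {ρ : B →+* ℂ}
  {X : PD3 B ι} {K : En → ι → B} {P : En → Matrix ι ι B} {Y : CD3 B ι}

theorem CmB_cancel {Λ Λ' : Type*} [CommRing Λ] [CommRing Λ'] {π : Λ →+* Λ'} {c p : Λ}
    (ker : ∀ x, π x = 0 ↔ c ∣ x) (reg : ∀ x, c * x = 0 → x = 0) (hp : IsUnit (π p)) {x y z : Λ}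
    {m : ℕ} (e : c ^ m * x = p * y + c ^ (m + 1) * z) : ∃ y, π x = π p * π y := by
  have s0 := (ker c).2 dvd_rfl
  induction m generalizing y with
  | zero => exact ⟨y, by simpa [s0] using congrArg π e⟩
  | succ m ih =>
    obtain ⟨y, rfl⟩ := (ker y).1 (hp.mul_right_eq_zero.1 (by simpa [s0] using (congrArg π e).symm))
    exact ih (y := y) (sub_eq_zero.1 (reg _ (by linear_combination e)))

theorem CmB_dd {Λ : Type*} [CommRing Λ] {d : Λ → Λ} {q c : Λ} {A A' G g' E : Matrix ι ι Λ} {m : ℕ}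
    (gg : Dd c (G * g' - 1)) (hE : gf d q A A' G = c ^ (m + 1) • E) :
    Dd (c ^ (m + 2)) (gf d q A (A' + (-c ^ (m + 1)) • (g' * E)) G) := by
  obtain ⟨N, e⟩ := cmb_dd.1 gg
  refine cmb_dd.2 ⟨-(N * E), ?_⟩
  rw [gf] at hE ⊢
  rw [Matrix.mul_add, ← add_assoc, hE, Matrix.mul_smul, ← Matrix.mul_assoc,
    sub_eq_iff_eq_add.1 e, Matrix.add_mul, Matrix.one_mul, smul_mul_assoc]
  module

theorem CmB_reg (H : Loc s ρ) (x : Lm B) (h : cL s * x = 0) : x = 0 := by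
  refine ex_inj none ?_
  have e := congrArg (ex none) h
  rw [map_mul, ex_cL, map_zero] at e
  rw [map_zero]
  ext a
  exact H.reg _ (by rw [← coeff_cS_mul, e]; rfl)

theorem CmB_del (H : Loc s ρ) (h : Pre3 s X) : ml ρ X.δ = 1 := by
  have e := (dvd_ml H.ker).1 h.one
  rwa [map_sub, map_one, sub_eq_zero] at e

theorem Cmp3.obs (H : Loc s ρ) (h : Cmp3 s ρ X K P Y) {m : ℕ} {G E : Matrix ι ι (Lm B)}
    (hG : Dd (cL s) (G - Y.g)) (hE : gf tl X.δ X.A (X.δ • Y.A0) G = (cL s ^ (m + 1) : Lm B) • E) :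
    ∃ δ, gf tl 1 (Y.A0.map (ml ρ)) (Y.A0.map (ml ρ)) δ = (Y.g' * E).map (ml ρ) := by
  have gg := cmb_gg hG h.gg
  have e1 : Dd (cL s ^ (m + 2) : Lm B) (gf tl X.δ X.A
      (X.δ • Y.A0 + (cL (-s ^ (m + 1)) : Lm B) • (Y.g' * E)) G) := by
    rw [map_neg, map_pow]
    exact CmB_dd gg hE
  refine h.split _ ?_
  obtain ⟨F, hF⟩ := H.fg
  obtain ⟨p₀, h0⟩ := h.toPre3.dm
  obtain ⟨p₁, h1⟩ := h.mb0
  refine ⟨F, max p₀ p₁, fun p hp k => ?_⟩
  have a : ∀ i j, ∃ y ∈ LL (cl F), Am tl 1 (Y.A0.map (ml ρ)) p i j = p * y := fun i j => by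
    obtain ⟨y, e⟩ := h1 p hp (le_of_max_le_right k) i j
    refine ⟨ml ρ y, ml_mem hF y, ?_⟩
    rw [← map_one (ml ρ), ← Am_map (ml ρ) (ml_tl ρ), map_apply, e, map_mul, map_natCast]
  have b : ∀ i j, ∃ y ∈ LL (cl F), Zm tl 1 (Y.A0.map (ml ρ)) ((Y.g' * E).map (ml ρ))
      (Y.A0.map (ml ρ)) p i j = p * y := fun i j => by
    let φ := Ideal.Quotient.mk (Ideal.span {(p : B), s ^ (m + 2)})
    have φp : φ p = 0 := Ideal.Quotient.eq_zero_iff_mem.2 (Ideal.subset_span (by simp))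
    have φs : φ (s ^ (m + 2)) = 0 := Ideal.Quotient.eq_zero_iff_mem.2 (Ideal.subset_span (by simp))
    have c1 : ml φ p = 0 := by rw [← map_natCast cL, ml_cL, φp, map_zero]
    have c2 : ml φ (cL s ^ (m + 2)) = 0 := by rw [← map_pow, ml_cL, φs, map_zero]
    have u : IsUnit (G.map (ml φ)) := cmb_unit gg (N := m + 2) (by rw [← map_pow, c2])
    have z := cmb_map e1 c2
    rw [gf_map (ml φ) (ml_tl φ)] at z
    have z := Am_gauge_p dv_tl z hp (by rw [← map_natCast (ml φ), c1])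
      (pf_tl_p hp (by rw [← map_natCast φ, φp]))
    rw [← Am_map (ml φ) (ml_tl φ), ← Am_map (ml φ) (ml_tl φ),
      show (Am tl X.δ X.A p).map (ml φ) = 0 from Matrix.ext fun i j => by
        obtain ⟨y, z, e⟩ := h0 p hp (le_of_max_le_left k) (m + 2) i j
        rw [map_apply, e, map_add, map_mul, map_mul, c1, c2, zero_mul, zero_mul, add_zero,
          Matrix.zero_apply], Matrix.zero_mul, eq_comm, u.mul_right_eq_zero] at z
    have l := cmb_map (Am_lin (q := X.δ) (A := X.δ • Y.A0) (E := Y.g' * E) dv_tl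
      (tl_cL (-s ^ (m + 1))) p) (φ := ml φ) (by
        rw [← map_pow, ml_cL, show (-s ^ (m + 1)) ^ 2 = s ^ (m + 2) * s ^ m by ring, map_mul, φs,
          zero_mul, map_zero])
    have sc := Am_scale (q := 1) (A := Y.A0) dv_tl X.δ p
    rw [mul_one] at sc
    rw [Am1_sb, Am1_sb, z, sc, Am1_smul, cmb_map (h1 p hp (le_of_max_le_right k)) c1, smul_zero,
      sub_zero, zero_sub, neg_eq_zero] at l
    obtain ⟨y, z, e⟩ := span_ml (congrFun (congrFun l i) j)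
    obtain ⟨y, e⟩ := CmB_cancel (π := ml ρ) (c := cL s) (p := cL p)
      (fun x => (dvd_ml H.ker).symm) (CmB_reg H)
      (by rw [ml_cL, map_natCast]; exact (Ne.isUnit (Nat.cast_ne_zero.2 hp.ne_zero)).map cL)
      (m := m + 1) (y := -y) (z := -z) (x := Zm tl X.δ (X.δ • Y.A0) (Y.g' * E) (X.δ • Y.A0) p i j)
      (by
        rw [Matrix.smul_apply, smul_eq_mul, map_neg, map_pow, map_pow] at e
        linear_combination -e)
    refine ⟨ml ρ y, ml_mem hF y, ?_⟩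
    rw [map_natCast, map_natCast, ← map_apply (f := ml ρ), Zm_map (ml ρ) (ml_tl ρ), Am1_smul,
      CmB_del H h.toPre3, one_smul] at e
    exact e
  rw [Am_blocks dv_tl]
  rintro (i | i) (j | j)
  exacts [a i j, b i j, ⟨0, zero_mem _, by simp⟩, a i j]

theorem Cmp3.dsc (H : Loc s ρ) (h : Cmp3 s ρ X K P Y) {E : Matrix ι ι (Lm B)}
    {Z : Matrix ι ι (Lm ℂ)} {ζ : En → Matrix ι ι (Ls B)}
    (hZ : gf tl 1 (Y.A0.map (ml ρ)) (Y.A0.map (ml ρ)) Z = E.map (ml ρ))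
    (hζ : ∀ e, Oz (-Y.D) ((Y.Ψ' e).map (mL ρ) * Z.map (ex e) * (Y.Ψ e).map (mL ρ) +
      (ζ e).map (mL ρ))) : ∃ Z', Dd (cL s) (gf tl 1 Y.A0 Y.A0 Z' - E) := by
  choose η hη hη' using fun e i j => exists_pol e ((Y.Ψ e * ζ e * Y.Ψ' e) i j)
  have inv : ∀ e, (Y.Ψ e).map (mL ρ) * (Y.Ψ' e).map (mL ρ) = 1 := fun e => by
    rw [← Matrix.map_mul, cmc_eqL H (h.inv e), Matrix.map_one _ (map_zero _) (map_one _)]
  have k : ∀ b i j a, a < -(3 * Y.D : ℤ) →
      (ex b (Z i j)).coeff a + ρ (((Y.Ψ b * ζ b * Y.Ψ' b) i j).coeff a) = 0 := fun b i j a ha => by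
    have e := ((cmc_oz H (h.od b).1).mul (hζ b)).mul (cmc_oz H (h.od b).2) i j a (by omega)
    rw [Matrix.mul_add, Matrix.add_mul, ← Matrix.mul_assoc, ← Matrix.mul_assoc, inv,
      Matrix.one_mul, Matrix.mul_assoc, inv, Matrix.mul_one, ← Matrix.map_mul,
      ← Matrix.map_mul, Matrix.add_apply, HahnSeries.coeff_add, map_apply, map_apply,
      coeff_mL] at e
    exact e
  obtain ⟨N, hN⟩ : ∃ N : Matrix ι ι (Lm B), N = of fun i j => ∑ e, η e i j := ⟨_, rfl⟩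
  obtain ⟨Z', e⟩ := h.desc (Z + N.map (ml ρ)) (E + gf tl 1 Y.A0 Y.A0 N) (fun b i j a ha => by
      have ha' : a < -(3 * Y.D : ℤ) := by simpa using ha
      rw [zero_dvd_iff, map_apply, Matrix.add_apply, map_add, HahnSeries.coeff_add, map_apply,
        ← mL_ex, coeff_mL, hN, of_apply, map_sum, HahnSeries.coeff_sum,
        sum_eq_single b (fun e _ he => hη' e i j b he.symm a (by omega)) (by simp),
        hη b i j a (by omega)]
      exact k b i j a ha') (by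
      rw [cmc_add dv_tl, hZ, Am1_add _ E, gf_map (ml ρ) (ml_tl ρ), map_one])
  refine ⟨Z' + -N, ?_⟩
  rw [cmc_add dv_tl, cmc_neg dv_tl]
  convert e using 1
  abel

end Pool.Agent.Lib.MP_815ef6_nt.Ch
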