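import Pool.Agent.Lib.MP_815ef6_nt.CT.MD3

/-! Components with three ends: definitions. -/

namespace Pool.Agent.Lib.MP_815ef6_nt.Ch
open Finset LaurentPolynomial Matrix

variable {B B' : Type*} [CommRing B] [CommRing B'] {ι : Type*} [Fintype ι] [DecidableEq ι]

/-- The systems on a component: `δ w dY/dw = A Y` and, at the ends, `l θ U = Cm U`,
`n U = W Y`. -/
structure PD3 (B : Type*) [CommRing B] (ι : Type*) where
  δ : Lm B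
  n : Lm B
  A : Matrix ι ι (Lm B)
  W : En → Matrix ι ι (Lm B)
  l : En → B[T;T⁻¹]
  Cm : En → Matrix ι ι B[T;T⁻¹]

/-- The model, the gauge transformation to the model and the solutions of the model. -/
structure CD3 (B : Type*) [CommRing B] (ι : Type*) where
  A0 : Matrix ι ι (Lm B)
  g : Matrix ι ι (Lm B)
  g' : Matrix ι ι (Lm B)
  Ψ : En → Matrix ι ι (Ls B)
  Ψ' : En → Matrix ι ι (Ls B)
  D : ℕ

structure Pre3 (s : B) (X : PD3 B ι) : Prop where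
  one : cL s ∣ X.δ - 1
  rel : ∀ e, Rel (te e) X.δ ((ro e : Lm B) • X.A) (je e (X.l e)) ((X.Cm e).map (je e)) X.n (X.W e)
  re : ∀ e, Re s (sd e) (X.l e) (X.Cm e)
  un : Un3 s X.n
  uW : ∀ e, Un3 s (X.W e).det
  mb : ∀ e, MB (X.l e) (X.Cm e)

structure Cmp3 (s : B) (ρ : B →+* ℂ) (X : PD3 B ι) (K : En → ι → B) (P : En → Matrix ι ι B)
    (Y : CD3 B ι) : Prop extends Pre3 s X where
  mb0 : ML Y.A0
  gg : Dd (cL s) (Y.g * Y.g' - 1)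
  hg : Dd (cL s) (gf tl 1 X.A Y.A0 Y.g)
  fund : ∀ e, dfe e Y.A0 (K e) (Y.Ψ e) = 0
  inv : ∀ e, Dd (cS s) (Y.Ψ e * Y.Ψ' e - 1)
  od : ∀ e, Od s Y.D (Y.Ψ e) ∧ Od s Y.D (Y.Ψ' e)
  res : ∀ e i j (a : ℤ), ρ (a + K e j - K e i) = 0 → a + K e j - K e i = 0 ∧ |a| ≤ Y.D
  pp : ∀ e, IsUnit (P e)
  reg : ∀ e, ∃ U : Matrix ι ι (Ls ℂ), Od 0 0 U ∧ c0 U = (P e).map ρ ∧ ex e (ml ρ X.n) • U =
    ((X.W e * Y.g).map (ml ρ)).map (ex e) * (Y.Ψ e).map (mL ρ)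
  split : ∀ E, MDL (fromBlocks (Y.A0.map (ml ρ)) E 0 (Y.A0.map (ml ρ))) →
    ∃ δ, gf tl 1 (Y.A0.map (ml ρ)) (Y.A0.map (ml ρ)) δ = E
  desc : ∀ (δ : Matrix ι ι (Lm ℂ)) (E : Matrix ι ι (Lm B)),
    (∀ e, Od 0 (3 * Y.D) (δ.map (ex e))) →
      gf tl 1 (Y.A0.map (ml ρ)) (Y.A0.map (ml ρ)) δ = E.map (ml ρ) →
        ∃ δ', Dd (cL s) (gf tl 1 Y.A0 Y.A0 δ' - E)

/-- The states of a component. -/
def St3 (s : B) (X : PD3 B ι) (K : En → ι → B) (Y : CD3 B ι) (m : ℕ)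
    (U : En → Matrix ι ι (Ls B)) : Prop :=
  ∃ (G : Matrix ι ι (Lm B)) (Ψ : En → Matrix ι ι (Ls B)),
    Dd (cL s ^ m) (gf tl X.δ X.A (X.δ • Y.A0) G) ∧ Dd (cL s) (G - Y.g) ∧
      ∀ e, dfe e Y.A0 (K e) (Ψ e) = 0 ∧ Dd (cS s) (Ψ e - Y.Ψ e) ∧
        Dd (cS s ^ m) (ex e X.n • U e - (X.W e * G).map (ex e) * Ψ e)

/-- What the gluing uses about a component. -/
structure Abs3 (s : B) (l : En → B[T;T⁻¹]) (Cm : En → Matrix ι ι B[T;T⁻¹]) (K : En → ι → B)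
    (P : En → Matrix ι ι B) (S : ℕ → (En → Matrix ι ι (Ls B)) → Prop) : Prop where
  base : ∃ U, S 1 U
  red : ∀ m U, S (m + 1) U → ∀ e, Od s 0 (U e) ∧ Dd s (c0 (U e) - P e)
  sol : ∀ m U, S m U → ∀ e, Dd (cS s ^ m) (df (sd e) (l e) (Cm e) (K e) (U e))
  step : ∀ m U (V : En → Matrix ι ι (Ls B)), S (m + 1) U → (∀ e, Dd (cS s ^ (m + 1)) (V e - U e)) →
    (∀ e, Od (s ^ (m + 2)) 0 (df (sd e) (l e) (Cm e) (K e) (V e))) → ∃ U', S (m + 2) U' ∧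
      ∀ e, Dd (cS s ^ (m + 1)) (U' e - V e) ∧ Od (s ^ (m + 2)) 0 (U' e - V e)
  scale : ∀ m U (c : En → ι → B), S (m + 1) U →
    S (m + 1) fun e => U e * diagonal fun i => cS (1 + s * c e i)

/-- The nodes: `N x y` says that the end `x` is glued to the end `y`. -/
structure Nod {V : Type*} (N : V × En → V × En → Prop) : Prop where
  sd0 : ∀ x y, N x y → sd x.2 = false
  sd1 : ∀ x y, N x y → sd y.2 = true
  u0 : ∀ x y y', N x y → N x y' → y = y'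
  u1 : ∀ x x' y, N x y → N x' y → x = x'

/-- A graph of components. -/
structure Gr3 {V : Type*} (s : B) (N : V × En → V × En → Prop) (l : V → En → B[T;T⁻¹])
    (Cm : V → En → Matrix ι ι B[T;T⁻¹]) (K : V → En → ι → B) (P : V → En → Matrix ι ι B) :
    Prop where
  nod : Nod N
  reg : ∀ x, s * x = 0 → x = 0
  nd : ∀ x y, N x y → ∃ τ, s ∣ τ ∧ Nd ⊥ τ (cf (l x.1 x.2)) (cf (l y.1 y.2)) ∧
    ∀ i i', Nd ⊥ τ (cf (Cm x.1 x.2 i i')) (cf (Cm y.1 y.2 i i'))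
  hK : ∀ x y, N x y → K x.1 x.2 = K y.1 y.2
  hP : ∀ x y, N x y → P x.1 x.2 = P y.1 y.2
  e0 : ∀ x, (∀ y, ¬ N x y ∧ ¬ N y x) → Re 0 (sd x.2) (l x.1 x.2) (Cm x.1 x.2)
  re : ∀ j e, Re s (sd e) (l j e) (Cm j e)
  sep : ∀ j e i i', i ≠ i' → IsUnit (K j e i - K j e i')
  pp : ∀ j e, IsUnit (P j e)
  eig : ∀ j e, Dd s ((Cm j e).map (fun f => f.coeff 0) * P j e - P j e * diagonal (K j e))

/-- Change of the coefficients. -/
noncomputable def PD3.map (φ : B →+* B') (X : PD3 B ι) : PD3 B' ι :=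
  ⟨ml φ X.δ, ml φ X.n, X.A.map (ml φ), fun e => (X.W e).map (ml φ), fun e => mp φ (X.l e),
    fun e => (X.Cm e).map (mp φ)⟩

/-- A component over the semilocal ring. -/
structure PrO3 {O : Subring ℂ} (s : O) (X : PD3 O ι) (F : Finset ℂ) (p₀ : ℕ) : Prop where
  one : cL s ∣ X.δ - 1
  rel : ∀ e, Rel (te e) X.δ ((ro e : Lm O) • X.A) (je e (X.l e)) ((X.Cm e).map (je e)) X.n (X.W e)
  re : ∀ e, Re s (sd e) (X.l e) (X.Cm e)
  n0 : ¬ cL s ∣ X.n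
  W0 : ∀ e, ¬ cL s ∣ (X.W e).det
  mb : ∀ e (p : ℕ), p.Prime → p₀ ≤ p → ∀ i j,
    ∃ g ∈ LS (cl F), mp O.subtype (Am th (X.l e) (X.Cm e) p i j) = p * g

/-- The exponents modulo the kernel of `ρ`. -/
structure Eg3 (ρ : B →+* ℂ) (Cm : En → Matrix ι ι B[T;T⁻¹]) (κ : En → ι → ℚ)
    (P P' : En → Matrix ι ι ℚ) : Prop where
  inv : ∀ e, P e * P' e = 1
  eig : ∀ e, (Cm e).map (fun f => ρ (f.coeff 0)) * (P e).map (fun x => (x : ℂ)) =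
    (P e).map (fun x => (x : ℂ)) * diagonal fun i => (κ e i : ℂ)

/-- Fundamental matrices at the three ends. -/
structure Sl3 (A : Matrix ι ι (Lm B)) (κ : En → ι → B) (Φ Φ' : En → Matrix ι ι (Ls B)) (D : ℕ) :
    Prop where
  fund : ∀ e, dfe e A (κ e) (Φ e) = 0
  inv : ∀ e, Φ e * Φ' e = 1
  od : ∀ e, Od 0 D (Φ e) ∧ Od 0 D (Φ' e)
  mb : ML A

end Pool.Agent.Lib.MP_815ef6_nt.Ch
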