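import Pool.Agent.Lib.MP_815ef6_nt.CT.TrD

/-! The scalar operator at the ends of the components. -/

namespace Pool.Agent.Lib.MP_815ef6_nt.Ch
open Finset LaurentPolynomial Filter

variable {n M : ℕ}

section
variable {β : Fin M → ℂ} {p : ℂ} {I : Finset (Fin M)} {y y' : ℂ} {Z : ℕ → Polynomial ℂ}

theorem rr_LI (i₀ m i : ℕ) : rr th 1 n (LI β p I y Z) (bs _ i₀) m i =
    uI β p I y ^ m * sc y (rr dz 1 n Z (bs _ i₀) m i) := by
  rw [rr_map (sc y) (sc_dz _), map_one, bs_map]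
  exact rr_mul dv_th _ m i

theorem coeff_LI (hy : y ≠ 0) (i : ℕ) (e : ℤ) : (LI β p I y Z i).coeff e =
    cI β p I * y ^ e * (Polynomial.toLaurent (Z i)).coeff (e + I.card) := by
  rw [LI, uI, coeff_CT_mul, coeff_sc, sub_neg_eq_add, zpow_add₀ hy, zpow_natCast, inv_pow]
  have := pow_ne_zero I.card hy
  field_simp

theorem LI_nd (hy : y ≠ 0) (hy' : y' ≠ 0) (i : ℕ) :
    Nd ⊥ (y / y') (cf (LI β p I y Z i)) (cf (LI β p I y' Z i)) := fun k => by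
  have h1 := pow_ne_zero k hy
  have h2 := pow_ne_zero k hy'
  simp only [cf, coeff_LI hy, coeff_LI hy', Ideal.mem_bot, zpow_neg, zpow_natCast, div_pow]
  constructor <;> field_simp <;> ring

theorem LI_zero (hy : y ≠ 0) {i : ℕ} (h : ∀ a < I.card, (Z i).coeff a = 0) {e : ℤ} (he : e < 0) :
    (LI β p I y Z i).coeff e = 0 := by
  rw [coeff_LI hy]
  rcases lt_or_ge (e + I.card) 0 with l | l
  · rw [coeff_tl_neg _ l, mul_zero]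
  · obtain ⟨k, hk⟩ := Int.eq_ofNat_of_zero_le l
    rw [hk, coeff_tl, h k (by omega), mul_zero]

theorem LI_last (hy : y ≠ 0) {i : ℕ} (h : (Z i).natDegree ≤ M) {e : ℤ} (he : 0 < e) :
    (LI β p univ y Z i).coeff e = 0 := by
  obtain ⟨k, rfl⟩ := Int.eq_ofNat_of_zero_le he.le
  rw [coeff_LI hy, card_univ, Fintype.card_fin, ← Nat.cast_add, coeff_tl,
    Polynomial.coeff_eq_zero_of_natDegree_lt (h.trans_lt (by omega)), mul_zero]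

theorem LI_lead (hβ : ∀ l ∉ I, β l ≠ p) (hy : y ≠ 0) {i : ℕ}
    (top : Z i = ∏ l, (Polynomial.X - Polynomial.C (β l - p))) : LI β p I y Z i =
      (∏ l ∈ I, (1 - C ((β l - p) / y) * T (-1))) * ∏ l ∈ Iᶜ, (1 - C (y / (β l - p)) * T 1) := by
  have e : uI β p I y = (∏ _l ∈ I, C y⁻¹ * T (-1)) * ∏ l ∈ Iᶜ, C (p - β l)⁻¹ := by
    rw [prod_const, mul_pow, T_pow, ← map_prod, ← map_pow, uI, map_mul, cI]
    simp only [mul_neg, mul_one]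
    ring
  rw [LI, top, map_prod, e, ← prod_mul_prod_compl I, mul_mul_mul_comm, ← prod_mul_distrib,
    ← prod_mul_distrib]
  congr 1 <;> refine prod_congr rfl fun l hl => ?_ <;> rw [map_sub, sc_X, sc_C, div_eq_mul_inv, map_mul]
  · have h1 : (C y⁻¹ * C y : ℂ[T;T⁻¹]) = 1 := by rw [← map_mul, inv_mul_cancel₀ hy, map_one]
    have h3 : (T (-1) * T 1 : ℂ[T;T⁻¹]) = 1 := by rw [← T_add]; rfl
    linear_combination T (-1) * T 1 * h1 + h3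
  · have h2 : (C (β l - p)⁻¹ * C (β l - p) : ℂ[T;T⁻¹]) = 1 := by
      rw [← map_mul, inv_mul_cancel₀ (sub_ne_zero.2 (hβ l (mem_compl.1 hl))), map_one]
    rw [← neg_sub (β l) p, inv_neg, map_neg]
    linear_combination h2

theorem cI_ne (hβ : ∀ l ∉ I, β l ≠ p) : cI β p I ≠ 0 :=
  prod_ne_zero_iff.2 fun l hl => inv_ne_zero (sub_ne_zero.2 (hβ l (mem_compl.1 hl)).symm)

theorem uI_unit (hβ : ∀ l ∉ I, β l ≠ p) (hy : y ≠ 0) : IsUnit (uI β p I y) :=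
  ((mul_ne_zero (cI_ne hβ) (pow_ne_zero _ (inv_ne_zero hy))).isUnit.map C).mul (isUnit_T _)

theorem LI_dm {F : Finset ℂ} {p₀ : ℕ}
    (h : ∀ q : ℕ, q.Prime → p₀ ≤ q → ∀ i₀ ≤ n, ∀ i ≤ n, ∀ a,
      ∃ y ∈ cl F, (rr dz 1 n Z (bs _ i₀) q i).coeff a = q * y) :
    ∀ᶠ F' : Finset ℂ in atTop, ∀ q : ℕ, q.Prime → p₀ ≤ q → ∀ i₀ ≤ n, ∀ i ≤ n,
      ∃ g ∈ LS (cl F'), rr th 1 n (LI β p I y Z) (bs _ i₀) q i = q * g := by
  filter_upwards [ev_le F, ev_mem y, ev_mem (cI β p I * y⁻¹ ^ I.card)] with F' h1 h2 h3 q hp h0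
    i₀ h₀ i hi
  have p0 : (q : ℂ) ≠ 0 := Nat.cast_ne_zero.2 hp.ne_zero
  refine ⟨uI β p I y ^ q * sc y (Polynomial.C (q : ℂ)⁻¹ * rr dz 1 n Z (bs _ i₀) q i),
    mul_mem (pow_mem (mul_mem (C_mem h3) (T_mem _ _)) q) (sc_mem h2 fun e => ?_), ?_⟩
  · obtain ⟨y, hy, e⟩ := h q hp h0 i₀ h₀ i hi e
    rw [Polynomial.coeff_C_mul, e, inv_mul_cancel_left₀ p0]
    exact h1 hy
  · rw [rr_LI, map_mul, sc_C, ← map_natCast C, mul_left_comm, ← mul_assoc (C _), ← map_mul,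
      mul_inv_cancel₀ p0, map_one, one_mul]

theorem LI_back (hβ : ∀ l ∉ I, β l ≠ p) (hy : y ≠ 0) {F : Finset ℂ}
    (h : ∀ i₀ ≤ n, ∀ m : ℕ, ∀ i ≤ n, ∀ e, ∃ w ∈ cl F,
      (rr th 1 n (LI β p I y Z) (bs _ i₀) m i).coeff e = m.factorial * w) :
    ∃ F' : Finset ℂ, ∀ i₀ ≤ n, ∀ m : ℕ, ∀ i ≤ n, ∀ e, ∃ w ∈ cl F',
      (rr dz 1 n Z (bs _ i₀) m i).coeff e = m.factorial * w := by
  have c0 : cI β p I * y⁻¹ ^ I.card ≠ 0 := mul_ne_zero (cI_ne hβ) (pow_ne_zero _ (inv_ne_zero hy))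
  obtain ⟨F', h1, h2, h3⟩ :=
    ((ev_le F).and ((ev_mem y⁻¹).and (ev_mem (cI β p I * y⁻¹ ^ I.card)⁻¹))).exists
  refine ⟨F', fun i₀ h₀ m i hi e => ?_⟩
  obtain ⟨w, hw, k⟩ := h i₀ h₀ m i hi (e + m * -I.card)
  rw [rr_LI, uI, mul_pow, ← map_pow, T_pow, coeff_CT_mul, add_sub_cancel_right, coeff_sc, coeff_tl,
    zpow_natCast] at k
  generalize cI β p I * y⁻¹ ^ I.card = c at c0 h3 k
  refine ⟨c⁻¹ ^ m * y⁻¹ ^ e * w, mul_mem (mul_mem (pow_mem h3 _) (pow_mem h2 _)) (h1 hw), ?_⟩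
  rw [mul_left_comm, ← k, inv_pow, inv_pow]
  field_simp

variable {O : Subring ℂ} {t : ℂ} {b : Bool}

/-- The leading coefficient at an end. -/
theorem Ed.lead (H : Frame O t) (S : Ed O t β p y b I) : ∃ G : O[T;T⁻¹], mp O.subtype G =
    (∏ l ∈ I, (1 - C ((β l - p) / y) * T (-1))) * ∏ l ∈ Iᶜ, (1 - C (y / (β l - p)) * T 1) ∧
      ∀ J : Ideal O, ((∃ s : O, Prime s ∧ s ∣ ⟨t, H.mem⟩ ∧ s ∈ J) ∨
        (b = true → ∀ l ∈ I, β l = p) ∧ (b = false → I = univ)) → G.coeff 0 - 1 ∈ J := by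
  refine ⟨(∏ l ∈ I.attach, (1 - C ⟨_, (S.ins l.1 l.2).1⟩ * T (-1))) *
    ∏ l ∈ Iᶜ.attach, (1 - C ⟨_, (S.out l.1 (mem_compl.1 l.2)).2.1⟩ * T 1), ?_, fun J hJ => ?_⟩
  · rw [map_mul, map_prod, map_prod, ← prod_attach I, ← prod_attach Iᶜ]
    simp
  have k : ∀ (c : O) (a : ℤ), a ≠ 0 → (sg b * a < 0 → c ∈ J) →
      (1 - C c * T a ∈ rgS J b ∧ (1 - C c * T a : O[T;T⁻¹]).coeff 0 - 1 ∈ J) := fun c a ha h =>
    ⟨sub_mem (one_mem _) fun a' ha' => by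
      rw [coeff_CT]
      split_ifs with e
      exacts [h (e ▸ ha'), J.zero_mem], by simp [coeff_CT, ha, ← T_zero]⟩
  have m : ∀ f g : O[T;T⁻¹], f ∈ rgS J b ∧ f.coeff 0 - 1 ∈ J → g ∈ rgS J b ∧ g.coeff 0 - 1 ∈ J →
      f * g ∈ rgS J b ∧ (f * g).coeff 0 - 1 ∈ J := fun f g hf hg => ⟨mul_mem hf.1 hg.1, by
    have := (epC (Ideal.Quotient.mk J) (fun _ => Ideal.Quotient.eq_zero_iff_mem.2) b).map_mul
      ⟨f, hf.1⟩ ⟨g, hg.1⟩
    rw [← Ideal.Quotient.eq] at hf hg ⊢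
    exact this.trans (by
      change Ideal.Quotient.mk J (f.coeff 0) * Ideal.Quotient.mk J (g.coeff 0) = _
      rw [hf.2, hg.2, map_one, one_mul])⟩
  have o : (1 : O[T;T⁻¹]) ∈ rgS J b ∧ (1 : O[T;T⁻¹]).coeff 0 - 1 ∈ J :=
    ⟨one_mem _, by simp [← T_zero]⟩
  refine (m _ _ (prod_induction _ _ m o fun l _ => k _ _ (by decide) fun e => ?_)
    (prod_induction _ _ m o fun l _ => k _ _ (by decide) fun e => ?_)).2
  · cases b
    · exact absurd e (by decide)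
    · rcases hJ with ⟨s, hp, hs, hJ⟩ | hJ
      · exact J.mem_of_dvd (((S.ins l.1 l.2).2 rfl).dvd H hp hs) hJ
      · convert J.zero_mem
        rw [hJ.1 rfl l.1 l.2, sub_self, zero_div]
        rfl
  · cases b
    · rcases hJ with ⟨s, hp, hs, hJ⟩ | hJ
      · exact J.mem_of_dvd (((S.out l.1 (mem_compl.1 l.2)).2.2 rfl).dvd H hp hs) hJ
      · exact absurd ((hJ.2 rfl).ge (mem_univ _)) (mem_compl.1 l.2)
    · exact absurd e (by decide)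

end

end Pool.Agent.Lib.MP_815ef6_nt.Ch
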