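import Pool.Agent.Lib.MP_815ef6_nt.CT.Cx1

/-! The scalar operators at the ends over the semilocal ring. -/

namespace Pool.Agent.Lib.MP_815ef6_nt.Ch
open Finset LaurentPolynomial Filter Matrix

variable {n M : ℕ} {O : Subring ℂ} {t : ℂ} {V : Type*}

theorem eg3_cM {B : Type*} [CommRing B] (ρ : B →+* ℂ) {L : En → ℕ → B[T;T⁻¹]}
    {κ : En → Fin (n + 1) → ℚ} (inj : ∀ e, Function.Injective (κ e))
    (h : ∀ e, ∀ i ≤ n + 1, ρ ((L e i).coeff 0) = es (fun l => (κ e l : ℂ)) i) :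
    Eg3 ρ (fun e => cM n (L e)) κ (fun e => (vandermonde (κ e))ᵀ)
      fun e => ((vandermonde (κ e))ᵀ)⁻¹ :=
  have k := fun e => eg_cM ρ (L := fun _ => L e) (κ := fun _ => κ e) (fun _ => inj e) fun _ => h e
  ⟨fun e => (k e).inv true, fun e => (k e).eig true⟩

/-- The operators at the ends. -/
noncomputable def LE (β : Fin M → ℂ) (c x : V → ℂ) (I : V → En → Finset (Fin M))
    (Z : ℂ → ℕ → Polynomial ℂ) (j : V) (e : En) : ℕ → ℂ[T;T⁻¹] :=
  LI β (pe (c j) (x j) e) (I j e) (ye (x j) e) (Z (pe (c j) (x j) e))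

/-- The data lie in the frame. -/
structure St4 (O : Subring ℂ) (t : ℂ) (β : Fin M → ℂ) (S : Finset ℂ) (c x : V → ℂ)
    (I : V → En → Finset (Fin M)) (N : V × En → V × En → Prop) (Z : ℂ → ℕ → Polynomial ℂ) (n : ℕ)
    (F : Finset ℂ) (p₀ : ℕ) : Prop where
  fr : Frame O t
  cb : Cb β S c x I N
  tr : Tr O t β c x I N
  top : ∀ p, Z p (n + 1) = ∏ l, (Polynomial.X - Polynomial.C (β l - p))
  deg : ∀ p i, (Z p i).natDegree ≤ M
  low : ∀ p i (J : Finset (Fin M)), (∀ l ∈ J, β l = p) → (∀ l ∉ J, β l ≠ p) →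
    ∀ a < J.card, (Z p i).coeff a = 0
  hF : ∀ y ∈ F, ∃ e : ℕ, t ^ e * y ∈ O
  dm : ∀ p : ℕ, p.Prime → p₀ ≤ p → ∀ j e, ∀ i₀ ≤ n, ∀ i ≤ n,
    ∃ g ∈ LS (cl F), rr th 1 n (LE β c x I Z j e) (bs _ i₀) p i = p * g
  root : ∀ j e, ∀ i ≤ n, ∀ k ∈ (LE β c x I Z j e i).coeff.support, ∃ ξ : ℂ,
    ξ ^ (n + 1 - i) = (LE β c x I Z j e i).coeff k ∧ ∃ e : ℕ, t ^ e * ξ ∈ O

namespace St4

variable {β : Fin M → ℂ} {S : Finset ℂ} {c x : V → ℂ} {I : V → En → Finset (Fin M)}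
  {N : V × En → V × En → Prop} {Z : ℂ → ℕ → Polynomial ℂ} {F : Finset ℂ} {p₀ : ℕ}
  (H : St4 O t β S c x I N Z n F p₀)
include H

theorem y0 (j : V) : ∀ e, ye (x j) e ≠ 0
  | none => neg_ne_zero.2 (H.cb.x0 j)
  | some _ => H.cb.x0 j

theorem ne (j : V) (e : En) : ∀ l ∉ I j e, β l ≠ pe (c j) (x j) e := fun l hl =>
  ((H.tr.ed j e).out l hl).1

theorem lift : ∃ L : V → En → ℕ → O[T;T⁻¹],
    ∀ j e, ∀ i ≤ n + 1, mp O.subtype (L j e i) = LE β c x I Z j e i := by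
  have : ∀ j e, ∀ i ≤ n + 1, LE β c x I Z j e i ∈ LS O := fun j e i hi => by
    obtain ⟨G, h1, h2⟩ := (H.tr.ed j e).lead H.fr
    refine H.fr.int (h1.trans (LI_lead (H.ne j e) (H.y0 j e) (H.top _)).symm) (fun s hp hs k => ?_)
      H.hF (fun p hp h0 => H.dm p hp h0 j e 0 (by omega)) (H.root j e) hi
    have := Ideal.mem_span_singleton.1 (h2 _ (.inl ⟨s, hp, hs, Ideal.mem_span_singleton_self s⟩))
    exact hp.not_dvd_one (by simpa using (dvd_iff.1 k 0).sub this)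
  choose! L hL using this
  exact ⟨L, hL⟩

variable {L : V → En → ℕ → O[T;T⁻¹]}
  (hL : ∀ j e, ∀ i ≤ n + 1, mp O.subtype (L j e i) = LE β c x I Z j e i)
include hL

omit H in
theorem cf' (j e) {i : ℕ} (hi : i ≤ n + 1) (a : ℤ) :
    ((L j e i).coeff a : ℂ) = (LE β c x I Z j e i).coeff a := by
  rw [← hL j e i hi, coeff_mp]
  rfl

theorem nd {a b : V × En} (h : N a b) : ∀ i ≤ n + 1,
    Nd ⊥ ⟨_, (H.tr.sm a b h).1⟩ (cf (L a.1 a.2 i)) (cf (L b.1 b.2 i)) := fun i hi k => by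
  have := LI_nd (β := β) (p := pe (c a.1) (x a.1) a.2) (I := I a.1 a.2)
    (Z := Z (pe (c a.1) (x a.1) a.2)) (H.y0 a.1 a.2) (H.y0 b.1 b.2) i k
  have e1 := cf' hL a.1 a.2 hi
  have e2 := cf' hL b.1 b.2 hi
  rw [LE, ← H.cb.pt a b h, ← H.cb.ii a b h] at e2
  simp only [cf, Ideal.mem_bot, LE] at this e1
  rw [← e1, ← e1, ← e2, ← e2] at this
  exact ⟨Subtype.ext this.1, Subtype.ext this.2⟩

theorem one (j e) (J : Ideal O) (h : (∃ s : O, Prime s ∧ s ∣ ⟨t, H.fr.mem⟩ ∧ s ∈ J) ∨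
    (sd e = true → ∀ l ∈ I j e, β l = pe (c j) (x j) e) ∧ (sd e = false → I j e = univ)) :
    (L j e (n + 1)).coeff 0 - 1 ∈ J := by
  obtain ⟨G, h1, h2⟩ := (H.tr.ed j e).lead H.fr
  rw [mp_inj _ ((hL j e _ le_rfl).trans ((LI_lead (H.ne j e) (H.y0 j e) (H.top _)).trans h1.symm))]
  exact h2 J h

theorem rg0 (J : Ideal O) {j e} (h : ∀ y, ¬ N (j, e) y ∧ ¬ N y (j, e)) :
    Rg J (sd e) n (L j e) := by
  have k1 := fun l => H.cb.e1 j e l fun a => (h a).2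
  have k0 := fun l => H.cb.e0 j e l fun a => (h a).1
  refine ⟨fun i hi a ha => (show (L j e i).coeff a = 0 from Subtype.ext
    ((cf' hL j e hi a).trans ?_)) ▸ J.zero_mem, H.one hL j e J (.inr ⟨k1, k0⟩)⟩
  cases l : sd e
  · rw [LE, k0 l]
    exact LI_last (H.y0 j e) (H.deg _ i) (by simpa [sg, l] using ha)
  · exact LI_zero (H.y0 j e) (H.low _ i _ (k1 l) (H.ne j e)) (by simpa [sg, l] using ha)

variable {s : O} (hp : Prime s) (hs : s ∣ ⟨t, H.fr.mem⟩)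
include hp hs

theorem rg (j e) : Rg (Ideal.span {s}) (sd e) n (L j e) := by
  by_cases h : ∀ y, ¬ N (j, e) y ∧ ¬ N y (j, e)
  · exact H.rg0 hL _ h
  refine ⟨fun i hi a ha => ?_, H.one hL j e _ (.inl ⟨s, hp, hs, Ideal.mem_span_singleton_self s⟩)⟩
  have k : ∀ {a b} (h : N a b) (k : ℕ) (y : O), k ≠ 0 →
      (⟨_, (H.tr.sm a b h).1⟩ : O) ^ k * y ∈ Ideal.span {s} := fun h k y hk =>
    Ideal.mem_span_singleton.2 ((((H.tr.sm _ _ h).dvd H.fr hp hs).pow hk).mul_right _)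
  obtain ⟨y, h⟩ := not_forall.1 h
  rcases not_and_or.1 h with h | h <;> rw [not_not] at h
  · rw [H.cb.nod.sd0 _ _ h] at ha
    obtain ⟨a, rfl⟩ := Int.eq_ofNat_of_zero_le (a := a) (by simp only [sg] at ha; omega)
    exact (show (L j e i).coeff _ = _ from sub_eq_zero.1 (H.nd hL h i hi a).1) ▸
      k h a _ (by rintro rfl; simp at ha)
  · rw [H.cb.nod.sd1 _ _ h] at ha
    obtain ⟨a, e⟩ := Int.eq_ofNat_of_zero_le (a := -a) (by simp only [sg] at ha; omega)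
    rw [neg_eq_iff_eq_neg.1 e] at ha ⊢
    exact (show (L j _ i).coeff _ = _ from sub_eq_zero.1 (H.nd hL h i hi a).2) ▸
      k h a _ (by rintro rfl; simp at ha)

theorem exps {ρ : O →+* ℂ} (hρ : ∀ y, ρ y = 0 ↔ s ∣ y) :
    ∃ κ : ℂ × Finset (Fin M) → Fin (n + 1) → ℚ, ∀ j e,
      Function.Injective (κ (pe (c j) (x j) e, I j e)) ∧ ∀ i ≤ n + 1,
        ρ ((L j e i).coeff 0) = es (fun l => (κ (pe (c j) (x j) e, I j e) l : ℂ)) i := by
  have := H.fr.neBot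
  have c0 : ∀ j e, ∀ i ≤ n + 1, ((L j e i).coeff 0 : ℂ) = cI β (pe (c j) (x j) e) (I j e) *
      (Polynomial.toLaurent (Z (pe (c j) (x j) e) i)).coeff (I j e).card := fun j e i hi => by
    rw [cf' hL j e hi, LE, coeff_LI (H.y0 j e), zpow_zero, mul_one, zero_add]
  have : ∀ v : ℂ × Finset (Fin M), (∃ j e, v = (pe (c j) (x j) e, I j e)) →
      ∃ κ : Fin (n + 1) → ℚ, Function.Injective κ ∧ ∀ i ≤ n + 1, ∀ y : O, (y : ℂ) = cI β v.1 v.2 *
        (Polynomial.toLaurent (Z v.1 i)).coeff v.2.card → ρ y = es (fun l => (κ l : ℂ)) i := by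
    rintro _ ⟨j, b, rfl⟩
    obtain ⟨T, ⟨hle, hsT, K⟩, hT, h5⟩ := ((H.fr.ev_loc hs hρ).and
      (((eventually_all_finset (range (n + 2))).2 fun i hi => ev_LS ⟨_, hL j b i (by
        have := mem_range.1 hi; omega)⟩).and (H.fr.ev_desc H.hF))).exists
    choose! L' hL' using hT
    have h1 : ∀ i ≤ n + 1, mp (cl T).subtype (L' i) = LE β c x I Z j b i :=
      fun i hi => hL' i (mem_range.2 (by omega))
    have h2 : ∀ i ≤ n + 1, ∀ a, Subring.inclusion hle ((L' i).coeff a) = (L j b i).coeff a :=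
      fun i hi a => Subtype.ext (by rw [cf' hL j b hi, ← h1 i hi, coeff_mp]; rfl)
    have rg := H.rg hL hp hs j b
    obtain ⟨κ, k1, k2⟩ := K.exps (b := sd b) (n := n) (L := L') ⟨fun i hi a ha =>
      Ideal.mem_span_singleton.2 ((K.ker _).1 (by
        rw [RingHom.comp_apply, h2 i hi]
        exact (hρ _).2 (Ideal.mem_span_singleton.1 (rg.pol i hi a ha)))),
      Ideal.mem_span_singleton.2 ((K.ker _).1 (by
        rw [RingHom.comp_apply, map_sub, map_one, h2 _ le_rfl]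
        exact (hρ _).2 (Ideal.mem_span_singleton.1 rg.one)))⟩ ⟨p₀, fun p hp' h0 i hi => by
      obtain ⟨g, hg, e⟩ := H.dm p hp' h0 j b 0 (by omega) i hi
      refine h5 p hp'.ne_zero g hg 1 (one_mem _) _ ?_
      rw [rr_map _ (mp_th _), bs_map, map_one, rr_congr h1 p hi, e, map_one, one_mul]⟩
    refine ⟨κ, k1, fun i hi y hy => ?_⟩
    rw [← k2 i hi, RingHom.comp_apply, h2 i hi]
    exact congrArg ρ (Subtype.ext (hy.trans (c0 j b i hi).symm))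
  choose! κ h1 h2 using this
  exact ⟨κ, fun j b => ⟨h1 _ ⟨j, b, rfl⟩, fun i hi => h2 _ ⟨j, b, rfl⟩ i hi _ (c0 j b i hi)⟩⟩

omit hp hs H in
theorem am (j b) (m : ℕ) (i i' : Fin (n + 1)) :
    mp O.subtype (Am th (L j b (n + 1)) (cM n (L j b)) m i i') =
      rr th 1 n (LE β c x I Z j b) (bs _ i) m i' := by
  rw [Am_cM, rr_map _ (mp_th _), bs_map, map_one, rr_congr (hL j b) m i'.is_le]

end St4

end Pool.Agent.Lib.MP_815ef6_nt.Ch
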