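import Pool.Agent.Lib.MP_815ef6_nt.CS.Fin3

/-! Functions on the line with three points removed and their three expansions. -/

namespace Pool.Agent.Lib.MP_815ef6_nt.Ch
open Finset LaurentPolynomial Matrix

/-- The ring `R[w, 1 / w, 1 / (1 - w)]`. -/
abbrev Lm (R : Type*) [CommRing R] := Localization.Away (1 - T 1 : R[T;T⁻¹])

/-- The three ends: `some true` is `w = 0`, `some false` is `w = ∞`, `none` is `w = 1`. -/
abbrev En := Option Bool

/-- The side of an end. -/
def sd : En → Bool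
  | none => true
  | some b => b

section
variable {R R' : Type*} [CommRing R] [CommRing R'] {ι ι' : Type*} [Fintype ι] [DecidableEq ι]
  [Fintype ι'] [DecidableEq ι']

/-- Laurent polynomials in `w`. -/
noncomputable def jo : R[T;T⁻¹] →+* Lm R := algebraMap _ _

/-- Constants. -/
noncomputable def cL : R →+* Lm R := jo.comp C

/-- The function `1 / (1 - w)`. -/
noncomputable def iv : Lm R := IsLocalization.Away.invSelf (1 - T 1 : R[T;T⁻¹])

theorem jo_iv : jo (1 - T 1) * (iv : Lm R) = 1 := IsLocalization.Away.mul_invSelf _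

/-- Homomorphisms from the ring. -/
noncomputable def lf {Λ : Type*} [CommRing Λ] (g : R[T;T⁻¹] →+* Λ) (h : IsUnit (g (1 - T 1))) :
    Lm R →+* Λ := IsLocalization.Away.lift _ h

theorem lf_jo {Λ : Type*} [CommRing Λ] (g : R[T;T⁻¹] →+* Λ) (h : IsUnit (g (1 - T 1)))
    (f : R[T;T⁻¹]) : lf g h (jo f) = g f := IsLocalization.Away.lift_eq _ h f

/-- Laurent polynomials in `1 - w`. -/
noncomputable def s0 : R[T;T⁻¹] →+* Lm R :=
  eval₂ cL ⟨jo (1 - T 1), iv, jo_iv, by rw [mul_comm, jo_iv]⟩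

theorem s0_C (c : R) : s0 (C c) = cL c := eval₂_C _ _ _

theorem s0_T : s0 (T 1 : R[T;T⁻¹]) = jo (1 - T 1) := by rw [s0, eval₂_T, zpow_one]

theorem s0_one_sub : s0 (1 - T 1 : R[T;T⁻¹]) = jo (T 1) := by
  rw [map_sub, s0_T, map_sub, map_one, map_one, sub_sub_cancel]

/-- The involution `w ↦ 1 - w`. -/
noncomputable def sw : Lm R →+* Lm R := lf s0 (s0_one_sub (R := R) ▸ (isUnit_T 1).map jo)

/-- The expansions at `0` and at infinity. -/
noncomputable def e0 (b : Bool) : Lm R →+* Ls R :=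
  lf (io b) (let ⟨u, h, _⟩ := exists_inv_one_sub (R := R) b; IsUnit.of_mul_eq_one_right u h)

/-- The expansions at the three ends. -/
noncomputable def ex : En → Lm R →+* Ls R
  | none => (e0 true).comp sw
  | some b => e0 b

/-- Laurent polynomials in the coordinate of an end. -/
noncomputable def je : En → R[T;T⁻¹] →+* Lm R
  | none => s0
  | some _ => jo

/-- Change of the coefficients. -/
noncomputable def ml (φ : R →+* R') : Lm R →+* Lm R' :=
  lf (jo.comp (mp φ)) (by
    rw [RingHom.comp_apply, map_sub, map_one, mp_T]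
    exact IsUnit.of_mul_eq_one _ jo_iv)

/-- The derivation `w d/dw`. -/
noncomputable def tl (f : Lm R) : Lm R :=
  let x := IsLocalization.Away.sec (1 - T 1 : R[T;T⁻¹]) f
  jo (th x.1) * iv ^ x.2 + (x.2 : Lm R) * jo (T 1 * x.1) * iv ^ (x.2 + 1)

/-- The ratio of the derivations. -/
noncomputable def ro : En → Lm R
  | none => jo (1 - T (-1))
  | some _ => 1

/-- The derivations at the ends. -/
noncomputable def te (e : En) (f : Lm R) : Lm R := ro e * tl f

/-- The defect of `Ψ x ^ K` as a solution of `w dY/dw = A Y` at the end `e`. -/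
noncomputable def dfe (e : En) (A : Matrix ι ι (Lm R)) (K : ι' → R) (Ψ : Matrix ι ι' (Ls R)) :
    Matrix ι ι' (Ls R) :=
  gf (dS (sd e)) 1 (((ro e : Lm R) • A).map (ex e)) (diagonal fun i => cS (K i)) Ψ

/-- The expansions at the ends are units modulo `s`. -/
def Un3 (s : R) (f : Lm R) : Prop := ∀ e, ∃ g, cS s ∣ ex e f * g - 1

/-- The twisted normal form `w dY/dw = (μ + (u v - c w) / (1 - w)) Y`. -/
noncomputable def mT (μ u v : ι → R) (c : R) : Matrix ι ι (Lm R) :=
  (iv : Lm R) • (mA μ u v - (C c * T 1 : R[T;T⁻¹]) • (1 : Matrix ι ι R[T;T⁻¹])).map jo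

/-- The `p`-curvature vanishes for large `p`, inside the ring. -/
def ML (A : Matrix ι ι (Lm R)) : Prop :=
  ∃ p₀ : ℕ, ∀ p : ℕ, p.Prime → p₀ ≤ p → Dd (p : Lm R) (Am tl 1 A p)

end

/-- Functions with coefficients in `S`. -/
noncomputable def LL (S : Subring ℂ) : Subring (Lm ℂ) := (ml S.subtype).range

/-- The `p`-curvature vanishes for almost all `p`. -/
def MDL {ι : Type*} [Fintype ι] [DecidableEq ι] (A : Matrix ι ι (Lm ℂ)) : Prop :=
  ∃ (F : Finset ℂ) (p₀ : ℕ), ∀ p : ℕ, p.Prime → p₀ ≤ p → ∀ i j,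
    ∃ y ∈ LL (cl F), Am tl 1 A p i j = p * y

/-- The complex system of a rational normal form. -/
noncomputable abbrev mTC {ι : Type*} [Fintype ι] [DecidableEq ι] (μ u v : ι → ℚ) (c : ℚ) :
    Matrix ι ι (Lm ℂ) := mT (fun i => (μ i : ℂ)) (fun i => (u i : ℂ)) (fun i => (v i : ℂ)) c

end Pool.Agent.Lib.MP_815ef6_nt.Ch
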