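import Pool.Agent.Lib.MP_815ef6_nt.CT.Tre

/-! The existence of the tree. -/

namespace Pool.Agent.Lib.MP_815ef6_nt.Ch
open Finset

variable {M : ℕ} {W : ValuationSubring ℂ}

theorem Tre2_const (V : ValuationSubring ℂ) (hV : ∀ q : ℚ, (q : ℂ) ∈ V) {r : ℕ} {x : Fin r → ℂ}
    (hx : ∀ i, V.valuation (x i) < 1) (f : MvPolynomial (Fin r) ℚ)
    (h : MvPolynomial.aeval x f = 0) : MvPolynomial.constantCoeff f = 0 := by
  have hq : ∀ q : ℚ, V.valuation (q : ℂ) ≤ 1 := fun q => (V.valuation_le_one_iff _).2 (hV q)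
  have key : ∀ f : MvPolynomial (Fin r) ℚ,
      V.valuation (MvPolynomial.aeval x f - (MvPolynomial.constantCoeff f : ℚ)) < 1 := fun f => by
    induction f using MvPolynomial.induction_on with
    | C a => simp
    | add f g hf hg =>
      rw [map_add, map_add, Rat.cast_add, add_sub_add_comm]
      exact V.valuation.map_add_lt hf hg
    | mul_X f i hf =>
      rw [map_mul, map_mul, MvPolynomial.constantCoeff_X, mul_zero, Rat.cast_zero, sub_zero,
        MvPolynomial.aeval_X, map_mul]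
      refine mul_lt_one_of_nonneg_of_lt_one_right ?_ zero_le (hx i)
      rw [← sub_add_cancel (MvPolynomial.aeval x f) (MvPolynomial.constantCoeff f : ℚ)]
      exact V.valuation.map_add_le hf.le (hq _)
  by_contra h0
  have h1 := key f
  rw [h, zero_sub, Valuation.map_neg] at h1
  have h2 := mul_lt_one_of_nonneg_of_lt_one_right (hq (MvPolynomial.constantCoeff f)⁻¹) zero_le h1
  rw [← map_mul, ← Rat.cast_mul, inv_mul_cancel₀ h0, Rat.cast_one, map_one] at h2
  exact h2.false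

theorem val_of (V : ValuationSubring ℂ) (hV : ∀ q : ℚ, (q : ℂ) ∈ V) (G : Finset ℂ) :
    ∃ (k : Subfield ℂ) (u : ℂ) (W : ValuationSubring ℂ), Transcendental k u ∧
      (∀ x : ℂ, IsAlgebraic (frA k u) x) ∧ (∀ c ∈ k, c ∈ W) ∧ u⁻¹ ∉ W ∧
      ∀ y ∈ G, V.valuation y < 1 → W.valuation y < 1 := by
  classical
  let G' := G.filter fun y => y ≠ 0 ∧ V.valuation y < 1
  let x : Fin G'.card → ℂ := fun i => G'.equivFin.symm i
  have hx0 : ∀ i, x i ≠ 0 ∧ V.valuation (x i) < 1 := fun i => (mem_filter.1 (G'.equivFin.symm i).2).2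
  obtain ⟨K, u, hu, hx⟩ := exists_van x (fun j => (hx0 j).1) (Tre2_const V hV fun j => (hx0 j).2)
  obtain ⟨k, hK, hk, alg⟩ := exists_base K hu
  have le : (Algebra.adjoin k {u}).toSubring ≤ frA k u := by
    rw [Algebra.adjoin_eq_ring_closure, Subring.closure_le]
    rintro y (⟨c, rfl⟩ | rfl)
    exacts [fr_k c.2, fr_t]
  obtain ⟨W, h1, h2⟩ := Ideal.image_subset_nonunits_valuationSubring
    (Ideal.span {(⟨u, fr_t⟩ : frA k u)}) fun e => vz_unit hk (Ideal.span_singleton_eq_top.1 e)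
  have h3 : W.valuation u < 1 := W.mem_nonunits_iff.1 (h2 ⟨_, Ideal.subset_span rfl, rfl⟩)
  refine ⟨k, u, W, hk, fun x => (alg x).ringHom_of_comp_eq (Subring.inclusion le) (RingHom.id ℂ)
    (Subring.inclusion_injective le) rfl, fun c hc => h1 (fr_k hc),
    vr_not (fun e => hk (e ▸ isAlgebraic_zero)) h3, fun y hy hv => ?_⟩
  rcases eq_or_ne y 0 with rfl | y0
  · simp
  obtain ⟨j, rfl⟩ : ∃ j, x j = y := ⟨G'.equivFin ⟨y, mem_filter.2 ⟨hy, y0, hv⟩⟩, by simp [x]⟩
  obtain ⟨d, b, hb, e⟩ := fr_van hK hk (hx j)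
  have k1 : x j ∈ W := vr_int h1 (fr_int (fun i => Subring.mul_mem _ fr_t (hb i)) e)
  have k2 : W.valuation (x j ^ d) < 1 := by
    rw [e]
    simp only [mul_assoc, ← mul_sum]
    exact vr_mul h3 (sum_mem fun i _ => mul_mem (h1 (hb i)) (pow_mem k1 i))
  rw [map_pow] at k2
  exact lt_of_not_ge fun h => k2.not_ge (one_le_pow₀ h)

theorem bin_of (V : ValuationSubring ℂ) (hV : ∀ q : ℚ, (q : ℂ) ∈ V) {S : Finset ℂ} (h : Bin V S) :
    ∃ (k : Subfield ℂ) (u : ℂ) (W : ValuationSubring ℂ), Transcendental k u ∧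
      (∀ x : ℂ, IsAlgebraic (frA k u) x) ∧ (∀ c ∈ k, c ∈ W) ∧ u⁻¹ ∉ W ∧ Bin W S := by
  classical
  obtain ⟨k, u, W, h1, h2, h3, h4, h5⟩ := val_of V hV
    ((S ×ˢ S ×ˢ S).image fun p => (p.1 - p.2.1) / (p.1 - p.2.2))
  refine ⟨k, u, W, h1, h2, h3, h4, fun a ha b hb c hc hab e1 e2 => ?_⟩
  have key : ∀ p ∈ S, ∀ q ∈ S, ∀ r ∈ S, V.valuation (p - q) < V.valuation (p - r) →
      W.valuation (p - q) < W.valuation (p - r) := fun p hp q hq r hr l => by
    have l0 : 0 < V.valuation (p - r) := zero_le.trans_lt l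
    have l1 : 0 < W.valuation (p - r) :=
      zero_lt_iff.2 ((Valuation.ne_zero_iff _).2 ((Valuation.ne_zero_iff _).1 l0.ne'))
    have := h5 _ (mem_image_of_mem _ (show (p, q, r) ∈ S ×ˢ S ×ˢ S from
      mem_product.2 ⟨hp, mem_product.2 ⟨hq, hr⟩⟩)) (by rwa [map_div₀, div_lt_one₀ l0])
    rwa [map_div₀, div_lt_one₀ l1] at this
  have key' : ∀ p ∈ S, ∀ q ∈ S, ∀ r ∈ S, W.valuation (p - q) = W.valuation (p - r) →
      V.valuation (p - q) = V.valuation (p - r) := fun p hp q hq r hr l =>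
    le_antisymm (le_of_not_gt fun l' => (key p hp r hr q hq l').ne' l)
      (le_of_not_gt fun l' => (key p hp q hq r hr l').ne l)
  refine h a ha b hb c hc hab ?_ (key' a ha b hb c hc e2)
  rw [Valuation.map_sub_swap] at e1 ⊢
  exact key' b hb a ha c hc e1

open Classical in
theorem Tre2_ins {S : Finset ℂ} (h : Bin W S) {y : ℂ} (hy : ∀ b ∈ S, ∀ c ∈ S, b ≠ c →
    W.valuation (y - b) = W.valuation (b - c) → W.valuation (y - c) ≠ W.valuation (b - c)) :
    Bin W (insert y S) := fun a ha b hb c hc hab e1 e2 => by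
  have h0 : W.valuation (a - b) ≠ 0 := (Valuation.ne_zero_iff _).2 (sub_ne_zero.2 hab)
  have hbc : b ≠ c := fun e => h0 (by rw [e1, e, sub_self, map_zero])
  have hac : a ≠ c := fun e => h0 (by rw [e2, e, sub_self, map_zero])
  rcases mem_insert.1 ha with rfl | ha'
  · exact hy b ((mem_insert.1 hb).resolve_left hab.symm) c ((mem_insert.1 hc).resolve_left hac.symm)
      hbc e1 (e2.symm.trans e1)
  rcases mem_insert.1 hb with rfl | hb'
  · exact hy a ha' c ((mem_insert.1 hc).resolve_left hbc.symm) hac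
      ((Valuation.map_sub_swap _ _ _).trans e2) (e1.symm.trans e2)
  rcases mem_insert.1 hc with rfl | hc'
  · exact hy a ha' b hb' hab ((Valuation.map_sub_swap _ _ _).trans e2.symm)
      ((Valuation.map_sub_swap _ _ _).trans e1.symm)
  · exact h a ha' b hb' c hc' hab e1 e2

theorem enlarge (h2 : W.valuation 2 = 1) {S : Finset ℂ} (h : Bin W S) (B : Finset ℂ) :
    ∃ S' : Finset ℂ, S ⊆ S' ∧ Bin W S' ∧ 2 ≤ S'.card ∧ ∀ y ∈ B, y ∈ S' ∨ ∃ a ∈ S', ∃ a' ∈ S', a ≠ a' ∧
      W.valuation (y - a) = W.valuation (a - a') ∧ W.valuation (y - a') = W.valuation (a - a') := by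
  classical
  induction B using Finset.induction_on with
  | empty =>
    rcases le_or_gt 2 S.card with l | l
    · exact ⟨S, Subset.rfl, h, l, fun y hy => absurd hy (notMem_empty y)⟩
    obtain ⟨a, ha⟩ := card_le_one_iff_subset_singleton.1 (Nat.lt_succ_iff.1 l)
    refine ⟨{a + 1, a}, ha.trans (subset_insert _ _), ?_, (card_pair (by simp)).ge,
      fun y hy => absurd hy (notMem_empty y)⟩
    have := Tre2_ins (W := W) (S := {a}) (y := a + 1)
      (fun p hp q hq _ _ e => (e ((mem_singleton.1 hp).trans (mem_singleton.1 hq).symm)).elim)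
      fun p hp q hq e => (e ((mem_singleton.1 hp).trans (mem_singleton.1 hq).symm)).elim
    convert this
  | insert y B _ ih =>
    obtain ⟨S', k1, k2, k3, k4⟩ := ih
    by_cases hy : y ∈ S' ∨ ∃ a ∈ S', ∃ a' ∈ S', a ≠ a' ∧
      W.valuation (y - a) = W.valuation (a - a') ∧ W.valuation (y - a') = W.valuation (a - a')
    · exact ⟨S', k1, k2, k3, forall_mem_insert _ _ _ |>.2 ⟨hy, k4⟩⟩
    rw [not_or] at hy
    have hy2 : ∀ b ∈ S', ∀ c ∈ S', b ≠ c → W.valuation (y - b) = W.valuation (b - c) →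
        W.valuation (y - c) ≠ W.valuation (b - c) := fun b hb c hc e e1 e2 =>
      hy.2 ⟨b, hb, c, hc, e, e1, e2⟩
    obtain ⟨a, ha, hm⟩ := exists_min_image S' (fun b => W.valuation (y - b))
      (card_pos.1 (by omega))
    have hya : y ≠ a := fun e => hy.1 (e ▸ ha)
    have e1 : W.valuation (2 * y - a - a) = W.valuation (y - a) := by
      rw [show 2 * y - a - a = 2 * (y - a) by ring, map_mul, h2, one_mul]
    have e2 : ∀ b ∈ S', W.valuation (2 * y - a - b) = W.valuation (y - b) := fun b hb => by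
      rcases (hm b hb).lt_or_eq with l | l
      · rw [show 2 * y - a - b = (y - a) + (y - b) by ring]
        exact W.valuation.map_add_eq_of_lt_right l
      rcases eq_or_ne a b with rfl | hab
      · exact e1
      have l1 : W.valuation (a - b) ≤ W.valuation (y - a) := by
        rw [show a - b = (y - b) - (y - a) by ring]
        exact W.valuation.map_sub_le l.ge le_rfl
      have l2 : W.valuation (a - b) < W.valuation (2 * y - a - a) := by
        rw [e1]
        exact l1.lt_of_ne fun e => hy2 a ha b hb hab e.symm (l.symm.trans e.symm)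
      rw [show 2 * y - a - b = (2 * y - a - a) + (a - b) by ring,
        W.valuation.map_add_eq_of_lt_left l2, e1]
      exact l
    refine ⟨insert (2 * y - a) S', k1.trans (subset_insert _ _), ?_,
      k3.trans (card_le_card (subset_insert _ _)), forall_mem_insert _ _ _ |>.2 ⟨Or.inr
        ⟨a, mem_insert_of_mem ha, 2 * y - a, mem_insert_self _ _,
          fun e => hya (by linear_combination (-1 / 2 : ℂ) * e), ?_, ?_⟩, fun z hz => ?_⟩⟩
    · have := Tre2_ins k2 (y := 2 * y - a) fun b hb c hc e => by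
        rw [e2 b hb, e2 c hc]
        exact hy2 b hb c hc e
      convert this
    · rw [W.valuation.map_sub_swap a, e1]
    · rw [W.valuation.map_sub_swap a, e1, W.valuation.map_sub_swap y,
        show 2 * y - a - y = y - a by ring]
    · exact (k4 z hz).imp mem_insert_of_mem fun ⟨b, hb, c, hc, e⟩ =>
        ⟨b, mem_insert_of_mem hb, c, mem_insert_of_mem hc, e⟩

theorem tree (V : ValuationSubring ℂ) (hV : ∀ q : ℚ, (q : ℂ) ∈ V) {S : Finset ℂ} (h : Bin V S)
    (β : Fin M → ℂ) : ∃ (U : Type) (_ : Finite U) (_ : Nonempty U) (c x : U → ℂ)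
      (I : U → En → Finset (Fin M)) (N : U × En → U × En → Prop) (t : ℂ), Cb β S c x I N ∧
        ∀ F : Finset ℂ, ∃ O, Frame O t ∧ (∀ y ∈ F, ∃ e : ℕ, t ^ e * y ∈ O) ∧ Tr O t β c x I N := by
  classical
  obtain ⟨k, u, W, hk, hy, h1, h2, h3⟩ := bin_of V hV h
  have v2 : W.valuation 2 = 1 := by
    have a1 : W.valuation 2 ≤ 1 := (W.valuation_le_one_iff _).2 (ofNat_mem W 2)
    have a2 : W.valuation 2⁻¹ ≤ 1 :=
      (W.valuation_le_one_iff _).2 (h1 _ (inv_mem (ofNat_mem k 2)))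
    rw [map_inv₀, inv_le_one₀ (zero_lt_iff.2 ((Valuation.ne_zero_iff _).2 two_ne_zero))] at a2
    exact le_antisymm a1 a2
  obtain ⟨S', s1, s2, s3, s4⟩ := enlarge v2 h3 (univ.image β)
  obtain ⟨U, hU, hU', c, x, N, cb, sm⟩ := tree_val s1 s2 s3 (β := β) fun l =>
    s4 _ (mem_image_of_mem _ (mem_univ l))
  have := Fintype.ofFinite U
  obtain ⟨t, ht⟩ := spn2_par hk hy h1 h2
    ((univ.image fun p : Fin M × U × En =>
      (β p.1 - pe (c p.2.1) (x p.2.1) p.2.2) / ye (x p.2.1) p.2.2) ∪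
    ((univ.image fun p : Fin M × U × En =>
      ye (x p.2.1) p.2.2 / (β p.1 - pe (c p.2.1) (x p.2.1) p.2.2)) ∪
    univ.image fun p : (U × En) × U × En => ye (x p.1.1) p.1.2 / ye (x p.2.1) p.2.2))
  refine ⟨U, hU, hU', c, x, _, N, t, cb, fun F => ?_⟩
  obtain ⟨O, o1, o2, o3⟩ := ht F
  have vy : ∀ j e, W.valuation (ye (x j) e) = W.valuation (x j) := fun j e => by
    cases e with
    | none => exact W.valuation.map_neg _
    | some _ => rfl
  have p : ∀ j, 0 < W.valuation (x j) := fun j =>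
    zero_lt_iff.2 ((Valuation.ne_zero_iff _).2 (cb.x0 j))
  refine ⟨O, o1, o2, fun j e => ⟨fun l hl => ?_, fun l hl => ?_⟩, fun a b hab => ?_⟩
  · have o := o3 _ (mem_union_left _ (mem_image_of_mem _ (mem_univ (l, j, e))))
    rw [map_div₀, vy, div_lt_one₀ (p j), div_le_one₀ (p j)] at o
    have hl' := (mem_filter.1 hl).2
    split_ifs at hl' with hs
    · exact ⟨o.2 hl'.le, fun _ => o.1 hl'⟩
    · exact ⟨o.2 hl', fun e => (hs e).elim⟩
  · have o := o3 _ (mem_union_right _ (mem_union_left _ (mem_image_of_mem _ (mem_univ (l, j, e)))))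
    have hl' := fun l' => hl (mem_filter.2 ⟨mem_univ _, l'⟩)
    have l1 : W.valuation (x j) ≤ W.valuation (β l - pe (c j) (x j) e) := by
      split_ifs at hl' with hs
      · exact le_of_not_gt hl'
      · exact (lt_of_not_ge hl').le
    have l2 := (p j).trans_le l1
    rw [map_div₀, vy, div_lt_one₀ l2, div_le_one₀ l2] at o
    refine ⟨sub_ne_zero.1 ((Valuation.ne_zero_iff _).1 l2.ne'), o.2 l1, fun hs => o.1 ?_⟩
    rw [hs, if_neg Bool.false_ne_true] at hl'
    exact lt_of_not_ge hl'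
  · refine (o3 _ (mem_union_right _ (mem_union_right _ (mem_image_of_mem _
      (mem_univ (a, b)))))).1 ?_
    rw [map_div₀, vy, vy, div_lt_one₀ (p _)]
    exact sm a b hab

end Pool.Agent.Lib.MP_815ef6_nt.Ch
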