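import Pool.Agent.Lib.MP_815ef6_nt.CT.Top
import Pool.Agent.Lib.MP_815ef6_nt.CT.Tre2
import Pool.Agent.Lib.MP_815ef6_nt.CT.Bas

/-! The theorem for systems of rank two whose poles degenerate to a trivalent tree. -/

namespace Pool.Agent.Lib.MP_815ef6_nt.Ch
open Finset Polynomial Matrix Filter

theorem taylor_prod {M : ℕ} (β : Fin M → ℂ) (p : ℂ) :
    taylor p (∏ l, (X - C (β l))) = ∏ l, (X - C (β l - p)) := by
  rw [← taylorAlgHom_apply, map_prod]
  refine prod_congr rfl fun l _ => ?_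
  rw [taylorAlgHom_apply, map_sub, taylor_X, taylor_C, map_sub]
  ring

theorem bd_tree (V : ValuationSubring ℂ) (hV : ∀ q : ℚ, (q : ℂ) ∈ V) (S : Finset ℂ) (hS : Bin V S)
    {A : Matrix (Fin 2) (Fin 2) (RatFunc ℂ)} (hA : ∀ i j z, (A i j).denom.eval z = 0 → z ∈ S)
    (h : Dormant A) : Bd A := by
  classical
  obtain ⟨M, β, Q, qo, no, Ao, Wo, q1, q2, n0, W0, rt, rel, hp⟩ := base3 h
  obtain ⟨U, _, ⟨j₀⟩, c, x, I, N, t, cb, hF⟩ := tree V hV hS β
  set Δ : ℂ[X] := ∏ l, (X - C (β l)) with hΔ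
  have mo : ∀ p, taylor p Δ ≠ 0 := fun p => by
    rw [hΔ, taylor_prod]
    exact (monic_prod_of_monic _ _ fun x _ => monic_X_sub_C _).ne_zero
  let Z : ℂ → ℕ → ℂ[X] := fun p => Lz (taylor p Δ) (Pp Δ Q p)
  have rg : ∀ p i, (Z p i).natDegree ≤ M ∧ ∀ J : Finset (Fin M), (∀ l ∈ J, β l - p = 0) →
      (∀ l ∉ J, β l - p ≠ 0) → ∀ a < J.card, (Z p i).coeff a = 0 := fun p i => by
    have := (hp p).1
    simp only [Z]
    rw [show taylor p Δ = _ from taylor_prod β p] at this ⊢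
    exact reg3 this i
  choose F₀ p₀ h3 using fun p => dorm_all (mo p) (hp p).1
  have := Fintype.ofFinite U
  have hξ : ∀ (x : ℂ) (m : ℕ), ∃ ξ : ℂ, ξ ^ (m + 1) = x := fun x m =>
    IsAlgClosed.exists_pow_nat_eq x m.succ_pos
  choose ξ hξ using hξ
  obtain ⟨F, f1, f2, f3, f4, f5, f6, f7, f8⟩ := ((eventually_all.2 fun j => eventually_all.2 fun e =>
    LI_dm (β := β) (p := pe (c j) (x j) e) (I := I j e) (y := ye (x j) e)
      (h3 (pe (c j) (x j) e))).and ((eventually_all.2 fun l => ev_mem (β l)).and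
      ((eventually_all.2 fun i => eventually_all.2 fun k =>
      ev_poly (Ao i k)).and ((eventually_all.2 fun i => eventually_all.2 fun k =>
      ev_poly (Wo i k)).and (((ev_mem no.leadingCoeff).and (ev_mem no.leadingCoeff⁻¹)).and
      (((ev_mem Wo.det.leadingCoeff).and (ev_mem Wo.det.leadingCoeff⁻¹)).and
      ((eventually_all.2 fun j => (ev_mem (c j)).and ((ev_mem (x j)).and (ev_mem (x j)⁻¹))).and
      (eventually_all.2 fun j => eventually_all.2 fun e => (eventually_all_finset (range 2)).2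
        fun i _ => (eventually_all_finset (LE β c x I Z j e i).coeff.support).2 fun k _ =>
          ev_mem (ξ ((LE β c x I Z j e i).coeff k) (1 - i)))))))))).exists
  obtain ⟨O, H, m1, tr⟩ := hF F
  have m : ∀ {y}, y ∈ cl F → y ∈ Lo O H.mem := lo_cl H.mem m1
  obtain ⟨T, hT⟩ := St4.main (Y := Lz Δ Q) (Z := Z) (F := F)
    (p₀ := univ.sup fun a : U × En => p₀ (pe (c a.1) (x a.1) a.2)) ⟨H, cb, tr, taylor_prod β,
      fun p i => (rg p i).1, fun p i J h1 h2 => (rg p i).2 J (fun l hl => sub_eq_zero.2 (h1 l hl))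
        fun l hl => sub_ne_zero.2 (h2 l hl), m1, fun p hp h0 j e => f1 j e p hp
          ((le_sup (f := fun a : U × En => p₀ (pe (c a.1) (x a.1) a.2)) (mem_univ (j, e))).trans h0),
      fun j b i hi k hk => ⟨_, Nat.succ_sub hi ▸ hξ _ (1 - i),
        m (f8 j b i (mem_range.2 (by omega)) k hk)⟩⟩ ⟨fun _ => rfl, fun _ => rfl, fun _ => rfl⟩
    (fun l => m (f2 l)) (fun j => ⟨m (f7 j).1, m (f7 j).2.1, m (f7 j).2.2⟩) rel q1
    (fun y hy => let ⟨i, j, e⟩ := q2 y hy; hA i j y e) (fun i k c => m (f3 i k c))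
    (fun i k c => m (f4 i k c)) n0 ⟨m f5.1, m f5.2⟩ W0 ⟨m f6.1, m f6.2⟩ rt j₀
  exact (hp (c j₀)).2 (bd_of_rr (mo _) hT)

end Pool.Agent.Lib.MP_815ef6_nt.Ch
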