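import Pool.Agent.Lib.MP_815ef6_nt.CT.Nrm

/-! The lattice on a component with three ends. -/

namespace Pool.Agent.Lib.MP_815ef6_nt.Ch
open Finset LaurentPolynomial Matrix

variable {ι : Type*} [Fintype ι] [DecidableEq ι] {O : Subring ℂ} {t : ℂ} {M : ℕ} {β : Fin M → ℂ}
  {c x : ℂ} {I : En → Finset (Fin M)}

theorem gauss3 (H : Frame O t) {f : Lm O} (hf : ∀ s : O, Prime s → s ∣ ⟨t, H.mem⟩ → ¬ cL s ∣ f)
    {y : Lm ℂ} (h1 : y ∈ LL (Lo O H.mem)) (h2 : ml O.subtype f * y ∈ LL O) : y ∈ LL O := by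
  obtain ⟨N, g, rfl⟩ := rep f
  obtain ⟨M, y, hy, rfl⟩ := mem_LL.1 h1
  have k := mul_mem h2 (pow_mem (jo_mem.2 (sub_mem (one_mem _) (T_mem O 1))) (N + M))
  rw [map_mul, map_pow, ml_jo, ml_iv, mul_mul_mul_comm, ← map_mul, ← pow_add, Rg1_cancel,
    jo_mem] at k
  exact mem_LL.2 ⟨M, y, gauss H (fun s hs h e => hf s hs h ((map_dvd jo e).mul_right _)) hy k, rfl⟩

theorem Lat3_jo (H : Frame O t) {s : O} (hs : Prime s) (hd : s ∣ ⟨t, H.mem⟩) {f : O[T;T⁻¹]}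
    (h : cL s ∣ jo f) : C s ∣ f := by
  obtain ⟨ρ, hρ⟩ := H.res s hs hd
  rw [dvd_ml hρ, ml_jo, ← map_zero jo, jo_inj.eq_iff] at h
  exact dvd_iff.2 fun a => (hρ _).1 (by rw [← coeff_mp, h]; rfl)

theorem Lat3_lo (H : Frame O t) (f : Lm O) : ml O.subtype f ∈ LL (Lo O H.mem) :=
  LL_mono (Lat_le H) ⟨f, rfl⟩

theorem lattice3 (H : Frame O t) (x0 : x ≠ 0)
    (hx : c ∈ Lo O H.mem ∧ x ∈ Lo O H.mem ∧ x⁻¹ ∈ Lo O H.mem) (hβ : ∀ l, β l ∈ Lo O H.mem)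
    (ed : ∀ e, Ed O t β (pe c x e) (ye x e) (sd e) (I e)) {qo no wo : Polynomial ℂ} (q1 : qo.Monic)
    (q2 : ∀ y, qo.eval y = 0 → ∃ l, β l = y ∧
      (l ∉ I (some false) ∨ l ∈ I (some true) ∨ l ∈ I none)) (n0 : no ≠ 0)
    (n1 : no.leadingCoeff ∈ Lo O H.mem ∧ no.leadingCoeff⁻¹ ∈ Lo O H.mem) (w0 : wo ≠ 0)
    (w1 : wo.leadingCoeff ∈ Lo O H.mem ∧ wo.leadingCoeff⁻¹ ∈ Lo O H.mem)
    (rt : ∀ y, (no * wo).eval y = 0 → ∃ l, β l = y) {A W : Matrix ι ι ℂ[T;T⁻¹]}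
    (hA : ∀ i k, A i k ∈ LS (Lo O H.mem)) (hW : ∀ i k, W i k ∈ LS (Lo O H.mem))
    (hd : W.det = C x * T 1 * sa c x wo) {l : O[T;T⁻¹]} {Cm : Matrix ι ι O[T;T⁻¹]}
    (rel : Rel th (sa c x qo) A (mp O.subtype l) (Cm.map (mp O.subtype)) (sa c x no) W)
    (l0 : ∀ s : O, Prime s → s ∣ ⟨t, H.mem⟩ → ¬ C s ∣ l) :
    ∃ (δ n : Lm O) (A' W' : Matrix ι ι (Lm O)), Rel tl δ A' (jo l) (Cm.map jo) n W' ∧
      ∀ s : O, Prime s → s ∣ ⟨t, H.mem⟩ → cL s ∣ δ - 1 ∧ ¬ cL s ∣ n ∧ ¬ cL s ∣ W'.det := by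
  obtain ⟨g, g', Jq, dq, q', -, g1, g0, hJ, g3, eq, eq'⟩ := norm3 H x0 hx hβ ed q1.ne_zero
    (by rw [q1.leadingCoeff, inv_one]; exact ⟨one_mem _, one_mem _⟩) (G := False)
    fun y hy => (q2 y hy).imp fun l h => ⟨h.1, .inr h.2⟩
  obtain rfl : Jq = 0 := hJ.resolve_left id
  obtain ⟨κ, κ', Jn, dn, n', k1, k2, k3, -, hn, en, en'⟩ := norm3 H x0 hx hβ ed n0 n1 (G := True)
    fun y hy => (rt y (by rw [Polynomial.eval_mul, hy, zero_mul])).imp fun l h => ⟨h, .inl trivial⟩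
  obtain ⟨ω, ω', J, dW, w', -, w2, w3, -, hw, eW, eW'⟩ := norm3 H x0 hx hβ ed w0 w1 (G := True)
    fun y hy => (rt y (by rw [Polynomial.eval_mul, hy, mul_zero])).imp fun l h => ⟨h, .inl trivial⟩
  obtain ⟨W₁, E, u, f1, f2, f3, f4⟩ := fact_mat H J hW (d := C x * T 1 * w')
    (by rw [hd, eW, mul_left_comm])
  have g2 : g' * jo (sa c x qo) = ml O.subtype dq := by
    rw [eq, show mp O.subtype _ * q' = q' by simp, eq', ← mul_assoc, g0, one_mul]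
  have n2 : ∀ s : O, Prime s → s ∣ ⟨t, H.mem⟩ →
      ¬ cL s ∣ jo (Jn.map fun y => T 1 - C (y : O)).prod * dn := fun s hs h e =>
    lat2_nd H Jn (d := 1) isUnit_one hs h (by simp) (by
      rw [one_mul, mul_one]
      refine Lat3_jo H hs h ?_
      have := e.sub ((hn s hs h).mul_left (jo (Jn.map fun y => T 1 - C (y : O)).prod))
      rwa [mul_sub, sub_sub_cancel, mul_one] at this)
  have d2 : ∀ s : O, Prime s → s ∣ ⟨t, H.mem⟩ → ¬ cL s ∣ (W₁.map jo).det := fun s hs h e =>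
    lat2_nd H J (d := 1) (u.isUnit.map C) hs h (by simp) (by
      rw [mul_one, ← f3]
      rw [← RingHom.mapMatrix_apply, ← RingHom.map_det] at e
      exact Lat3_jo H hs h e)
  have n3 : κ' * jo (sa c x no) =
      ml O.subtype (jo (Jn.map fun y => T 1 - C (y : O)).prod * dn) := by
    rw [en, map_mul, en', map_mul, ml_jo, mul_left_comm, ← mul_assoc κ', k3, one_mul]
  generalize jo (Jn.map fun y => T 1 - C (y : O)).prod * dn = n at n2 n3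
  have t1 : (cL x⁻¹ * jo (T (-1)) * (cL x * jo (T 1)) : Lm ℂ) = 1 := by
    rw [mul_mul_mul_comm, ← map_mul, ← map_mul, ← T_add, inv_mul_cancel₀ x0, neg_add_cancel,
      T_zero, map_one, map_one, one_mul]
  have f5 : cL ((u : O) : ℂ) * (E.map jo).det = cL x * jo (T 1) * (ω * ml O.subtype dW) := by
    rw [← RingHom.mapMatrix_apply, ← RingHom.map_det, ← jo_C, ← map_mul, f4, map_mul, map_mul,
      eW', jo_C]
  have m0 : E.map jo ∈ (LL (Lo O H.mem)).matrix := fun i k => jo_mem.2 (f2 i k)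
  have R := lat2_nW dv_tl (lat2_qA (rel.map jo fun f => (tl_jo f).symm) g') κ'
  have mm : ∀ X : Matrix ι ι O[T;T⁻¹],
      (X.map (mp O.subtype)).map jo = (X.map jo).map (ml O.subtype) := fun X =>
    Matrix.ext fun i k => (ml_jo _ _).symm
  rw [g2, n3, f1, Matrix.map_mul, ← Matrix.mul_smul, mm, mm, ← ml_jo] at R
  generalize E.map jo = E' at f5 m0 R
  set E₂ := (κ * cL ((u : O) : ℂ) * (cL x⁻¹ * jo (T (-1))) * ω') • adjugate E' with hE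
  have e0 : κ' * (κ * cL ((u : O) : ℂ) * (cL x⁻¹ * jo (T (-1))) * ω' * E'.det) =
      ml O.subtype dW := by
    linear_combination (cL x⁻¹ * jo (T (-1))) * ω' * f5 + ml O.subtype dW * w3 +
      cL ((u : O) : ℂ) * (cL x⁻¹ * jo (T (-1))) * ω' * E'.det * k3 +
        ω' * ω * ml O.subtype dW * t1
  have e1 : (κ' • E') * E₂ = ml O.subtype dW • 1 := by
    rw [hE, Matrix.smul_mul, Matrix.mul_smul, mul_adjugate, smul_smul, smul_smul, mul_assoc, e0]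
  have m1 : κ' • E' ∈ (LL (Lo O H.mem)).matrix := lat2_sm k2 m0
  have m2 : E₂ ∈ (LL (Lo O H.mem)).matrix :=
    lat2_sm (mul_mem (mul_mem (mul_mem k1 (cL_mem (Lat_le H (u : O).2)))
      (mul_mem (cL_mem hx.2.2) (jo_mem.2 (T_mem _ _)))) w2) (lat2_adj m0)
  generalize κ' • E' = E₁ at e1 m1 R
  replace R := lat2_bas dv_tl R e1
  set A₁ := (ml O.subtype dq • E₁.map tl + E₁ * g' • A.map jo) * E₂ with hA1
  have m3 : A₁ ∈ (LL (Lo O H.mem)).matrix := mul_mem (add_mem (lat2_sm (Lat3_lo H _)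
    fun i k => tl_mem (m1 i k)) (mul_mem m1 (lat2_sm g1 fun i k => jo_mem.2 (hA i k)))) m2
  rw [← map_mul] at R
  have m4 : ∀ i k, A₁ i k ∈ LL O := fun i k => by
    have := lat2_int (S := LL O) (fun _ => tl_mem) R ⟨_, rfl⟩ ⟨_, rfl⟩ ⟨_, rfl⟩
      (fun _ _ => ⟨_, rfl⟩) (fun _ _ => ⟨_, rfl⟩) i k
    rw [← RingHom.mapMatrix_apply, ← RingHom.map_det] at this
    have a := mul_mem (Lat3_lo H (W₁.map jo).det) (m3 i k)
    exact gauss3 H d2 (m3 i k) (gauss3 H n2 a (gauss3 H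
      (fun s hs h e => l0 s hs h (Lat3_jo H hs h e)) (mul_mem (Lat3_lo H _) a) this))
  choose A' hA' using m4
  have hA2 : (of A').map (ml O.subtype) = A₁ := Matrix.ext hA'
  refine ⟨dW * dq, n, of A', W₁.map jo, lat2_inj _ (ml_inj O.subtype_injective) (ml_tl _)
    (hA2 ▸ R), fun s hs h => ⟨?_, n2 s hs h, d2 s hs h⟩⟩
  rw [show dW * dq - 1 = (dW - 1) * dq + (dq - 1) by ring]
  exact dvd_add ((hw s hs h).mul_right _) (g3 s hs h)

end Pool.Agent.Lib.MP_815ef6_nt.Ch
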