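import Pool.Agent.Lib.MP_815ef6_nt.CT.Rg3

/-! Stability of the vanishing of the `p`-curvature on the line with three points removed. -/

namespace Pool.Agent.Lib.MP_815ef6_nt.Ch
open Finset LaurentPolynomial Matrix

variable {ι : Type*} [Fintype ι] [DecidableEq ι]

theorem Am_ro {Λ : Type*} [CommRing Λ] {d : Λ → Λ} (hd : Dv d) {ρ : Λ} (h : d ρ = 1 - ρ) (q : Λ)
    (A : Matrix ι ι Λ) (k : ℕ) : Am (fun f => ρ * d f) q (ρ • A) k = ρ ^ k • Am d q A k := by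
  induction k with
  | zero => rw [pow_zero, one_smul]; rfl
  | succ k ih =>
    have e : ∀ M : Matrix ι ι Λ, M.map (fun f => ρ * d f) = ρ • M.map d := fun _ => rfl
    have := hd.pow ρ k
    rw [h] at this
    rw [Am, Am, ih, e, Am1_msmul hd, Matrix.smul_mul, Matrix.mul_smul]
    linear_combination (norm := module) (q * this) • Am d q A k

section
variable {R R' : Type*} [CommRing R] [CommRing R']

theorem Am_te (e : En) (q : Lm R) (A : Matrix ι ι (Lm R)) (k : ℕ) :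
    Am (te e) q ((ro e : Lm R) • A) k = (ro e : Lm R) ^ k • Am tl q A k := Am_ro dv_tl (tl_ro e) q A k

theorem MD2_pf {Λ Λ' : Type*} [CommRing Λ] [CommRing Λ'] {d : Λ → Λ} {d' : Λ' → Λ'} (φ : Λ →+* Λ')
    (h : ∀ x, φ (d x) = d' (φ x)) (m : ℕ) (f : Λ) : φ (pf d m f) = pf d' m (φ f) := by
  induction m with
  | zero => rfl
  | succ m ih => rw [pf, pf, map_sub, map_mul, h, ih, map_natCast]

theorem pf_tl_p {p : ℕ} (hp : p.Prime) (h0 : (p : R) = 0) (f : Lm R) : pf tl p f = 0 := by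
  refine ex_inj (some true) ?_
  rw [MD2_pf (ex (some true)) (ex_tl true), pf_dS_p hp h0, RingHom.map_zero]

theorem MD2_mod (A : Matrix ι ι (Lm R)) (p k : ℕ) : Dd (p : Lm R) (Am tl 1 A k) ↔
    Am tl 1 (A.map (ml (Ideal.Quotient.mk (Ideal.span {(p : R)})))) k = 0 := by
  rw [← map_natCast cL, Dd_ml (CmA_ker _)]
  generalize Ideal.Quotient.mk (Ideal.span {(p : R)}) = φ
  rw [Am_map (ml φ) (ml_tl φ), RingHom.map_one]

theorem MD2_gauge {p : ℕ} (hp : p.Prime) (h0 : (p : R) = 0) {A A' G : Matrix ι ι (Lm R)}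
    (h : gf tl 1 A A' G = 0) (hG : IsUnit G) : Am tl 1 A p = 0 ↔ Am tl 1 A' p = 0 := by
  rw [← hG.mul_left_eq_zero, Am_gauge_p dv_tl h hp (by rw [← map_natCast cL, h0, RingHom.map_zero])
    (pf_tl_p hp h0), hG.mul_right_eq_zero]

theorem ML.map {A : Matrix ι ι (Lm R)} (h : ML A) (φ : R →+* R') : ML (A.map (ml φ)) := by
  refine h.imp fun p₀ h p hp hle i j => ?_
  rw [← (ml φ).map_one, ← Am_map (ml φ) (ml_tl φ), ← map_natCast (ml φ)]
  exact map_dvd _ (h p hp hle i j)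

theorem ML.md {A : Matrix ι ι (Lm R)} (h : ML A) (ρ : R →+* ℂ)
    (fg : ∃ S : Finset ℂ, ∀ x, ρ x ∈ cl S) : MDL (A.map (ml ρ)) := by
  obtain ⟨S, hS⟩ := fg
  obtain ⟨p₀, h⟩ := h
  refine ⟨S, p₀, fun p hp hle i j => ?_⟩
  obtain ⟨g, e⟩ := h p hp hle i j
  refine ⟨_, ml_mem hS g, ?_⟩
  rw [← (ml ρ).map_one, ← Am_map (ml ρ) (ml_tl ρ), map_apply, e, RingHom.map_mul, map_natCast]

theorem ML.gauge {A A' G : Matrix ι ι (Lm R)} (h : gf tl 1 A A' G = 0) (hG : IsUnit G) :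
    ML A ↔ ML A' := by
  refine exists_congr fun p₀ => forall_congr' fun p => forall_congr' fun hp =>
    forall_congr' fun _ => ?_
  rw [MD2_mod, MD2_mod]
  have h0 := MDx_zero (B := R) p
  generalize Ideal.Quotient.mk (Ideal.span {(p : R)}) = φ
  refine MD2_gauge hp h0 ?_ (hG.map (ml φ).mapMatrix)
  rw [← (ml φ).map_one, RingHom.mapMatrix_apply, ← gf_map (ml φ) (ml_tl φ), h,
    Matrix.map_zero _ (ml φ).map_zero]

theorem MD2_tl : tl (jo (1 - T 1) : Lm R) = -jo (T 1) := by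
  have := th_CT (1 : R) 1
  rw [Int.cast_one, mul_one, map_one, one_mul] at this
  rw [tl_jo, Am1_sub dv_th, Am1_one dv_th, this, zero_sub, RingHom.map_neg]

theorem MD2_gf {Λ : Type*} [CommRing Λ] {d : Λ → Λ} (hd : Dv d) {u v w : Λ} (i : u * v = 1)
    (h : d u = -w) (A : Matrix ι ι Λ) (k : ℕ) :
    gf d 1 (A - (k * w * v) • (1 : Matrix ι ι Λ)) A (u ^ k • (1 : Matrix ι ι Λ)) = 0 ∧
      IsUnit (u ^ k • (1 : Matrix ι ι Λ)) := by
  have e := hd.pow u k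
  rw [h] at e
  constructor
  · rw [gf, Am1_msmul hd, Am1_mone hd]
    simp only [Matrix.mul_smul, Matrix.smul_mul, Matrix.mul_one, Matrix.one_mul]
    linear_combination (norm := module) (v * e - d (u ^ k) * i) • (1 : Matrix ι ι Λ)
  · rw [← Algebra.algebraMap_eq_smul_one]
    exact ((IsUnit.of_mul_eq_one _ i).pow k).map _

theorem ML.twist {A : Matrix ι ι (Lm R)} (h : ML A) {c : R}
    (hc : ∃ p₀ : ℕ, ∀ p : ℕ, p.Prime → p₀ ≤ p → ∃ k : ℕ, (p : R) ∣ c - k) :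
    ML (A - (cL c * jo (T 1) * iv : Lm R) • (1 : Matrix ι ι (Lm R))) := by
  obtain ⟨p₀, h⟩ := h
  obtain ⟨p₁, hc⟩ := hc
  refine ⟨max p₀ p₁, fun p hp hle => ?_⟩
  obtain ⟨k, hk⟩ := hc p hp (le_of_max_le_right hle)
  have H := (MD2_mod ..).1 (h p hp (le_of_max_le_left hle))
  have h0 := MDx_zero (B := R) p
  rw [← CmA_ker, map_sub, map_natCast, sub_eq_zero] at hk
  rw [MD2_mod]
  generalize Ideal.Quotient.mk (Ideal.span {(p : R)}) = φ at H hk ⊢
  rw [Am1_sb, Am1_smul, Matrix.map_one _ (ml φ).map_zero (ml φ).map_one, RingHom.map_mul,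
    RingHom.map_mul, ml_cL, ml_jo, ml_iv, mp_T, hk, map_natCast]
  exact (MD2_gf dv_tl jo_iv MD2_tl _ k).elim fun a b => (MD2_gauge hp h0 a b).2 H

theorem MD2_iff (A : Matrix ι ι R[T;T⁻¹]) (k : ℕ) :
    Am tl 1 ((iv : Lm R) • A.map jo) k = 0 ↔ Am th (1 - T 1) A k = 0 := by
  rw [← ((IsUnit.of_mul_eq_one _ (jo_iv (R := R))).pow k).smul_eq_zero, ← Am_scale dv_tl, mul_one,
    smul_smul, jo_iv, one_smul, ← Am_map (jo (R := R)) fun f => (tl_jo f).symm,
    ← Matrix.map_zero jo (jo (R := R)).map_zero]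
  exact (Matrix.map_injective jo_inj).eq_iff

theorem ML_iff {A : Matrix ι ι R[T;T⁻¹]} : ML ((iv : Lm R) • A.map jo) ↔ MB (1 - T 1) A := by
  refine exists_congr fun p₀ => forall_congr' fun p => forall_congr' fun hp =>
    forall_congr' fun _ => ?_
  rw [MD2_mod, MDx_mod, Am1_smul, ml_iv, RingHom.map_sub, RingHom.map_one, mp_T, ← MD2_iff]
  exact iff_of_eq (congrArg (fun M => Am tl 1 (iv • M) p = 0) (Matrix.ext fun _ _ => ml_jo _ _))

theorem ML.sw {A : Matrix ι ι (Lm R)} (h : ML A) : ML (((ro none : Lm R) • A).map sw) := by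
  refine h.imp fun p₀ h p hp hle i j => ?_
  rw [← (Ch.sw (R := R)).map_one, ← Am_map (Ch.sw (R := R)) sw_te, Am_te, ← map_natCast Ch.sw]
  exact map_dvd _ ((h p hp hle i j).mul_left _)

end

end Pool.Agent.Lib.MP_815ef6_nt.Ch
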