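import Pool.Agent.Lib.MP_815ef6_nt.CT.MD2

/-! Stability of the vanishing of the `p`-curvature on the line with three points removed. -/

namespace Pool.Agent.Lib.MP_815ef6_nt.Ch
open Finset LaurentPolynomial Matrix

variable {ι : Type*} [Fintype ι] [DecidableEq ι]

variable {A A' G E δ : Matrix ι ι (Lm ℂ)}

theorem MD3_lift {α β : Type*} [Finite α] [Finite β] (M : Matrix α β (Lm ℂ)) :
    ∀ᶠ S : Finset ℂ in Filter.atTop,
      ∃ B : Matrix α β (Lm (cl S)), B.map (ml (cl S).subtype) = M := by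
  filter_upwards [Filter.eventually_all.2 fun i => Filter.eventually_all.2 fun j => ev_LL (M i j)]
    with S hS
  choose B hB using hS
  exact ⟨B, Matrix.ext hB⟩

theorem MD3_inj (S : Subring ℂ) : Function.Injective (ml S.subtype) := ml_inj S.subtype_injective

theorem MD3_ml (h : MDL A) : ∀ᶠ S : Finset ℂ in Filter.atTop,
    ∀ B : Matrix ι ι (Lm (cl S)), B.map (ml (cl S).subtype) = A → ML B := by
  obtain ⟨F, p₀, h⟩ := h
  filter_upwards [Filter.eventually_ge_atTop F] with S hS B hB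
  refine ⟨p₀, fun p hp hle i j => ?_⟩
  obtain ⟨y, hy, e⟩ := h p hp hle i j
  obtain ⟨y', rfl⟩ := LL_mono (Subring.closure_mono (coe_subset.2 hS)) hy
  refine ⟨y', MD3_inj _ ?_⟩
  rw [map_mul, map_natCast, ← e, ← hB, ← map_one (ml (cl S).subtype), ← Am_map _ (ml_tl _),
    map_apply]

theorem MD3_md {S : Finset ℂ} {B : Matrix ι ι (Lm (cl S))} (h : ML B) :
    MDL (B.map (ml (cl S).subtype)) := h.md _ ⟨S, fun x => x.2⟩

theorem MDL.ml (h : MDL A) (F : Finset ℂ) : ∃ S : Finset ℂ, F ⊆ S ∧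
    ∃ B : Matrix ι ι (Lm (cl S)), B.map (ml (cl S).subtype) = A ∧ ML B := by
  obtain ⟨S, h1, ⟨B, h2⟩, h3⟩ :=
    ((Filter.eventually_ge_atTop F).and ((MD3_lift A).and (MD3_ml h))).exists
  exact ⟨S, h1, B, h2, h3 B h2⟩

theorem MDL.gauge (h : gf tl 1 A A' G = 0) (hG : IsUnit G) : MDL A ↔ MDL A' := by
  obtain ⟨G', hG'⟩ := hG.exists_right_inv
  have key : ∀ᶠ S : Finset ℂ in Filter.atTop, ∃ B B' : Matrix ι ι (Lm (cl S)),
      B.map (Ch.ml (cl S).subtype) = A ∧ B'.map (Ch.ml (cl S).subtype) = A' ∧ (ML B ↔ ML B') := by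
    filter_upwards [MD3_lift A, MD3_lift A', MD3_lift G, MD3_lift G'] with S ⟨B, e1⟩ ⟨B', e2⟩
      ⟨H, e3⟩ ⟨H', e4⟩
    refine ⟨B, B', e1, e2, ML.gauge (G := H) (Matrix.map_injective (MD3_inj _) ?_)
      (IsUnit.of_mul_eq_one H' (Matrix.map_injective (MD3_inj _) ?_))⟩
    · change (gf tl 1 B B' H).map _ = (0 : Matrix ι ι (Lm (cl S))).map _
      rw [gf_map _ (ml_tl _), map_one, e1, e2, e3, h, Matrix.map_zero _ (map_zero _)]
    · change (H * H').map _ = (1 : Matrix ι ι (Lm (cl S))).map _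
      rw [Matrix.map_mul, e3, e4, hG', Matrix.map_one _ (map_zero _) (map_one _)]
  refine ⟨fun H => ?_, fun H => ?_⟩
  · obtain ⟨S, ⟨B, B', e1, e2, k⟩, l⟩ := (key.and (MD3_ml H)).exists
    exact e2 ▸ MD3_md (k.1 (l B e1))
  · obtain ⟨S, ⟨B, B', e1, e2, k⟩, l⟩ := (key.and (MD3_ml H)).exists
    exact e1 ▸ MD3_md (k.2 (l B' e2))

theorem MDL.twist (h : MDL A) (c : ℚ) :
    MDL (A - (cL (c : ℂ) * jo (T 1) * iv : Lm ℂ) • (1 : Matrix ι ι (Lm ℂ))) := by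
  obtain ⟨S, ⟨B, rfl⟩, h1, h2, h3⟩ := ((MD3_lift A).and ((MD3_ml h).and
    ((ev_mem (c : ℂ)).and (ev_mem ((c.den : ℂ)⁻¹))))).exists
  have H := MD3_md ((h1 B rfl).twist (c := ⟨c, h2⟩) ⟨c.den + 1, fun p hp hle => ?_⟩)
  · convert H using 1
    ext i j
    by_cases e : i = j <;> simp [e, ml_cL, ml_jo, ml_iv]
  · obtain ⟨l, -, z, hz⟩ := lcA_ex hp c.den_pos hle c.num
    refine ⟨l, -(z * ⟨_, h3⟩), Subtype.ext ?_⟩
    have e : (c.den : ℂ) * l - c.num = p * z := by exact_mod_cast hz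
    have d : (c.den : ℂ) ≠ 0 := Nat.cast_ne_zero.2 c.den_ne_zero
    push_cast
    rw [Rat.cast_def]
    field_simp
    linear_combination -e

theorem MD3_end (h : MDL A) (e : En) {l : ℂ[T;T⁻¹]} {Cm : Matrix ι ι ℂ[T;T⁻¹]}
    (hC : je e l • (ro e : Lm ℂ) • A = Cm.map (je e)) : MD l Cm := by
  obtain ⟨F, p₀, h⟩ := h
  obtain ⟨S, h1, h2⟩ := ((Filter.eventually_ge_atTop F).and (ev_LL (je e l))).exists
  refine ⟨S, p₀, fun p hp hle i j a => ?_⟩
  obtain ⟨y, hy, k⟩ := h p hp hle i j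
  have p0 : (p : ℂ) ≠ 0 := Nat.cast_ne_zero.2 hp.ne_zero
  have e1 : (Am th l Cm p).map (je e) = je e l ^ p • (ro e : Lm ℂ) ^ p • Am tl 1 A p := by
    rw [Am_map (d' := te e) _ fun x => (te_je e x).symm, ← hC, ← Am_te, ← Am_scale (dv_te e),
      mul_one]
  have e2 : je e (C (p : ℂ)⁻¹ * Am th l Cm p i j) = je e l ^ p * (ro e ^ p * y) := by
    have e3 : je e (Am th l Cm p i j) = je e l ^ p * (ro e ^ p * Am tl 1 A p i j) :=
      congrFun₂ e1 i j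
    have e4 : (cL (p : ℂ)⁻¹ : Lm ℂ) * p = 1 := by
      rw [← map_natCast (cL : ℂ →+* Lm ℂ), ← map_mul, inv_mul_cancel₀ p0, map_one]
    rw [map_mul, je_C, e3, k]
    linear_combination (je e l ^ p * (ro e ^ p * y)) * e4
  have m : C (p : ℂ)⁻¹ * Am th l Cm p i j ∈ LS (cl S) := (je_mem e).1 (e2 ▸ mul_mem (pow_mem h2 _)
    (mul_mem (pow_mem (ro_mem _ e) _) (LL_mono (Subring.closure_mono (coe_subset.2 h1)) hy)))
  exact ⟨_, mem_LS.1 m a, by rw [coeff_C_mul, mul_inv_cancel_left₀ p0]⟩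

theorem MDL_iff {A : Matrix ι ι ℂ[T;T⁻¹]} : MDL ((iv : Lm ℂ) • A.map jo) ↔ MD (1 - T 1) A := by
  refine ⟨fun h => MD3_end h (some true) ?_, fun h => ?_⟩
  · change jo (1 - T 1) • (1 : Lm ℂ) • (iv : Lm ℂ) • A.map jo = A.map jo
    rw [one_smul, smul_smul, jo_iv, one_smul]
  · obtain ⟨S, -, q', B, e1, rfl, H⟩ := h.mb ∅
    obtain rfl : q' = 1 - T 1 := mp_inj _ (by rw [e1, map_sub, map_one, mp_T])
    convert MD3_md (ML_iff.2 H) using 1
    ext i j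
    simp [ml_jo, ml_iv]

theorem MDL.sw (h : MDL A) : MDL (((ro none : Lm ℂ) • A).map sw) := by
  obtain ⟨S, -, B, rfl, H⟩ := h.ml ∅
  convert MD3_md H.sw using 1
  ext i j
  simp only [map_apply, Matrix.smul_apply, smul_eq_mul, ml_sw, map_mul, ml_ro]

theorem MDL.md (h : MDL A) (e : En) {l : ℂ[T;T⁻¹]} {Cm : Matrix ι ι ℂ[T;T⁻¹]}
    (hC : je e l • (ro e : Lm ℂ) • A = Cm.map (je e)) : MD l Cm := by
  exact MD3_end h e hC

theorem MDL.shift (h : MDL (fromBlocks A E 0 A)) (δ : Matrix ι ι (Lm ℂ)) :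
    MDL (fromBlocks A (E - gf tl 1 A A δ) 0 A) := by
  have h0 : tl (0 : Lm ℂ) = 0 := by simpa using tl_cL (0 : ℂ)
  have h1 : (1 : Matrix ι ι (Lm ℂ)).map tl = 0 := by
    ext1 i j
    by_cases h : i = j
    · simpa [h] using tl_cL (1 : ℂ)
    · simp [h, h0]
  refine (MDL.gauge (G := fromBlocks 1 δ 0 1) ?_ ((isUnit_iff_isUnit_det _).2 (by simp))).1 h
  simp only [gf, fromBlocks_map, h1, Matrix.map_zero _ h0, fromBlocks_smul, fromBlocks_multiply,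
    sub_eq_add_neg, fromBlocks_neg, fromBlocks_add]
  rw [← fromBlocks_zero, fromBlocks_inj]
  refine ⟨by simp, ?_, by simp, by simp⟩
  simp only [Matrix.one_mul, Matrix.mul_one]
  abel

theorem Mdl.mdl {μ u v : ι → ℚ} (h : Mdl μ u v) (c : ℚ) : MDL (mTC μ u v c) := by
  rw [mTC, mT_eq]
  exact (MDL_iff.2 h.md).twist c

end Pool.Agent.Lib.MP_815ef6_nt.Ch
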