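import Pool.Agent.Lib.MP_815ef6_nt.CT.TrD

/-! Normalization of polynomials on a component. -/

namespace Pool.Agent.Lib.MP_815ef6_nt.Ch
open Finset LaurentPolynomial Matrix

variable {ι : Type*} [Fintype ι] [DecidableEq ι] {O : Subring ℂ} {t : ℂ} {M : ℕ} {β : Fin M → ℂ}
  {c x : ℂ} {I : En → Finset (Fin M)}

theorem sa_C (c x a : ℂ) : sa c x (Polynomial.C a) = C a := by
  exact Polynomial.eval₂_C _ _

theorem sa_X (c x : ℂ) : sa c x Polynomial.X = C c + C x * T 1 := by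
  exact Polynomial.eval₂_X _ _

theorem sa_eq (c x : ℂ) (f : Polynomial ℂ) : sa c x f = sc x (Polynomial.taylor c f) := by
  rw [Polynomial.taylor_apply]
  change _ = Polynomial.eval₂ C (C x * T 1) (f.comp _)
  rw [Polynomial.eval₂_comp, Polynomial.eval₂_add, Polynomial.eval₂_X, Polynomial.eval₂_C, add_comm]
  rfl

theorem th_sa (c x : ℂ) (f : Polynomial ℂ) :
    th (sa c x f) = C x * T 1 * sa c x (Polynomial.derivative f) := by
  rw [sa_eq, sa_eq, ← sc_dz, dz, map_mul, sc_X, Polynomial.taylor_apply, Polynomial.taylor_apply,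
    Polynomial.derivative_comp]
  simp

theorem je_sa (c x : ℂ) (e : En) (f : Polynomial ℂ) :
    je e (sa (pe c x e) (ye x e) f) = jo (sa c x f) := by
  cases e with
  | some b => rfl
  | none =>
    refine DFunLike.congr_fun (Polynomial.ringHom_ext (f := s0.comp (sa (c + x) (-x)))
      (g := jo.comp (sa c x)) (fun a => ?_) ?_) f
    · rw [RingHom.comp_apply, RingHom.comp_apply, sa_C, sa_C, s0_C, jo_C]
    · rw [RingHom.comp_apply, RingHom.comp_apply, sa_X, sa_X, map_add, map_mul, s0_C, s0_C, s0_T,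
        map_add, map_neg, map_sub, map_one, map_add, map_mul, jo_C, jo_C]
      ring

theorem je_ye (x : ℂ) (e : En) : je e (C (ye x e) * T 1) = ro e * jo (C x * T 1) := by
  cases e with
  | some b => exact (one_mul _).symm
  | none =>
    change s0 (C (-x) * T 1) = _
    rw [map_mul, s0_C, s0_T, map_mul, jo_C, mul_left_comm, ro_eq, map_neg]
    ring

theorem sa_mem {S : Subring ℂ} (hc : c ∈ S) (hx : x ∈ S) {f : Polynomial ℂ}
    (h : ∀ e, f.coeff e ∈ S) : sa c x f ∈ LS S := by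
  change Polynomial.eval₂ _ _ f ∈ _
  rw [Polynomial.eval₂_eq_sum, Polynomial.sum]
  exact sum_mem fun e _ => mul_mem (C_mem (h e))
    (pow_mem (add_mem (C_mem hc) (mul_mem (C_mem hx) (T_mem S 1))) e)

/-- The change of the derivation in a scalar equation of order two. -/
theorem rel_z {Λ : Type*} [CommRing Λ] {d : Λ → Λ} (hd : Dv d) {q n : Λ}
    {A W : Matrix (Fin 2) (Fin 2) Λ} {Z Z' : ℕ → Λ} (h : Rel d q A (Z 2) (cM 1 Z) n W) (z : Λ)
    (h0 : Z' 0 = z ^ 2 * Z 0) (h1 : Z' 1 = z * Z 1 - Z 2 * d z) (h2 : Z' 2 = Z 2) :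
    Rel (fun f => z * d f) q (z • A) (Z' 2) (cM 1 Z') n (diagonal ![1, z] * W) := by
  ext i j
  have k := congrFun (congrFun h i) j
  fin_cases i
  · simp [cM, Matrix.mul_apply, Fin.sum_univ_two, diagonal_apply, h2] at k ⊢
    linear_combination z * k
  · simp [cM, Matrix.mul_apply, Fin.sum_univ_two, diagonal_apply, h0, h1, h2, hd.mul] at k ⊢
    linear_combination z ^ 2 * k

/-- The shape of a normalized polynomial. -/
def NrmP (H : Frame O t) (G : Prop) (g : ℂ[T;T⁻¹]) : Prop :=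
  ∃ (κ κ' : Lm ℂ) (J : Multiset Oˣ) (d : Lm O) (d' : ℂ[T;T⁻¹]), κ ∈ LL (Lo O H.mem) ∧
    κ' ∈ LL (Lo O H.mem) ∧ κ' * κ = 1 ∧ (G ∨ J = 0) ∧
    (∀ s : O, Prime s → s ∣ ⟨t, H.mem⟩ → cL s ∣ d - 1) ∧
    g = mp O.subtype (J.map fun y : Oˣ => T 1 - C (y : O)).prod * d' ∧
      jo d' = κ * ml O.subtype d

theorem NrmP_mul (H : Frame O t) {G : Prop} {g g' : ℂ[T;T⁻¹]} (h : NrmP H G g)
    (h' : NrmP H G g') : NrmP H G (g * g') := by
  obtain ⟨κ, μ, J, d, e, h1, h2, h3, h4, h5, rfl, h6⟩ := h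
  obtain ⟨κ', μ', J', d', e', k1, k2, k3, k4, k5, rfl, k6⟩ := h'
  refine ⟨κ * κ', μ * μ', J + J', d * d', e * e', mul_mem h1 k1, mul_mem h2 k2,
    by rw [mul_mul_mul_comm, h3, k3, one_mul],
    h4.elim Or.inl fun a => k4.imp_right fun b => by rw [a, b, add_zero], fun s hs hd => ?_, ?_,
    by rw [map_mul, map_mul, h6, k6, mul_mul_mul_comm]⟩
  · rw [show d * d' - 1 = (d - 1) * d' + (d' - 1) by ring]
    exact ((h5 s hs hd).mul_right _).add (k5 s hs hd)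
  · simp only [Multiset.map_add, Multiset.prod_add, map_mul]
    ring

theorem NrmP_of (H : Frame O t) (G : Prop) {g : ℂ[T;T⁻¹]} {κ κ' : Lm ℂ}
    (h1 : κ ∈ LL (Lo O H.mem)) (h2 : κ' ∈ LL (Lo O H.mem)) (h3 : κ' * κ = 1) {y : ℂ}
    (h : Sm O t y) (u : Lm O) (hg : jo g = κ * (1 - cL y * ml O.subtype u)) : NrmP H G g := by
  refine ⟨κ, κ', 0, 1 - cL ⟨y, h.1⟩ * u, g, h1, h2, h3, Or.inr rfl, fun s hs hd => ?_, by simp,
    by rw [hg, map_sub, map_one, map_mul, ml_cL]; rfl⟩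
  rw [sub_sub_cancel_left]
  exact dvd_neg.2 ((map_dvd cL (Lat_sm H h hs hd)).mul_right _)

theorem norm3 (H : Frame O t) (x0 : x ≠ 0)
    (hx : c ∈ Lo O H.mem ∧ x ∈ Lo O H.mem ∧ x⁻¹ ∈ Lo O H.mem) (hβ : ∀ l, β l ∈ Lo O H.mem)
    (ed : ∀ e, Ed O t β (pe c x e) (ye x e) (sd e) (I e)) {f : Polynomial ℂ} (hf : f ≠ 0)
    (h1 : f.leadingCoeff ∈ Lo O H.mem ∧ f.leadingCoeff⁻¹ ∈ Lo O H.mem) {G : Prop}
    (h2 : ∀ y, f.eval y = 0 → ∃ l, β l = y ∧
      (G ∨ l ∉ I (some false) ∨ l ∈ I (some true) ∨ l ∈ I none)) :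
    ∃ (κ κ' : Lm ℂ) (J : Multiset Oˣ) (d : Lm O) (d' : ℂ[T;T⁻¹]), κ ∈ LL (Lo O H.mem) ∧
      κ' ∈ LL (Lo O H.mem) ∧ κ' * κ = 1 ∧ (G ∨ J = 0) ∧
      (∀ s : O, Prime s → s ∣ ⟨t, H.mem⟩ → cL s ∣ d - 1) ∧
      sa c x f = mp O.subtype (J.map fun y => T 1 - C (y : O)).prod * d' ∧
        jo d' = κ * ml O.subtype d := by
  have t1 : (T 1 * T (-1) : ℂ[T;T⁻¹]) = 1 := by rw [← T_add]; rfl
  have s0 : Sm O t 0 := ⟨zero_mem _, 1, 0, zero_mem _, by simp⟩
  have hC : ∀ a : ℂ, a ≠ 0 → a ∈ Lo O H.mem → a⁻¹ ∈ Lo O H.mem → NrmP H G (C a) :=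
    fun a a0 a1 a2 => NrmP_of H G (cL_mem a1) (cL_mem a2)
      (by rw [← map_mul, inv_mul_cancel₀ a0, map_one]) s0 0 (by rw [jo_C]; simp)
  simp only [Lat_coe]
  change NrmP H G (sa c x f)
  rw [← congrArg (sa c x) (Polynomial.C_leadingCoeff_mul_prod_multiset_X_sub_C
    (IsAlgClosed.card_roots_eq_natDegree (p := f))), map_mul, sa_C, map_multiset_prod]
  refine NrmP_mul H (hC _ (Polynomial.leadingCoeff_ne_zero.2 hf) h1.1 h1.2)
    (Multiset.prod_induction _ _ (fun _ _ => NrmP_mul H)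
      (by simpa using hC 1 one_ne_zero (one_mem _) (by rw [inv_one]; exact one_mem _)) ?_)
  simp only [Multiset.map_map, Multiset.mem_map, Function.comp]
  rintro _ ⟨r, hr, rfl⟩
  obtain ⟨l, rfl, hl⟩ := h2 r ((Polynomial.mem_roots hf).1 hr)
  rw [map_sub, sa_X, sa_C]
  have xx : (cL x⁻¹ * cL x : Lm ℂ) = 1 := by rw [← map_mul, inv_mul_cancel₀ x0, map_one]
  have tt : (jo (T 1) * jo (T (-1)) : Lm ℂ) = 1 := by rw [← map_mul, t1, map_one]
  have ii : ((1 - jo (T 1)) * iv : Lm ℂ) = 1 := by simpa only [map_sub, map_one] using jo_iv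
  have e0 : jo (C c + C x * T 1 - C (β l)) = cL x * jo (T 1) - cL (β l - c) := by
    rw [map_sub, map_add, map_mul, jo_C, jo_C, jo_C, map_sub]
    ring
  have e1 : (cL (β l - c) : Lm ℂ) = cL x * cL ((β l - c) / x) := by
    rw [← map_mul, mul_div_cancel₀ _ x0]
  by_cases c1 : l ∈ I (some true)
  · refine NrmP_of H G (κ := cL x * jo (T 1)) (κ' := cL x⁻¹ * jo (T (-1)))
      (mul_mem (cL_mem hx.2.1) (jo_mem.2 (T_mem _ _)))
      (mul_mem (cL_mem hx.2.2) (jo_mem.2 (T_mem _ _))) (by linear_combination xx + tt * (cL x⁻¹ * cL x))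
      (y := (β l - c) / x) (((ed (some true)).ins l c1).2 rfl) (jo (T (-1))) ?_
    rw [e0, e1, ml_jo, mp_T]
    linear_combination cL x * cL ((β l - c) / x) * tt
  by_cases c2 : l ∈ I none
  · refine NrmP_of H G (κ := -cL x * (1 - jo (T 1))) (κ' := -cL x⁻¹ * iv)
      (mul_mem (neg_mem (cL_mem hx.2.1)) (sub_mem (one_mem _) (jo_mem.2 (T_mem _ _))))
      (mul_mem (neg_mem (cL_mem hx.2.2)) (iv_mem _)) (by linear_combination xx + ii * (cL x⁻¹ * cL x))
      (y := (β l - (c + x)) / -x) (((ed none).ins l c2).2 rfl) iv ?_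
    have e2 : (cL (β l - c) : Lm ℂ) = cL x - cL x * cL ((β l - (c + x)) / -x) := by
      rw [← map_mul, ← map_sub]
      congr 1
      field_simp
      ring
    rw [e0, e2, ml_iv]
    linear_combination -(cL x * cL ((β l - (c + x)) / -x)) * ii
  by_cases c3 : l ∈ I (some false)
  · obtain ⟨n0, n1, -⟩ := (ed (some true)).out l c1
    have r0 : β l - c ≠ 0 := sub_ne_zero.2 n0
    refine ⟨cL x, cL x⁻¹, {⟨⟨_, ((ed (some false)).ins l c3).1⟩, ⟨_, n1⟩,
      Subtype.ext ((div_mul_div_cancel₀ x0).trans (div_self r0)),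
      Subtype.ext ((div_mul_div_cancel₀ r0).trans (div_self x0))⟩}, 1, C x, cL_mem hx.2.1,
      cL_mem hx.2.2, xx, Or.inl (by tauto), by simp, ?_, by rw [jo_C, map_one, mul_one]⟩
    have e3 : (C (β l) : ℂ[T;T⁻¹]) = C c + C x * C ((β l - c) / x) := by
      rw [← map_mul, mul_div_cancel₀ _ x0, ← map_add, add_sub_cancel]
    rw [Multiset.map_singleton, Multiset.prod_singleton, map_sub, mp_T, mp_C, e3]
    change _ = (T 1 - C ((β l - c) / x)) * C x
    ring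
  · obtain ⟨n0, n1, n2⟩ := (ed (some false)).out l c3
    have r0 : β l - c ≠ 0 := sub_ne_zero.2 n0
    have m1 : (β l - c)⁻¹ ∈ Lo O H.mem := by
      rw [show (β l - c)⁻¹ = x / (β l - c) * x⁻¹ by field_simp]
      exact mul_mem (Lat_le H n1) hx.2.2
    refine NrmP_of H G (κ := -cL (β l - c)) (κ' := -cL (β l - c)⁻¹)
      (neg_mem (cL_mem (sub_mem (hβ l) hx.1))) (neg_mem (cL_mem m1))
      (by rw [neg_mul_neg, ← map_mul, inv_mul_cancel₀ r0, map_one])
      (y := x / (β l - c)) (n2 rfl) (jo (T 1)) ?_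
    have e4 : (cL x : Lm ℂ) = cL (β l - c) * cL (x / (β l - c)) := by
      rw [← map_mul, mul_div_cancel₀ _ r0]
    rw [e0, ml_jo, mp_T]
    linear_combination jo (T 1) * e4

end Pool.Agent.Lib.MP_815ef6_nt.Ch
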