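import Pool.Agent.Lib.MP_815ef6_nt.CT.Def

/-! The ring of functions on the line with three points removed: basic properties. -/

namespace Pool.Agent.Lib.MP_815ef6_nt.Ch
open Finset LaurentPolynomial Matrix

section
variable {R R' R'' : Type*} [CommRing R] [CommRing R'] [CommRing R'']

theorem rep (f : Lm R) : ∃ (N : ℕ) (g : R[T;T⁻¹]), f = jo g * iv ^ N := by
  obtain ⟨N, g, h⟩ := IsLocalization.Away.surj (1 - T 1 : R[T;T⁻¹]) f
  refine ⟨N, g, ?_⟩
  have h' : f * jo (1 - T 1) ^ N = jo g := h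
  rw [← h', mul_assoc, ← mul_pow, jo_iv, one_pow, mul_one]

theorem Rg1_inv {Λ : Type*} [CommRing Λ] {a b c : Λ} (h : a * b = 1) (h' : a * c = 1) : b = c :=
  left_inv_eq_right_inv ((mul_comm b a).trans h) h'

theorem Rg1_ext {Λ : Type*} [CommRing Λ] {φ ψ : R[T;T⁻¹] →+* Λ} (h1 : ∀ c, φ (C c) = ψ (C c))
    (h2 : φ (T 1) = ψ (T 1)) (f : R[T;T⁻¹]) : φ f = ψ f := by
  have hT : ∀ n : ℕ, φ (T n) = ψ (T n) := fun n => by
    rw [← mul_one (n : ℤ), ← T_pow, map_pow, map_pow, h2]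
  induction f using LaurentPolynomial.induction_on' with
  | add p q hp hq => rw [map_add, map_add, hp, hq]
  | C_mul_T n a =>
    rw [map_mul, map_mul, h1]
    obtain ⟨m, rfl | rfl⟩ := n.eq_nat_or_neg
    · rw [hT]
    · rw [Rg1_inv (a := φ (T m)) (b := φ (T (-m))) (c := ψ (T (-m)))
        (by rw [← map_mul, ← T_add, add_neg_cancel, T_zero, map_one])
        (by rw [hT, ← map_mul, ← T_add, add_neg_cancel, T_zero, map_one])]

theorem lm_ext {Λ : Type*} [CommRing Λ] {φ ψ : Lm R →+* Λ} (h1 : ∀ c, φ (cL c) = ψ (cL c))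
    (h2 : φ (jo (T 1)) = ψ (jo (T 1))) (f : Lm R) : φ f = ψ f := by
  have h3 : ∀ g, φ (jo g) = ψ (jo g) := Rg1_ext (φ := φ.comp jo) (ψ := ψ.comp jo) h1 h2
  have h4 : φ iv = ψ iv := Rg1_inv (a := φ (jo (1 - T 1))) (by rw [← map_mul, jo_iv, map_one])
    (by rw [h3, ← map_mul, jo_iv, map_one])
  obtain ⟨N, g, rfl⟩ := rep f
  rw [map_mul, map_mul, map_pow, map_pow, h3, h4]

theorem jo_C (c : R) : jo (C c) = cL c := rfl

theorem je_C (e : En) (c : R) : je e (C c) = cL c := by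
  cases e
  exacts [s0_C c, rfl]

theorem sw_jo (f : R[T;T⁻¹]) : sw (jo f) = s0 f := by
  exact lf_jo _ _ f

theorem sw_s0 (f : R[T;T⁻¹]) : sw (s0 f) = jo f := by
  refine Rg1_ext (φ := sw.comp s0) (ψ := jo) (fun c => ?_) ?_ f
  · rw [RingHom.comp_apply, s0_C, ← jo_C, sw_jo, s0_C, jo_C]
  · rw [RingHom.comp_apply, s0_T, sw_jo, s0_one_sub]

theorem sw_cL (c : R) : sw (cL c) = cL c := by
  rw [← jo_C, sw_jo, s0_C, jo_C]

theorem sw_iv : sw (iv : Lm R) = jo (T (-1)) := by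
  refine Rg1_inv (a := jo (T 1)) ?_ ?_
  · rw [← s0_one_sub, ← sw_jo, ← map_mul, jo_iv, map_one]
  · rw [← map_mul, ← T_add, add_neg_cancel, T_zero, map_one]

theorem sw_sw (f : Lm R) : sw (sw f) = f := by
  refine lm_ext (φ := sw.comp sw) (ψ := RingHom.id _) (fun c => ?_) ?_ f
  · rw [RingHom.comp_apply, sw_cL, sw_cL, RingHom.id_apply]
  · rw [RingHom.comp_apply, sw_jo, sw_s0, RingHom.id_apply]

theorem ex_sw (f : Lm R) : ex none (sw f) = ex (some true) f := by
  exact congrArg (e0 true) (sw_sw f)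

theorem ex_sw' (f : Lm R) : ex (some true) (sw f) = ex none f := rfl

theorem ex_je (e : En) (f : R[T;T⁻¹]) : ex e (je e f) = io (sd e) f := by
  have h : ∀ b, e0 b (jo f) = io b f := fun b => by rw [e0, lf_jo]
  cases e
  · exact (congrArg (e0 true) (sw_s0 f)).trans (h true)
  · exact h _

theorem ex_jo (b : Bool) (f : R[T;T⁻¹]) : ex (some b) (jo f) = io b f := ex_je (some b) f

theorem ex_cL (e : En) (c : R) : ex e (cL c) = cS c := by
  rw [← je_C e, ex_je, io_C]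

theorem Rg1_cancel (g : R[T;T⁻¹]) (N : ℕ) : jo g * iv ^ N * jo (1 - T 1) ^ N = jo g := by
  rw [mul_assoc, ← mul_pow, mul_comm iv, jo_iv, one_pow, mul_one]

theorem ex_inj (e : En) : Function.Injective (ex e : Lm R → Ls R) := by
  have h : ∀ b, Function.Injective (ex (some b) : Lm R → Ls R) := fun b =>
    (injective_iff_map_eq_zero _).2 fun f hf => by
      obtain ⟨N, g, rfl⟩ := rep f
      have : io b g = io b 0 := by
        rw [← ex_jo, ← Rg1_cancel g N, map_mul, hf, zero_mul, map_zero]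
      rw [io_inj b this, map_zero, zero_mul]
  cases e
  · exact (h true).comp (Function.LeftInverse.injective sw_sw)
  · exact h _

theorem je_inj (e : En) : Function.Injective (je e : R[T;T⁻¹] → Lm R) := by
  intro f g h
  exact io_inj (sd e) (by rw [← ex_je, ← ex_je, h])

theorem jo_inj : Function.Injective (jo : R[T;T⁻¹] → Lm R) := je_inj (some true)

theorem ml_jo (φ : R →+* R') (f : R[T;T⁻¹]) : ml φ (jo f) = jo (mp φ f) := by
  exact lf_jo _ _ f

theorem ml_cL (φ : R →+* R') (c : R) : ml φ (cL c) = cL (φ c) := by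
  rw [← jo_C, ml_jo, mp_C, jo_C]

theorem ml_iv (φ : R →+* R') : ml φ iv = iv := by
  refine Rg1_inv (a := jo (1 - T 1)) ?_ jo_iv
  have := congrArg (ml φ) (jo_iv (R := R))
  rwa [map_mul, ml_jo, map_sub, map_one, map_one, mp_T] at this

theorem ml_je (φ : R →+* R') (e : En) (f : R[T;T⁻¹]) : ml φ (je e f) = je e (mp φ f) := by
  cases e
  · refine Rg1_ext (φ := (ml φ).comp s0) (ψ := s0.comp (mp φ)) (fun c => ?_) ?_ f
    · rw [RingHom.comp_apply, RingHom.comp_apply, s0_C, ml_cL, mp_C, s0_C]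
    · rw [RingHom.comp_apply, RingHom.comp_apply, s0_T, ml_jo, mp_T, s0_T, map_sub (mp φ), map_one,
        mp_T]
  · exact ml_jo φ f

theorem ml_ro (φ : R →+* R') (e : En) : ml φ (ro e) = ro e := by
  cases e
  · exact (ml_jo φ _).trans (by rw [map_sub (mp φ), map_one, mp_T]; rfl)
  · exact map_one _

theorem ml_sw (φ : R →+* R') (f : Lm R) : ml φ (sw f) = sw (ml φ f) := by
  refine lm_ext (φ := (ml φ).comp sw) (ψ := sw.comp (ml φ)) (fun c => ?_) ?_ f
  · rw [RingHom.comp_apply, RingHom.comp_apply, sw_cL, ml_cL, sw_cL]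
  · rw [RingHom.comp_apply, RingHom.comp_apply, sw_jo, ml_jo, sw_jo]
    exact ml_je φ none _

theorem mL_ex (φ : R →+* R') (e : En) (f : Lm R) : mL φ (ex e f) = ex e (ml φ f) := by
  have h : ∀ b (f : Lm R), mL φ (ex (some b) f) = ex (some b) (ml φ f) := fun b f => by
    refine lm_ext (φ := (mL φ).comp (ex (some b))) (ψ := (ex (some b)).comp (ml φ))
      (fun c => ?_) ?_ f
    · rw [RingHom.comp_apply, RingHom.comp_apply, ex_cL, ml_cL, ex_cL, mL_cS]
    · rw [RingHom.comp_apply, RingHom.comp_apply, ex_jo, ml_jo, ex_jo, mL_io]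
  cases e
  · rw [← ex_sw', ← ex_sw', h, ml_sw]
  · exact h _ f

theorem ml_ml (φ : R →+* R') (ψ : R' →+* R'') (f : Lm R) : ml ψ (ml φ f) = ml (ψ.comp φ) f := by
  refine lm_ext (φ := (ml ψ).comp (ml φ)) (fun c => ?_) ?_ f
  · rw [RingHom.comp_apply, ml_cL, ml_cL, ml_cL, RingHom.comp_apply]
  · rw [RingHom.comp_apply, ml_jo, ml_jo, ml_jo, mp_mp]

theorem ml_inj {φ : R →+* R'} (h : Function.Injective φ) : Function.Injective (ml φ) := by
  refine (injective_iff_map_eq_zero _).2 fun f hf => ?_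
  obtain ⟨N, g, rfl⟩ := rep f
  have h1 : jo (mp φ g) = jo 0 := by
    rw [← ml_jo, ← Rg1_cancel g N, map_mul, hf, zero_mul, map_zero]
  have h2 : g = 0 := LaurentPolynomial.ext fun a => h (by
    rw [← coeff_mp, jo_inj h1, ← coeff_mp, map_zero])
  rw [h2, map_zero, zero_mul]

theorem ml_surj {φ : R →+* R'} (h : Function.Surjective φ) : Function.Surjective (ml φ) := by
  intro f
  obtain ⟨N, g, rfl⟩ := rep f
  obtain ⟨g', rfl, _⟩ := as3_lift h g
  exact ⟨jo g' * iv ^ N, by rw [map_mul, map_pow, ml_jo, ml_iv]⟩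

end

end Pool.Agent.Lib.MP_815ef6_nt.Ch
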