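import Pool.Agent.Lib.MP_815ef6_nt.CT.Rgc

/-! Polar parts and orders of poles. -/

namespace Pool.Agent.Lib.MP_815ef6_nt.Ch
open Finset LaurentPolynomial Matrix

section
variable {R : Type*} [CommRing R]

theorem Rg2_iv (b : Bool) (a : ℤ) : (ex (some b) (iv : Lm R)).coeff a =
    if b then (if 0 ≤ a then 1 else 0) else if 0 < a then -1 else 0 := by
  obtain ⟨u, h, hu⟩ := exists_inv_one_sub (R := R) b
  have e : io b (1 - T 1) * ex (some b) (iv : Lm R) = 1 := by
    rw [← ex_jo, ← map_mul, jo_iv, map_one]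
  rw [← hu, ← one_mul (ex (some b) iv), ← h, mul_assoc, e, mul_one]

theorem Rg2_one_sub (b : Bool) : ∀ a < min 0 (sg b), (io b (1 - T 1 : R[T;T⁻¹])).coeff a = 0 :=
  fun a ha => by
    rw [map_sub, map_one, io_T, HahnSeries.coeff_sub, mul_one,
      HahnSeries.coeff_single_of_ne (ha.trans_le (min_le_right _ _)).ne, HahnSeries.coeff_one,
      if_neg (ha.trans_le (min_le_left _ _)).ne, sub_zero]

theorem Rg2_pow {f : Ls R} {x : ℤ} (h : ∀ a < x, f.coeff a = 0) (n : ℕ) :
    ∀ a < n * x, (f ^ n).coeff a = 0 := by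
  induction n with
  | zero =>
    intro a ha
    rw [pow_zero, HahnSeries.coeff_one, if_neg (by simpa using ha.ne)]
  | succ n ih =>
    intro a ha
    rw [pow_succ]
    exact cmc_cmul ih h a (by push_cast at ha; linarith)

theorem ex_none_jo (g : R[T;T⁻¹]) :
    (∀ a < 0, (ex none (jo g)).coeff a = 0) ∧ (ex none (jo g)).coeff 0 = ev1 g := by
  let P : R[T;T⁻¹] → Prop := fun g =>
    frobG 0 (ex none (jo g)) ∧ (ex none (jo g)).coeff 0 = ev1 g
  have mul : ∀ g g', P g → P g' → P (g * g') := fun g g' h h' => by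
    have := frob_mul h.1 h'.1
    rw [add_zero, h.2, h'.2, ← map_mul, ← map_mul, ← map_mul] at this
    exact this
  have hC : ∀ c, P (C c) := fun c => by
    simp only [P, jo_C, ex_cL, ev1_C, frobG]
    exact ⟨fun a ha => HahnSeries.coeff_single_of_ne ha.ne, HahnSeries.coeff_single_same _ _⟩
  have h1 : P (T 1) := by
    simp only [P, frobG, ev1_T]
    rw [← ex_sw', sw_jo, s0_T, ex_jo]
    exact ⟨Rg2_one_sub true, by
      rw [map_sub, map_one, io_T, HahnSeries.coeff_sub, HahnSeries.coeff_single_of_ne (by decide),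
        sub_zero, HahnSeries.coeff_one, if_pos rfl]⟩
  have h2 : P (T (-1)) := by
    simp only [P, frobG, ev1_T]
    rw [← sw_iv, ex_sw]
    exact ⟨fun a ha => by simp [Rg2_iv, ha.not_ge], by simp [Rg2_iv]⟩
  change P g
  induction g using LaurentPolynomial.induction_on' with
  | add f f' h h' =>
    simp only [P, frobG, map_add, HahnSeries.coeff_add] at h h' ⊢
    exact ⟨fun a ha => by rw [h.1 a ha, h'.1 a ha, add_zero], by rw [h.2, h'.2]⟩
  | C_mul_T a c =>
    refine mul _ _ (hC c) ?_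
    induction a using Int.induction_on with
    | zero => simpa only [map_one, T_zero] using hC 1
    | succ a ih => rw [T_add]; exact mul _ _ ih h1
    | pred a ih => rw [sub_eq_add_neg, T_add]; exact mul _ _ ih h2

theorem ex_iv (b : Bool) : ∀ a < 0, (ex (some b) (iv : Lm R)).coeff a = 0 := by
  intro a ha
  rw [Rg2_iv, if_neg ha.not_ge, if_neg ha.not_gt, ite_self]

theorem ex_none_iv : ex none (iv : Lm R) = HahnSeries.single (-1) 1 := by
  rw [← ex_sw', sw_iv, ex_jo, io_T]
  rfl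

theorem Rg2_inf {η : R[T;T⁻¹]} (h : ∀ x, 0 < x → η.coeff x = 0) :
    ∀ a < 0, (ex (some false) (s0 η)).coeff a = 0 := fun a ha => by
  rw [← η.sum_coeff_single, Finsupp.sum, map_sum, map_sum, HahnSeries.coeff_sum]
  refine sum_eq_zero fun x hx => ?_
  obtain ⟨n, rfl⟩ : ∃ n : ℕ, x = n * -1 :=
    ⟨(-x).toNat, by have := not_lt.1 fun l => Finsupp.mem_support_iff.1 hx (h x l); omega⟩
  rw [single_eq_C_mul_T, map_mul, map_mul, s0_C, ex_cL, coeff_cS_mul, ← T_pow, map_pow, map_pow,
    ← sw_jo, ← sw_iv, sw_sw, Rg2_pow (ex_iv false) n a (by simpa using ha), mul_zero]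

theorem exists_pol (e : En) (f : Ls R) : ∃ η : Lm R, (∀ a < 0, (ex e η).coeff a = f.coeff a) ∧
    ∀ e', e' ≠ e → ∀ a < 0, (ex e' η).coeff a = 0 := by
  obtain ⟨η, hη⟩ := cmc_pol (sd e) f
  refine ⟨je e η, fun a ha => ?_, fun e' he a ha => ?_⟩
  · rw [ex_je, coeff_io, hη, ← mul_assoc, sg_sq, one_mul, if_pos ha]
  rcases e with _ | b <;> rcases e' with _ | b'
  · exact absurd rfl he
  · cases b'
    · refine Rg2_inf (fun x hx => ?_) a ha
      rw [hη, if_neg]
      simpa [sd, sg] using hx.le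
    · change (ex (some true) (s0 η)).coeff a = 0
      rw [← sw_jo, ex_sw']
      exact (ex_none_jo η).1 a ha
  · exact (ex_none_jo η).1 a ha
  · change (ex (some b') (jo η)).coeff a = 0
    rw [ex_jo, coeff_io, hη, if_neg]
    cases b <;> cases b' <;> first | exact absurd rfl he | simpa [sd, sg] using ha.le

theorem reg1 {f : Lm R} (h : ∀ a < 0, (ex none f).coeff a = 0) : ∃ g, jo g = f := by
  obtain ⟨N, g, rfl⟩ := rep f
  induction N generalizing g with
  | zero => exact ⟨g, by rw [pow_zero, mul_one]⟩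
  | succ N ih =>
    have e := h (0 + (N + 1) • (-1 : ℤ)) (by simp; omega)
    rw [map_mul, map_pow, ex_none_iv, HahnSeries.single_pow, HahnSeries.coeff_mul_single_add,
      one_pow, mul_one, (ex_none_jo g).2] at e
    obtain ⟨v, g', hv⟩ := s2_dvd g
    have := congrArg ev1 hv
    rw [map_add, e, ev1_C, map_mul, map_sub, map_one, ev1_T, sub_self, zero_mul, zero_add] at this
    rw [this, map_zero, add_zero] at hv
    have k : jo g * (iv : Lm R) ^ (N + 1) = jo g' * iv ^ N := by
      rw [hv, map_mul, pow_succ']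
      linear_combination (jo g' * iv ^ N) * jo_iv (R := R)
    rw [k] at h ⊢
    exact ih g' h

theorem bdd_ord {f : Lm R} {D : ℕ} (h : ∀ e, ∀ a < -(D : ℤ), (ex e f).coeff a = 0) :
    ∃ g : R[T;T⁻¹], f = jo g * iv ^ D ∧ ∀ a : ℤ, (2 * D : ℕ) < |a| → g.coeff a = 0 := by
  have e1 : ex none (jo (1 - T 1 : R[T;T⁻¹])) = io true (T 1) := by
    rw [← ex_sw', sw_jo, s0_one_sub, ex_jo]
  obtain ⟨g, hg⟩ := reg1 (f := jo (1 - T 1) ^ D * f) fun a ha => by
    rw [map_mul, map_pow, e1]
    refine cmc_cmul (Rg2_pow (x := 1) (fun a ha => ?_) D) (h none) a (by omega)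
    rw [io_T]
    exact HahnSeries.coeff_single_of_ne ha.ne
  refine ⟨g, by rw [hg, mul_right_comm, ← mul_pow, jo_iv, one_pow, one_mul], fun a ha => ?_⟩
  have k : ∀ b, ∀ a < D * min 0 (sg b) + -D, g.coeff (sg b * a) = 0 := fun b a ha => by
    rw [← coeff_io, ← ex_jo, hg, map_mul, map_pow, ex_jo]
    exact cmc_cmul (Rg2_pow (Rg2_one_sub b) D) (h (some b)) a ha
  rcases lt_abs.1 ha with l | l
  · simpa [sg] using k false (-a) (by simp [sg]; omega)
  · simpa [sg] using k true a (by simp [sg]; omega)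

theorem exists_od {α β : Type*} [Finite α] [Finite β] (M : Matrix α β (Ls R)) :
    ∀ᶠ D : ℕ in Filter.atTop, Od 0 D M := by
  obtain ⟨N, hN⟩ := (Set.finite_range fun x : α × β => (M x.1 x.2).order).bddBelow
  filter_upwards [Filter.eventually_ge_atTop (-N).toNat] with D hD i j a ha
  have : N ≤ (M i j).order := hN ⟨(i, j), rfl⟩
  exact zero_dvd_iff.2 (HahnSeries.coeff_eq_zero_of_lt_order (by omega))

end

end Pool.Agent.Lib.MP_815ef6_nt.Ch
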