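import Pool.Agent.Lib.MP_815ef6_nt.CT.Rg2

/-! Binomial series and the defects at the ends. -/

namespace Pool.Agent.Lib.MP_815ef6_nt.Ch
open Finset LaurentPolynomial Matrix

section
variable {R : Type*} [CommRing R]

/-- Binomial coefficients. -/
def Bn (c : R) : Prop := ∃ b : ℕ → R, b 0 = 1 ∧ ∀ k : ℕ, (k + 1) * b (k + 1) = (c - k) * b k

theorem rg3_bn [IsDomain R] [CharZero R] {c : R}
    (h : ∀ m : ℕ, (m.factorial : R) ∣ ∏ j ∈ range m, (c - j)) : Bn c := by
  choose b hb using h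
  refine ⟨b, by simpa using (hb 0).symm, fun k =>
    mul_left_cancel₀ (Nat.cast_ne_zero.2 k.factorial_ne_zero) ?_⟩
  have := hb (k + 1)
  rw [prod_range_succ, hb k, Nat.factorial_succ] at this
  push_cast at this
  linear_combination -this

theorem bn_field {k : Type*} [Field k] [CharZero k] (c : k) : Bn c :=
  rg3_bn fun m => (Nat.cast_ne_zero.2 m.factorial_ne_zero).isUnit.dvd

theorem bn_zm (c : ℚ) : ∀ᶠ n : ℕ in Filter.atTop, ∀ c' : ZM n.factorial, (c' : ℚ) = c → Bn c' ∧
    ∃ p₀ : ℕ, ∀ p : ℕ, p.Prime → p₀ ≤ p → ∃ k : ℕ, (p : ZM n.factorial) ∣ c' - k := by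
  refine (sol2_q (c.den : ℚ)⁻¹).mono fun n h c' e => ?_
  have a : (c.den * ⟨_, h⟩ : ZM n.factorial) = 1 := Subtype.ext (by simp)
  obtain rfl : c' = c.num * ⟨_, h⟩ := Subtype.ext (by simp [e, ← div_eq_mul_inv, c.num_div_den])
  refine ⟨rg3_bn fun m => by simpa using fact_dvd c.den_pos a c.num 0 m, c.den + 1,
    fun p hp l => (lcA_ex hp c.den_pos l c.num).imp fun k hk => ?_⟩
  convert (Int.cast_dvd_cast (α := ZM n.factorial) _ _ hk.2).mul_left (-⟨_, h⟩) using 1
  · simp
  · push_cast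
    linear_combination k * a

theorem exists_bn {c : R} (h : Bn c) (b : Bool) : ∃ f f' : Ls R, f * f' = 1 ∧
    (∀ a < 0, f.coeff a = 0) ∧ (∀ a < 0, f'.coeff a = 0) ∧
      dS b f + cS (if b then 0 else c) * f = -ex (some b) (cL c * jo (T 1) * iv) * f := by
  obtain ⟨β, h0, h⟩ := h
  obtain ⟨f, h1, h2⟩ : ∃ f : Ls R, (∀ a < 0, f.coeff a = 0) ∧
      ∀ k : ℕ, f.coeff k = (-1) ^ k * β k :=
    ⟨HahnSeries.ofPowerSeries ℤ R (PowerSeries.mk fun k => (-1) ^ k * β k),
      fun a => CmA_ps_neg _, fun k => by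
        rw [HahnSeries.ofPowerSeries_apply_coeff, PowerSeries.coeff_mk]⟩
  obtain ⟨g, h3, h4⟩ := CmA_unit h1 (by
    have : f.coeff 0 = _ := h2 0
    rw [this, h0, mul_one, pow_zero]
    exact isUnit_one)
  have k : ∀ a : ℤ, (a + 1) * f.coeff (a + 1) = (a - c) * f.coeff a := fun a => by
    rcases lt_trichotomy a (-1) with l | rfl | l
    · rw [h1 _ (by omega), h1 _ (by omega), mul_zero, mul_zero]
    · simp [h1]
    · obtain ⟨k, rfl⟩ := Int.eq_ofNat_of_zero_le (show 0 ≤ a by omega)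
      rw [← Nat.cast_add_one (R := ℤ), h2, h2]
      push_cast
      linear_combination (-1) ^ (k + 1) * h k
  have u := congrArg (ex (R := R) (some b)) jo_iv
  have e : io b (1 - T 1) * (dS b f + cS (if b then 0 else c) * f) =
      -(io b (T 1) * (cS c * f)) := by
    ext a
    rw [map_sub, map_one, io_T, mul_one, sub_mul, one_mul]
    simp only [HahnSeries.coeff_sub, HahnSeries.coeff_add, HahnSeries.coeff_single_mul,
      coeff_cS_mul, coeff_dS, HahnSeries.coeff_neg, one_mul]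
    cases b
    · simp only [sg, sub_neg_eq_add, Bool.false_eq_true, if_false]
      push_cast
      linear_combination k a
    · have := k (a - 1)
      rw [sub_add_cancel] at this
      simp only [sg, if_true]
      push_cast at this ⊢
      linear_combination this
  refine ⟨f, g, h3, h1, h4, ?_⟩
  rw [map_mul, map_one, ex_jo] at u
  rw [map_mul, map_mul, ex_cL, ex_jo]
  linear_combination ex (some b) iv * e - (dS b f + cS (if b then 0 else c) * f) * u

variable {ι ι' : Type*} [Fintype ι] [DecidableEq ι] [Fintype ι'] [DecidableEq ι']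

omit [DecidableEq ι] [DecidableEq ι'] in
theorem rg3_sm (d : R → R) (r : R) (A : Matrix ι ι R) (B : Matrix ι' ι' R) (G : Matrix ι ι' R) :
    gf (fun x => r * d x) 1 (r • A) (r • B) G = r • gf d 1 A B G ∧
      gf d r (r • A) (r • B) G = r • gf d 1 A B G := by
  simp only [gf, show G.map (fun x => r * d x) = r • G.map d from rfl, Matrix.smul_mul,
    Matrix.mul_smul]
  constructor <;> module

theorem rg3_tw {d : R → R} (hd : Dv d) {A : Matrix ι ι R} {B : Matrix ι' ι' R} {G : Matrix ι ι' R}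
    (h : gf d 1 A B G = 0) {f k x : R} (hf : d f + k * f = -x * f) :
    gf d 1 (A - x • (1 : Matrix ι ι R)) (B + k • (1 : Matrix ι' ι' R)) (f • G) = 0 := by
  simp only [gf] at h
  simp only [gf, Am1_msmul hd, Matrix.sub_mul, Matrix.mul_add, Matrix.smul_mul,
    Matrix.mul_smul, Matrix.one_mul, Matrix.mul_one]
  linear_combination (norm := module) f • h + hf • G

theorem dfe_map {R' : Type*} [CommRing R'] (φ : R →+* R') (e : En) (A : Matrix ι ι (Lm R))
    (K : ι' → R) (Ψ : Matrix ι ι' (Ls R)) : (dfe e A K Ψ).map (mL φ) =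
      dfe e (A.map (ml φ)) (fun i => φ (K i)) (Ψ.map (mL φ)) := by
  rw [dfe, dfe, gf_map (mL φ) (mL_dS φ _), map_one, diagonal_map (map_zero _)]
  simp only [mL_cS]
  congr 1
  ext i j : 2
  simp only [map_apply, Matrix.smul_apply, smul_eq_mul, mL_ex, map_mul, ml_ro]

theorem dfe_gauge (e : En) {A A' G : Matrix ι ι (Lm R)} (K : ι' → R) (Ψ : Matrix ι ι' (Ls R)) :
    dfe e A K (G.map (ex e) * Ψ) =
      ((ro e : Lm R) • gf tl 1 A A' G).map (ex e) * Ψ + G.map (ex e) * dfe e A' K Ψ := by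
  rw [dfe, dfe, gf_mul (dv_dS _), ← map_one (ex e), ← gf_map (ex e) (ex_te e)]
  congr 3
  exact (rg3_sm tl _ _ _ _).1

theorem dfe_shift (e : En) {A : Matrix ι ι (Lm R)} {K : ι → R} {Ψ : Matrix ι ι (Ls R)}
    (h : dfe e A K Ψ = 0) (m : ι → ℤ) :
    dfe e A (fun i => K i - m i) (Ψ * diagonal fun i => io (sd e) (T (m i))) = 0 := by
  have a : ∀ (K' : ι → R) (Φ : Matrix ι ι (Ls R)), df (sd e) 1 (diagonal fun i => C (K i)) K' Φ = gf (dS (sd e)) 1
      (diagonal fun i => cS (K i)) (diagonal fun i => cS (K' i)) Φ := fun K' Φ => by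
    simp only [df, map_one, one_smul, diagonal_map (map_zero _), io_C]
  have := nrm_shift (sd e) (Ψ := 1) ((a K 1).trans (by simp [gf, Am1_mone (dv_dS _)])) m
  rw [a, Matrix.one_mul] at this
  rw [dfe] at h
  rw [dfe, gf_mul (dv_dS _), h, this, Matrix.zero_mul, Matrix.mul_zero, add_zero]

omit [DecidableEq ι] in
theorem dfe_sw (A : Matrix ι ι (Lm R)) (K : ι' → R) (Ψ : Matrix ι ι' (Ls R)) :
    dfe (some true) (((ro none : Lm R) • A).map sw) K Ψ = dfe none A K Ψ := by
  have a : ∀ M : Matrix ι ι (Lm R), (M.map sw).map (ex (some true)) = M.map (ex none) :=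
    fun _ => Matrix.ext fun _ _ => ex_sw' _
  rw [dfe, dfe, show (ro (some true) : Lm R) = 1 from rfl, one_smul, a, sd, sd]

omit [DecidableEq ι] in
/-- Cleared denominators: `l • (ro e • A) = C` read at the end `e`. -/
theorem dfe_df (e : En) {A : Matrix ι ι (Lm R)} {l : R[T;T⁻¹]} {Cm : Matrix ι ι R[T;T⁻¹]}
    (h : je e l • (ro e : Lm R) • A = Cm.map (je e)) (K : ι' → R) (Ψ : Matrix ι ι' (Ls R)) :
    df (sd e) l Cm K Ψ = io (sd e) l • dfe e A K Ψ := by
  have a : Cm.map (io (sd e)) = io (sd e) l • ((ro e : Lm R) • A).map (ex e) := by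
    rw [← ex_je, ← Am1_smul, h]
    exact Matrix.ext fun _ _ => (ex_je _ _).symm
  rw [df, dfe, a]
  exact (rg3_sm _ _ _ _ _).2

theorem dfe_tw (b : Bool) {A : Matrix ι ι (Lm R)} {K : ι' → R} {Ψ : Matrix ι ι' (Ls R)}
    (h : dfe (some b) A K Ψ = 0) {c : R} {f : Ls R}
    (hf : dS b f + cS (if b then 0 else c) * f = -ex (some b) (cL c * jo (T 1) * iv) * f) :
    dfe (some b) (A - (cL c * jo (T 1) * iv : Lm R) • (1 : Matrix ι ι (Lm R)))
      (fun i => K i + if b then 0 else c) (f • Ψ) = 0 := by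
  have a : (diagonal fun i => cS (K i + if b then 0 else c)) =
      (diagonal fun i => cS (K i)) + cS (if b then 0 else c) • 1 := by
    simp only [map_add, ← diagonal_add, ← diagonal_one, ← diagonal_smul]
    congr 2
    exact funext fun _ => (mul_one _).symm
  rw [dfe, ro, one_smul] at h
  rw [dfe, ro, one_smul, a, Am1_sb, Am1_smul, Matrix.map_one _ (map_zero _) (map_one _)]
  exact rg3_tw (dv_dS b) h hf

omit [Fintype ι] in
theorem mT_eq (μ u v : ι → R) (c : R) : mT μ u v c = (iv : Lm R) • (mA μ u v).map jo -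
    (cL c * jo (T 1) * iv : Lm R) • (1 : Matrix ι ι (Lm R)) := by
  rw [mT, Am1_sb, Am1_smul, Matrix.map_one _ (map_zero _) (map_one _), map_mul, jo_C, smul_sub,
    smul_smul, mul_comm]

omit [Fintype ι] in
theorem mT_map {R' : Type*} [CommRing R'] (φ : R →+* R') (μ u v : ι → R) (c : R) :
    (mT μ u v c).map (ml φ) =
      mT (fun i => φ (μ i)) (fun i => φ (u i)) (fun i => φ (v i)) (φ c) := by
  rw [mT_eq, mT_eq, Am1_sb, Am1_smul, Am1_smul, Matrix.map_one _ (map_zero _) (map_one _),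
    map_mul, map_mul, ml_iv, ml_cL, ml_jo, mp_T, ← as3_mA]
  congr 2
  exact Matrix.ext fun _ _ => ml_jo _ _

end

end Pool.Agent.Lib.MP_815ef6_nt.Ch
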