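import Pool.Agent.Lib.MP_815ef6_nt.CT.Rg1

/-! The ring of functions on the line with three points removed: the derivations. -/

namespace Pool.Agent.Lib.MP_815ef6_nt.Ch
open Finset LaurentPolynomial Matrix

section
variable {R R' R'' : Type*} [CommRing R] [CommRing R'] [CommRing R'']

theorem Rgb_pow {d : R → R} (hd : Dv d) {u t : R} (h : d u = t * u ^ 2) (N : ℕ) :
    d (u ^ N) = N * t * u ^ (N + 1) := by
  induction N with
  | zero => rw [pow_zero, Am1_one hd, Nat.cast_zero, zero_mul, zero_mul]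
  | succ N ih =>
    rw [pow_succ, hd.mul, ih, h, Nat.cast_succ]
    ring

theorem Rgb_inv {d : R → R} (hd : Dv d) {a u t : R} (h : a * u = 1) (ha : d a = -t) :
    d u = t * u ^ 2 := by
  have e := hd.mul a u
  rw [h, Am1_one hd, ha] at e
  linear_combination (-d u) * h - u * e

theorem Rgb_thT (a : ℤ) : th (T a : R[T;T⁻¹]) = (a : R[T;T⁻¹]) * T a := by
  simpa using th_CT (1 : R) a

theorem Rgb_th1 (a : ℤ) : th (1 - T a : R[T;T⁻¹]) = -((a : R[T;T⁻¹]) * T a) := by
  rw [Am1_sub dv_th, Am1_one dv_th, Rgb_thT, zero_sub]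

theorem Rgb_rep (f : Lm R) : ∃ (N : ℕ) (g : R[T;T⁻¹]), f = jo g * iv ^ N ∧
    tl f = jo (th g) * iv ^ N + (N : Lm R) * jo (T 1 * g) * iv ^ (N + 1) := by
  refine ⟨_, _, ?_, rfl⟩
  have e := IsLocalization.Away.sec_spec (1 - T 1 : R[T;T⁻¹]) f
  change f * jo _ = jo _ at e
  rw [← e, map_pow, mul_assoc, ← mul_pow, jo_iv, one_pow, mul_one]

theorem te_some (b : Bool) : te (some b) = (tl : Lm R → Lm R) := funext fun _ => one_mul _

theorem ex_tl (b : Bool) (f : Lm R) : ex (some b) (tl f) = dS b (ex (some b) f) := by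
  obtain ⟨N, g, rfl, e⟩ := Rgb_rep f
  have h : dS b (ex (some b) (iv : Lm R)) = io b (T 1) * ex (some b) iv ^ 2 :=
    Rgb_inv (dv_dS b) (a := io b (1 - T 1)) (by rw [← ex_jo, ← map_mul, jo_iv, map_one])
      (by rw [← io_th, Rgb_th1, Int.cast_one, one_mul, map_neg])
  rw [e]
  simp only [map_add, map_mul, map_pow, map_natCast, ex_jo]
  rw [(dv_dS b).mul, Rgb_pow (dv_dS b) h, io_th]
  ring

theorem dv_tl : Dv (tl : Lm R → Lm R) :=
  ⟨fun f g => ex_inj (some true) (by simp only [ex_tl, map_add, (dv_dS true).add]),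
    fun f g => ex_inj (some true) (by simp only [ex_tl, map_add, map_mul, (dv_dS true).mul])⟩

theorem dv_te (e : En) : Dv (te e : Lm R → Lm R) :=
  ⟨fun f g => by rw [te, te, te, dv_tl.add, mul_add], fun f g => by
    rw [te, te, te, dv_tl.mul]
    ring⟩

theorem tl_jo (f : R[T;T⁻¹]) : tl (jo f) = jo (th f) :=
  ex_inj (some true) (by rw [ex_tl, ex_jo, ex_jo, io_th])

theorem tl_cL (c : R) : tl (cL c) = 0 :=
  ex_inj (some true) (by rw [ex_tl, ex_cL, dS_cS, map_zero])

theorem tl_iv : tl (iv : Lm R) = jo (T 1) * iv ^ 2 :=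
  Rgb_inv dv_tl jo_iv (by rw [tl_jo, Rgb_th1, Int.cast_one, one_mul, map_neg])

theorem ml_tl (φ : R →+* R') (f : Lm R) : ml φ (tl f) = tl (ml φ f) :=
  ex_inj (some true) (by rw [ex_tl, ← mL_ex, ← mL_ex, ex_tl, mL_dS])

theorem ml_te (φ : R →+* R') (e : En) (f : Lm R) : ml φ (te e f) = te e (ml φ f) := by
  rw [te, te, map_mul, ml_ro, ml_tl]

theorem ro_eq : (ro none : Lm R) * jo (T 1) = -jo (1 - T 1) := by
  rw [ro, ← map_mul, ← map_neg, sub_mul, ← T_add, neg_add_cancel, T_zero, one_mul, neg_sub]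

/-- A derivation along a homomorphism that kills the constants and `w` vanishes. -/
theorem Rgb_ext (φ : Lm R →+* R') {D : Lm R → R'} (ha : ∀ f g, D (f + g) = D f + D g)
    (hm : ∀ f g, D (f * g) = D f * φ g + φ f * D g) (hc : ∀ c, D (cL c) = 0)
    (hT : D (jo (T 1)) = 0) (f : Lm R) : D f = 0 := by
  have h1 : D 1 = 0 := by simpa using hc 1
  have mul : ∀ {f g}, D f = 0 → D g = 0 → D (f * g) = 0 := fun h h' => by
    rw [hm, h, h', zero_mul, mul_zero, add_zero]
  have pow : ∀ {f}, D f = 0 → ∀ N : ℕ, D (f ^ N) = 0 := fun h N => by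
    induction N with
    | zero => rwa [pow_zero]
    | succ N ih => rw [pow_succ]; exact mul ih h
  have inv : ∀ {f g}, f * g = 1 → D f = 0 → D g = 0 := fun {f g} e h => by
    have e1 := hm f g
    have e2 := congrArg φ e
    rw [e, h1, h] at e1
    rw [map_mul, map_one] at e2
    linear_combination (-D g) * e2 - φ g * e1
  have hN : ∀ N : ℕ, D (jo (T N)) = 0 := fun N => by
    have := pow hT N
    rwa [← map_pow, T_pow, mul_one] at this
  have hj : ∀ g, D (jo g) = 0 := fun g => by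
    induction g using LaurentPolynomial.induction_on' with
    | add p q hp hq => rw [map_add, ha, hp, hq, add_zero]
    | C_mul_T a c =>
      rw [map_mul]
      refine mul (hc c) ?_
      obtain ⟨N, rfl | rfl⟩ := a.eq_nat_or_neg
      · exact hN N
      · exact inv (by rw [← map_mul, ← T_add, add_neg_cancel, T_zero, map_one]) (hN N)
  obtain ⟨N, g, rfl⟩ := rep f
  exact mul (hj g) (pow (inv jo_iv (hj _)) N)

theorem sw_te (f : Lm R) : sw (te none f) = tl (sw f) := by
  refine sub_eq_zero.1 (Rgb_ext sw (D := fun f => sw (te none f) - tl (sw f)) (fun f g => ?_)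
    (fun f g => ?_) (fun c => ?_) ?_ f)
  · rw [(dv_te none).add, map_add, map_add, dv_tl.add]
    ring
  · rw [(dv_te none).mul, map_add, map_mul, map_mul, map_mul, dv_tl.mul]
    ring
  · rw [te, sw_cL, tl_cL, mul_zero, map_zero, sub_zero]
  · rw [te, tl_jo, Rgb_thT, Int.cast_one, one_mul, ro_eq, map_neg, sw_jo, sw_jo, s0_one_sub, s0_T,
      tl_jo, Rgb_th1, Int.cast_one, one_mul, map_neg, sub_self]

theorem ex_te (e : En) (f : Lm R) : ex e (te e f) = dS (sd e) (ex e f) := by
  cases e with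
  | none => rw [← ex_sw', ← ex_sw', sw_te, ex_tl, sd]
  | some b => rw [te_some, ex_tl, sd]

theorem te_je (e : En) (f : R[T;T⁻¹]) : te e (je e f) = je e (th f) :=
  ex_inj e (by rw [ex_te, ex_je, ex_je, io_th])

theorem ro_sw : (ro none : Lm R) * sw (ro none) = 1 := by
  have e := congrArg sw (ro_eq (R := R))
  rw [map_mul, map_neg, sw_jo, sw_jo, s0_one_sub, s0_T] at e
  linear_combination (1 - ro none * sw (ro none)) * jo_iv (R := R) + ro none * iv * e -
    iv * ro_eq (R := R)

theorem ro_unit (e : En) : IsUnit (ro e : Lm R) := by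
  cases e with
  | none => exact IsUnit.of_mul_eq_one _ ro_sw
  | some b => exact isUnit_one

theorem tl_ro (e : En) : tl (ro e : Lm R) = 1 - ro e := by
  cases e with
  | none =>
    rw [ro, tl_jo, Rgb_th1, Int.cast_neg, Int.cast_one, neg_one_mul, neg_neg, map_sub, map_one,
      sub_sub_cancel]
  | some b => rw [ro, Am1_one dv_tl, sub_self]

end

end Pool.Agent.Lib.MP_815ef6_nt.Ch
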