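import Pool.Agent.Lib.MP_815ef6_nt.CT.Rgb

/-! The ring of functions on the line with three points removed: divisibility and subrings. -/

namespace Pool.Agent.Lib.MP_815ef6_nt.Ch
open Finset LaurentPolynomial Matrix

section
variable {R R' R'' : Type*} [CommRing R] [CommRing R'] [CommRing R'']

theorem Rgc_zero {π : R →+* R'} {g : R[T;T⁻¹]} {N : ℕ} (h : ml π (jo g * iv ^ N) = 0) :
    mp π g = 0 := by
  rwa [map_mul, map_pow, ml_jo, ml_iv,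
    ((IsUnit.of_mul_eq_one_right _ jo_iv).pow N).mul_left_eq_zero, map_eq_zero_iff _ jo_inj] at h

theorem dvd_ml {π : R →+* R'} {c : R} (hπ : ∀ x, π x = 0 ↔ c ∣ x) {f : Lm R} :
    cL c ∣ f ↔ ml π f = 0 := by
  refine ⟨fun ⟨y, h⟩ => by rw [h, map_mul, ml_cL, (hπ c).2 dvd_rfl, map_zero, zero_mul],
    fun h => ?_⟩
  obtain ⟨N, g, rfl⟩ := rep f
  exact (map_dvd jo ((CmA_dvdP hπ).2 (Rgc_zero h))).mul_right _

theorem dvd_ex (e : En) {c : R} {f : Lm R} : cL c ∣ f ↔ cS c ∣ ex e f := by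
  rw [dvd_ml (CmA_ker c), CmA_dvdL (CmA_ker c), mL_ex, map_eq_zero_iff _ (ex_inj e)]

theorem Dd_ml {π : R →+* R'} {c : R} (hπ : ∀ x, π x = 0 ↔ c ∣ x) {α β : Type*}
    {M : Matrix α β (Lm R)} : Dd (cL c) M ↔ M.map (ml π) = 0 :=
  ⟨fun h => Matrix.ext fun i j => (dvd_ml hπ).1 (h i j),
    fun h i j => (dvd_ml hπ).2 (congrFun (congrFun h i) j)⟩

theorem span_ml {c c' : R} {f : Lm R}
    (h : ml (Ideal.Quotient.mk (Ideal.span {c, c'})) f = 0) :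
    ∃ y z, f = cL c * y + cL c' * z := by
  obtain ⟨N, g, rfl⟩ := rep f
  obtain ⟨y, z, e⟩ := CmA_span (c := c) (c' := c') (f := g) fun a =>
    Ideal.Quotient.eq_zero_iff_mem.1 (by rw [← coeff_mp, Rgc_zero h]; rfl)
  exact ⟨jo y * iv ^ N, jo z * iv ^ N, by rw [e, map_add, map_mul, map_mul, jo_C, jo_C]; ring⟩

theorem lm_domain [IsDomain R] : IsDomain (Lm R) := by
  exact Function.Injective.isDomain (ex (some true)) (ex_inj _)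

end

theorem mem_LL {S : Subring ℂ} {f : Lm ℂ} :
    f ∈ LL S ↔ ∃ (N : ℕ), ∃ g ∈ LS S, f = jo g * iv ^ N := by
  refine ⟨fun ⟨y, h⟩ => ?_, fun ⟨N, _, ⟨g, e⟩, h⟩ =>
    ⟨jo g * iv ^ N, by rw [map_mul, map_pow, ml_jo, ml_iv, e, h]⟩⟩
  obtain ⟨N, g, rfl⟩ := rep y
  exact ⟨N, _, ⟨g, rfl⟩, by rw [← h, map_mul, map_pow, ml_jo, ml_iv]⟩

theorem je_mem {S : Subring ℂ} (e : En) {g : ℂ[T;T⁻¹]} : je e g ∈ LL S ↔ g ∈ LS S := by
  refine ⟨fun ⟨y, h⟩ => mem_LS.2 fun a => ?_, fun ⟨y, h⟩ => ⟨je e y, by rw [ml_je, h]⟩⟩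
  have := congrArg (fun x => (ex e x).coeff (sg (sd e) * a)) h
  simp only [← mL_ex, ex_je, coeff_mL, coeff_io, ← mul_assoc, sg_sq, one_mul] at this
  exact this ▸ Subtype.prop _

theorem jo_mem {S : Subring ℂ} {g : ℂ[T;T⁻¹]} : jo g ∈ LL S ↔ g ∈ LS S := je_mem (some true)

theorem cL_mem {S : Subring ℂ} {x : ℂ} (h : x ∈ S) : cL x ∈ LL S := jo_mem.2 (C_mem h)

theorem iv_mem (S : Subring ℂ) : iv ∈ LL S := ⟨iv, ml_iv _⟩

theorem ro_mem (S : Subring ℂ) (e : En) : ro e ∈ LL S := ⟨ro e, ml_ro _ e⟩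

theorem LL_mono {S S' : Subring ℂ} (h : S ≤ S') : LL S ≤ LL S' := by
  intro f hf
  obtain ⟨N, g, hg, e⟩ := mem_LL.1 hf
  exact mem_LL.2 ⟨N, g, LS_mono h hg, e⟩

theorem tl_mem {S : Subring ℂ} {f : Lm ℂ} (h : f ∈ LL S) : tl f ∈ LL S := by
  obtain ⟨y, rfl⟩ := h
  exact ⟨tl y, ml_tl _ _⟩

theorem sw_mem {S : Subring ℂ} {f : Lm ℂ} (h : f ∈ LL S) : sw f ∈ LL S := by
  obtain ⟨y, rfl⟩ := h
  exact ⟨sw y, ml_sw _ _⟩

theorem range_ml {B : Type*} [CommRing B] (ρ : B →+* ℂ) {f : Lm ℂ} :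
    f ∈ LL ρ.range ↔ ∃ g, ml ρ g = f := by
  refine ⟨fun h => ?_, fun ⟨g, h⟩ => ⟨ml ρ.rangeRestrict g, (ml_ml _ _ _).trans h⟩⟩
  obtain ⟨N, g, hg, rfl⟩ := mem_LL.1 h
  obtain ⟨y, rfl⟩ := exists_mp (mem_LS.1 hg)
  exact ⟨jo y * iv ^ N, by rw [map_mul, map_pow, ml_jo, ml_iv]⟩

theorem ml_mem {B : Type*} [CommRing B] {ρ : B →+* ℂ} {S : Subring ℂ} (h : ∀ x, ρ x ∈ S)
    (g : Lm B) : ml ρ g ∈ LL S := by
  exact LL_mono (S := ρ.range) (fun _ ⟨x, e⟩ => e ▸ h x) ((range_ml ρ).2 ⟨g, rfl⟩)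

theorem ev_LL (f : Lm ℂ) : ∀ᶠ T : Finset ℂ in Filter.atTop, f ∈ LL (cl T) := by
  obtain ⟨N, g, rfl⟩ := rep f
  filter_upwards [(Filter.eventually_all_finset g.coeff.support).2 fun a _ => ev_mem (g.coeff a)]
    with T hT
  refine mem_LL.2 ⟨N, g, mem_LS.2 fun a => by_contra fun k =>
    k (hT a (Finsupp.mem_support_iff.2 fun l => k ?_)), rfl⟩
  rw [l]
  exact zero_mem _

end Pool.Agent.Lib.MP_815ef6_nt.Ch
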