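import Pool.Agent.Lib.MP_815ef6_nt.CT.Cls
import Pool.Agent.Lib.MP_815ef6_nt.CT.CmD

/-! Integral fundamental matrices of the twisted models. -/

namespace Pool.Agent.Lib.MP_815ef6_nt.Ch
open Finset LaurentPolynomial Matrix Filter

section
variable {ι : Type*} [Fintype ι] [DecidableEq ι] {μ u v : ι → ℚ}

/-- The coefficients lie in `ZM M`. -/
def InZ {α β : Type*} (M : ℕ) (Φ : Matrix α β (Ls ℚ)) : Prop := ∀ i j a, (Φ i j).coeff a ∈ ZM M

theorem Sol_le (M : ℕ) : ∀ᶠ n : ℕ in atTop, ZM M ≤ ZM n.factorial :=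
  (sol2_q (M : ℚ)⁻¹).mono fun _ h => Subring.closure_le.2 (Set.singleton_subset_iff.2 h)

theorem Sol_mul {S : Subring ℚ} {f g : Ls ℚ} (hf : ∀ a, f.coeff a ∈ S) (hg : ∀ a, g.coeff a ∈ S)
    (a : ℤ) : (f * g).coeff a ∈ S := by
  rw [HahnSeries.coeff_mul]
  exact sum_mem fun _ _ => mul_mem (hf _) (hg _)

theorem inz_ex (e : En) (g : Matrix ι ι (Lm ℚ)) :
    ∀ᶠ n : ℕ in atTop, InZ n.factorial (g.map (ex e)) := by
  refine eventually_all.2 fun i => eventually_all.2 fun j => ?_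
  obtain ⟨N, p, h⟩ := rep (g i j)
  refine ((eventually_all_finset p.coeff.support).2 fun a _ => sol2_q (p.coeff a)).mono
    fun n hn a => ?_
  obtain ⟨q, rfl⟩ := exists_mp (φ := (ZM n.factorial).subtype) (f := p) fun a => by
    rw [Subring.range_subtype]
    by_cases k : a ∈ p.coeff.support
    · exact hn a k
    · exact Finsupp.notMem_support_iff.1 k ▸ zero_mem _
  rw [map_apply, h, ← ml_jo, ← ml_iv (ZM n.factorial).subtype, ← map_pow, ← map_mul, ← mL_ex]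
  exact Subtype.prop _

theorem InZ.mul {M : ℕ} {Φ Ψ : Matrix ι ι (Ls ℚ)} (h : InZ M Φ) (h' : InZ M Ψ) :
    InZ M (Φ * Ψ) := fun i j a => by
  rw [Matrix.mul_apply, HahnSeries.coeff_sum]
  exact sum_mem fun k _ => Sol_mul (h i k) (h' k j) a

/-- The ends `0` and `∞`. -/
theorem Mdl.sol_some (h : Mdl μ u v) (c : ℚ) (b : Bool) : ∃ (κ : ι → ℚ)
    (Φ Φ' : Matrix ι ι (Ls ℚ)), dfe (some b) (mT μ u v c) κ Φ = 0 ∧ Φ * Φ' = 1 ∧
      ∀ᶠ n : ℕ in atTop, InZ n.factorial Φ ∧ InZ n.factorial Φ' := by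
  obtain ⟨M, -, μ', u', v', κ, Φ, Φ', h1, h2, h3, sl⟩ := h.sol
  have sq := sl.map (ZM M).subtype
  simp only [Subring.coe_subtype, h1, h2, h3] at sq
  obtain ⟨m, hc, hb⟩ := ((sol2_q c).and (bn_zm c)).exists
  obtain ⟨f, f', f1, -, -, f2⟩ := exists_bn (hb ⟨c, hc⟩ rfl).1 b
  have g1 := congrArg (mL (ZM m.factorial).subtype) f1
  have g2 := congrArg (mL (ZM m.factorial).subtype) f2
  rw [map_mul, map_one] at g1
  simp only [map_add, map_mul (mL _), map_neg, mL_dS, mL_cS, mL_ex, map_mul (ml _), ml_cL, ml_jo,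
    ml_iv, mp_T, apply_ite (ZM m.factorial).subtype, map_zero, Subring.coe_subtype] at g2
  have e1 := (dfe_df (some b) (A := (iv : Lm ℚ) • (mA μ u v).map jo) (l := 1 - T 1)
    (Cm := mA μ u v) (by
      rw [smul_smul, smul_smul, ro, mul_one, je, jo_iv, one_smul]) _ _).symm.trans (sq.fund b)
  have e2 := congrArg (ex (some b) (iv : Lm ℚ) • ·) e1
  simp only [smul_smul, sd, smul_zero] at e2
  rw [← ex_jo, ← map_mul, mul_comm, jo_iv, map_one, one_smul] at e2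
  refine ⟨_, mL (ZM m.factorial).subtype f • (Φ b).map (mL (ZM M).subtype),
    mL (ZM m.factorial).subtype f' • (Φ' b).map (mL (ZM M).subtype),
    mT_eq μ u v c ▸ dfe_tw b e2 g2, ?_, ((Sol_le M).and (Sol_le m.factorial)).mono
      fun n hn => ⟨fun i j => Sol_mul (fun a => hn.2 (Subtype.prop _))
        fun a => hn.1 (Subtype.prop _), fun i j => Sol_mul (fun a => hn.2 (Subtype.prop _))
        fun a => hn.1 (Subtype.prop _)⟩⟩
  rw [Matrix.smul_mul, Matrix.mul_smul, smul_smul, g1, one_smul]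
  exact sq.inv b

theorem Mdl.ml (h : Mdl μ u v) (c : ℚ) : ∀ᶠ n : ℕ in atTop,
    ∀ (μ' u' v' : ι → ZM n.factorial) (c' : ZM n.factorial), (∀ i, (μ' i : ℚ) = μ i) →
      (∀ i, (u' i : ℚ) = u i) → (∀ i, (v' i : ℚ) = v i) → (c' : ℚ) = c → ML (mT μ' u' v' c') :=
  ((sol2_mb h.md).and (bn_zm c)).mono fun _ hn μ' u' v' c' h1 h2 h3 h4 =>
    mT_eq μ' u' v' c' ▸ (ML_iff.2 (hn.1 μ' u' v' h1 h2 h3)).twist (hn.2 c' h4).2

end

end Pool.Agent.Lib.MP_815ef6_nt.Ch
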