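import Pool.Agent.Lib.MP_815ef6_nt.CT.Cx2
import Pool.Agent.Lib.MP_815ef6_nt.CT.As5
import Pool.Agent.Lib.MP_815ef6_nt.CT.Lat

/-! The integrality of the falling powers for a tree. -/

namespace Pool.Agent.Lib.MP_815ef6_nt.Ch
open Finset LaurentPolynomial Filter Matrix

variable {M : ℕ} {O : Subring ℂ} {t : ℂ} {V : Type*}

theorem cM_map' {Λ Λ' : Type*} [CommRing Λ] [CommRing Λ'] (φ : Λ →+* Λ') {n : ℕ} (L : ℕ → Λ) :
    (cM n L).map φ = cM n fun i => φ (L i) := by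
  rw [cM_map φ (f := 1) (RingHom.id Λ') (Z := fun i => φ (L i)) fun i _ => (one_mul _).symm,
    one_smul]
  rfl

theorem cM_smul {Λ : Type*} [CommRing Λ] {n : ℕ} {L L' : ℕ → Λ} {f : Λ}
    (h : ∀ i ≤ n + 1, L i = f * L' i) : cM n L = f • cM n L' :=
  cM_map (RingHom.id Λ) (RingHom.id Λ) h

/-- The operators in the form with `(z - p) d/dz`. -/
structure Th (Y : ℕ → Polynomial ℂ) (Z : ℂ → ℕ → Polynomial ℂ) : Prop where
  h0 : ∀ p, Z p 0 = Polynomial.X ^ 2 * Polynomial.taylor p (Y 0)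
  h1 : ∀ p, Z p 1 = Polynomial.X * Polynomial.taylor p (Y 1) - Polynomial.taylor p (Y 2)
  h2 : ∀ p, Z p 2 = Polynomial.taylor p (Y 2)

variable {Y : ℕ → Polynomial ℂ} {Z : ℂ → ℕ → Polynomial ℂ}

theorem Th.sc (h : Th Y Z) (p y : ℂ) : sc y (Z p 0) = (C y * T 1) ^ 2 * sa p y (Y 0) ∧
    sc y (Z p 1) = C y * T 1 * sa p y (Y 1) - sa p y (Y 2) ∧ sc y (Z p 2) = sa p y (Y 2) := by
  simp only [h.h0, h.h1, h.h2, map_mul, map_sub, map_pow, sc_X, sa_eq, and_self]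

theorem Th.rel (h : Th Y Z) {qo no : Polynomial ℂ} {Ao Wo : Matrix (Fin 2) (Fin 2) (Polynomial ℂ)}
    (rel : Rel Polynomial.derivative qo Ao (Y 2) (cM 1 Y) no Wo) (c : ℂ) {x : ℂ} (x0 : x ≠ 0) :
    Rel th (sa c x qo) ((C x * T 1 : ℂ[T;T⁻¹]) • Ao.map (sa c x)) (Ch.sc x (Z c 2))
      (cM 1 fun i => Ch.sc x (Z c i)) (sa c x no) (diagonal ![1, C x * T 1] * Wo.map (sa c x)) := by
  have u : (C x * T 1 * (C x⁻¹ * T (-1)) : ℂ[T;T⁻¹]) = 1 := by
    rw [mul_mul_mul_comm, ← map_mul, mul_inv_cancel₀ x0, ← T_add, map_one, one_mul]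
    rfl
  have R := rel.map (d' := fun f => C x⁻¹ * T (-1) * th f) (sa c x) fun f => by
    rw [th_sa, ← mul_assoc, mul_comm (C x⁻¹ * _), u, one_mul]
  rw [cM_map'] at R
  have R' := rel_z (Z := fun i => sa c x (Y i)) (Z' := fun i => Ch.sc x (Z c i))
    ⟨fun f g => by rw [th_add, mul_add], fun f g => by rw [dv_th.mul]; ring⟩ R (C x * T 1)
    (h.sc c x).1 (by
      rw [th_CT, Int.cast_one, one_mul, mul_comm (C x⁻¹ * _), u, mul_one]
      exact (h.sc c x).2.1) (h.sc c x).2.2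
  simpa only [← mul_assoc, u, one_mul] using R'

theorem Th.ends (h : Th Y Z) {c x : ℂ} {L : En → ℕ → O[T;T⁻¹]} {u : En → ℂ[T;T⁻¹]}
    (hu : IsUnit (u (some true)))
    (hL : ∀ e, ∀ i ≤ 2, mp O.subtype (L e i) = u e * Ch.sc (ye x e) (Z (pe c x e) i))
    {δ m : Lm O} {A W : Matrix (Fin 2) (Fin 2) (Lm O)}
    (R : Rel tl δ A (jo (L (some true) 2)) ((cM 1 (L (some true))).map jo) m W) (e : En) :
    Rel (te e) δ ((ro e : Lm O) • A) (je e (L e 2)) ((cM 1 (L e)).map (je e)) m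
      (diagonal ![1, ro e] * W) := by
  obtain ⟨w, hw⟩ := hu.exists_left_inv
  have R1 := R.map (ml O.subtype) (ml_tl _)
  rw [cM_map', cM_map'] at R1
  have a := fun e => h.sc (pe c x e) (ye x e)
  have R2 := rel_z (Z := fun i => ml O.subtype (jo (L (some true) i)))
    (Z' := fun i => jo (u (some true)) * je e (Ch.sc (ye x e) (Z (pe c x e) i))) dv_tl R1 (ro e)
    (by
      rw [ml_jo, hL _ _ (by omega), (a _).1, (a _).1, map_mul, map_pow, je_ye, je_sa]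
      simp only [ye, pe, map_mul, map_pow]
      ring)
    (by
      rw [ml_jo, ml_jo, hL _ _ (by omega), hL _ _ le_rfl, (a _).2.1, (a _).2.1, (a _).2.2, map_sub,
        map_mul, je_ye, je_sa, je_sa, tl_ro]
      simp only [ye, pe, map_mul, map_sub]
      ring)
    (by rw [ml_jo, hL _ _ le_rfl, (a _).2.2, (a _).2.2, je_sa, map_mul]; rfl)
  have k : ∀ i ≤ 2, ml O.subtype (je e (L e i)) = je e (u e) * jo w *
      (jo (u (some true)) * je e (Ch.sc (ye x e) (Z (pe c x e) i))) := fun i hi => by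
    rw [ml_je, hL e i hi, map_mul, mul_assoc, ← mul_assoc (jo w), ← map_mul jo, hw, map_one,
      one_mul]
  have R3 := lat2_lC R2 (je e (u e) * jo w)
  rw [← k _ le_rfl, ← cM_smul k] at R3
  refine lat2_inj (ml O.subtype) (ml_inj O.subtype_injective) (ml_te _ e) ?_
  rw [cM_map', cM_map', Am1_smul, ml_ro, Matrix.map_mul, diagonal_map (map_zero _)]
  have k2 : (fun i => ml O.subtype ((![1, ro e] : Fin 2 → Lm O) i)) = ![1, ro e] := by
    funext i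
    fin_cases i
    exacts [map_one _, ml_ro _ e]
  rw [k2]
  exact R3

theorem St4.main [Finite V] {β : Fin M → ℂ} {S : Finset ℂ} {c x : V → ℂ}
    {I : V → En → Finset (Fin M)} {N : V × En → V × En → Prop} {F : Finset ℂ} {p₀ : ℕ}
    (S4 : St4 O t β S c x I N Z 1 F p₀) (h : Th Y Z) (hβ : ∀ l, β l ∈ Lo O S4.fr.mem)
    (hx : ∀ j, c j ∈ Lo O S4.fr.mem ∧ x j ∈ Lo O S4.fr.mem ∧ (x j)⁻¹ ∈ Lo O S4.fr.mem)
    {qo no : Polynomial ℂ} {Ao Wo : Matrix (Fin 2) (Fin 2) (Polynomial ℂ)}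
    (rel : Rel Polynomial.derivative qo Ao (Y 2) (cM 1 Y) no Wo) (q1 : qo.Monic)
    (q2 : ∀ y, qo.eval y = 0 → y ∈ S)
    (hA : ∀ i k m, (Ao i k).coeff m ∈ Lo O S4.fr.mem)
    (hW : ∀ i k m, (Wo i k).coeff m ∈ Lo O S4.fr.mem) (n0 : no ≠ 0)
    (n1 : no.leadingCoeff ∈ Lo O S4.fr.mem ∧ no.leadingCoeff⁻¹ ∈ Lo O S4.fr.mem) (W0 : Wo.det ≠ 0)
    (W1 : Wo.det.leadingCoeff ∈ Lo O S4.fr.mem ∧ Wo.det.leadingCoeff⁻¹ ∈ Lo O S4.fr.mem)
    (rt : ∀ y, (qo * (no * Wo.det)).eval y = 0 → ∃ l, β l = y) (j₀ : V) :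
    ∃ T : Finset ℂ, ∀ i₀ ≤ 1, ∀ m : ℕ, ∀ i ≤ 1, ∀ e, ∃ w ∈ cl T,
      (rr dz 1 1 (Z (c j₀)) (bs _ i₀) m i).coeff e = m.factorial * w := by
  obtain ⟨L, hL⟩ := S4.lift
  have H := S4.fr
  obtain ⟨T', hT⟩ := H.crt (fun m (y : Fin 2 × Fin 2 × ℤ) =>
    ((Am th (L j₀ (some true) 2) (cM 1 (L j₀ (some true))) m y.1 y.2.1).coeff y.2.2 : ℂ)) (by
      filter_upwards [ev_gd, ev_lift (L j₀ (some true) 2), ev_liftM (cM 1 (L j₀ (some true)))]
        with T G h1 h2 m y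
      obtain ⟨l, e1⟩ := h1 G.le
      obtain ⟨C, e2⟩ := h2 G.le
      rw [← e1, ← e2, ← Am_map _ (mp_th _), map_apply, coeff_mp]
      exact Subtype.property (p := (· ∈ cl T)) _) fun s hp hs => by
    obtain ⟨ρ, hρ⟩ := H.res s hp hs
    have rg := fun {s : O} => S4.rg (s := s) hL
    have xT : ∀ j, (C (x j) * T 1 : ℂ[T;T⁻¹]) ∈ LS (Lo O H.mem) := fun j =>
      mul_mem (C_mem (hx j).2.1) (T_mem _ _)
    choose δ m A W rel' h1 using fun j => lattice3 H (S4.cb.x0 j) (hx j) hβ (S4.tr.ed j) q1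
      (fun y hy => by
        obtain ⟨l, rfl⟩ := rt y (by rw [Polynomial.eval_mul, hy, zero_mul])
        exact ⟨l, rfl, S4.cb.sg j l (q2 _ hy)⟩) n0 n1 W0 W1
      (fun y hy => rt y (by rw [Polynomial.eval_mul, hy, mul_zero]))
      (A := (C (x j) * T 1 : ℂ[T;T⁻¹]) • Ao.map (sa (c j) (x j)))
      (W := diagonal ![1, C (x j) * T 1] * Wo.map (sa (c j) (x j)))
      (fun i k => mul_mem (xT j) (sa_mem (hx j).1 (hx j).2.1 (hA i k)))
      (fun i k => by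
        rw [diagonal_mul]
        refine mul_mem ?_ (sa_mem (hx j).1 (hx j).2.1 (hW i k))
        fin_cases i
        exacts [one_mem _, xT j])
      (by
        rw [det_mul, det_diagonal, Fin.prod_univ_two, ← RingHom.mapMatrix_apply, ← RingHom.map_det]
        exact congrArg (· * _) (one_mul _))
      (l := L j (some true) 2) (Cm := cM 1 (L j (some true))) (by
        rw [cM_map', cM_smul (hL j (some true)), hL j _ _ le_rfl]
        exact lat2_lC (h.rel rel (c j) (S4.cb.x0 j)) _) fun s hp hs k => hp.not_dvd_one (by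
        simpa using (dvd_iff.1 k 0).sub (rg hp hs j (some true)).re.one)
    obtain ⟨κ, hκ⟩ := S4.exps hL hp hs hρ
    refine (ev_graph H hp hs hρ S4.hF (p₀ := p₀) (X := fun j => ⟨δ j, m j, A j,
      fun e => diagonal ![1, ro e] * W j, fun e => L j e 2, fun e => cM 1 (L j e)⟩)
      (fun j => ⟨(h1 j s hp hs).1, h.ends (uI_unit (S4.ne j _) (S4.y0 j _)) (hL j) (rel' j),
        fun e => (rg hp hs j e).re, (h1 j s hp hs).2.1, fun e k => (h1 j s hp hs).2.2 ?_,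
        fun e p hp' h0 i i' => ?_⟩)
      (fun j => eg3_cM ρ (fun e => (hκ j e).1) fun e => (hκ j e).2) (fun j e => (hκ j e).1)
      S4.cb.nod (fun a b k => ⟨_, (S4.tr.sm a b k).dvd H hp hs, S4.nd hL k _ le_rfl,
        nd_cM (S4.nd hL k)⟩) (fun a b k => by rw [S4.cb.pt a b k, S4.cb.ii a b k])
      (fun a b k => by rw [S4.cb.pt a b k, S4.cb.ii a b k]) (fun a k => (S4.rg0 hL _ k).re) j₀
      (some true)).mono fun T h E m y => h E m y.1 y.2.1 y.2.2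
    · rw [det_mul, det_diagonal, Fin.prod_univ_two] at k
      exact (isUnit_one.mul (ro_unit e)).dvd_mul_left.1 k
    · rw [St4.am hL]
      exact S4.dm p hp' h0 j e i i.is_le i' i'.is_le
  refine LI_back (S4.ne j₀ (some true)) (S4.y0 j₀ (some true)) (F := T') fun i₀ h₀ m i hi e => ?_
  obtain ⟨w, hw, k⟩ := hT m (⟨i₀, by omega⟩, ⟨i, by omega⟩, e)
  refine ⟨w, hw, ?_⟩
  rw [← k]
  exact (congrArg (fun f : ℂ[T;T⁻¹] => f.coeff e)
    (St4.am hL j₀ (some true) m ⟨i₀, by omega⟩ ⟨i, by omega⟩)).symm.trans (coeff_mp _ _ _)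

end Pool.Agent.Lib.MP_815ef6_nt.Ch
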