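import Pool.Agent.Lib.MP_815ef6_nt.CT.CmD

/-! The tree of the singular points: definitions. -/

namespace Pool.Agent.Lib.MP_815ef6_nt.Ch
open Finset LaurentPolynomial Matrix

variable {M : ℕ}

/-- The centre of an end of the component `z = c + x w`. -/
def pe (c x : ℂ) : En → ℂ
  | none => c + x
  | some _ => c

/-- The scale of an end of the component `z = c + x w`. -/
def ye (x : ℂ) : En → ℂ
  | none => -x
  | some _ => x

/-- The substitution `z = c + x w`. -/
noncomputable def sa (c x : ℂ) : Polynomial ℂ →+* ℂ[T;T⁻¹] :=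
  Polynomial.eval₂RingHom C (C c + C x * T 1)

/-- The points `β l`, `l ∈ I`, are inside the end, the other points are outside. -/
structure Ed (O : Subring ℂ) (t : ℂ) (β : Fin M → ℂ) (p y : ℂ) (b : Bool) (I : Finset (Fin M)) :
    Prop where
  ins : ∀ l ∈ I, (β l - p) / y ∈ O ∧ (b = true → Sm O t ((β l - p) / y))
  out : ∀ l ∉ I, β l ≠ p ∧ y / (β l - p) ∈ O ∧ (b = false → Sm O t (y / (β l - p)))

/-- The combinatorics of the tree. -/
structure Cb (β : Fin M → ℂ) (S : Finset ℂ) {V : Type*} (c x : V → ℂ)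
    (I : V → En → Finset (Fin M)) (N : V × En → V × En → Prop) : Prop where
  x0 : ∀ j, x j ≠ 0
  nod : Nod N
  pt : ∀ a b, N a b → pe (c a.1) (x a.1) a.2 = pe (c b.1) (x b.1) b.2
  ii : ∀ a b, N a b → I a.1 a.2 = I b.1 b.2
  e1 : ∀ j e, sd e = true → (∀ a, ¬ N a (j, e)) → ∀ l ∈ I j e, β l = pe (c j) (x j) e
  e0 : ∀ j e, sd e = false → (∀ b, ¬ N (j, e) b) → I j e = univ
  sg : ∀ j l, β l ∈ S → l ∉ I j (some false) ∨ l ∈ I j (some true) ∨ l ∈ I j none

/-- The tree in the semilocal ring. -/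
structure Tr (O : Subring ℂ) (t : ℂ) (β : Fin M → ℂ) {V : Type*} (c x : V → ℂ)
    (I : V → En → Finset (Fin M)) (N : V × En → V × En → Prop) : Prop where
  ed : ∀ j e, Ed O t β (pe (c j) (x j) e) (ye (x j) e) (sd e) (I j e)
  sm : ∀ a b, N a b → Sm O t (ye (x a.1) a.2 / ye (x b.1) b.2)

/-- No three points are at the same distance from each other. -/
def Bin (W : ValuationSubring ℂ) (S : Finset ℂ) : Prop := ∀ a ∈ S, ∀ b ∈ S, ∀ c ∈ S, a ≠ b →
  W.valuation (a - b) = W.valuation (b - c) → W.valuation (a - b) ≠ W.valuation (a - c)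

open Polynomial in
/-- The coefficients of the equation `Δ u'' + Q 1 u' + Q 0 u = 0` in the form with
`θ = z d/dz` after the translation by `p`. -/
noncomputable def Pp (Δ : ℂ[X]) (Q : Fin 2 → ℂ[X]) (p : ℂ) : Fin 2 → ℂ[X] :=
  ![X ^ 2 * taylor p (Q 0), X * taylor p (Q 1) - taylor p Δ]

section
variable (β : Fin M → ℂ) (p : ℂ) (I : Finset (Fin M)) (y : ℂ)

/-- The normalizing constants. -/
noncomputable def cI : ℂ := ∏ l ∈ Iᶜ, (p - β l)⁻¹

/-- The normalizing factors. -/
noncomputable def uI : ℂ[T;T⁻¹] := C (cI β p I * y⁻¹ ^ I.card) * T (-I.card)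

/-- The normalized operators. -/
noncomputable def LI (Z : ℕ → Polynomial ℂ) (i : ℕ) : ℂ[T;T⁻¹] := uI β p I y * sc y (Z i)

end

end Pool.Agent.Lib.MP_815ef6_nt.Ch
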