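import Pool.Agent.Lib.MP_815ef6_nt.CT.TrD

/-! The combinatorics of a finite set in a valued field. -/

namespace Pool.Agent.Lib.MP_815ef6_nt.Ch
open Finset

section
variable {P Γ : Type*} [LinearOrder Γ] {d : P → P → Γ} {S : Finset P} {x y z a a' c p : P} {r : Γ}

/-- An ultrametric with a finite set without equilateral triangles. -/
structure TreU (d : P → P → Γ) (S : Finset P) : Prop where
  sy : ∀ x y, d x y = d y x
  ul : ∀ x y z, d x z ≤ max (d x y) (d y z)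
  z0 : ∀ x a b, a ≠ b → d x x < d a b
  bn : ∀ a ∈ S, ∀ b ∈ S, ∀ c ∈ S, a ≠ b → d a b = d b c → d a b ≠ d a c

theorem TreU.lt (h : TreU d S) (h1 : d x y < r) (h2 : d y z < r) : d x z < r :=
  (h.ul x y z).trans_lt (max_lt h1 h2)

theorem TreU.le (h : TreU d S) (h1 : d x y ≤ r) (h2 : d y z ≤ r) : d x z ≤ r :=
  (h.ul x y z).trans (max_le h1 h2)

theorem TreU.eq (h : TreU d S) (h1 : d x y < d y z) : d x z = d y z :=
  (h.le h1.le le_rfl).eq_of_not_lt fun h2 => (h.lt (h.sy x y ▸ h1) h2).false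

theorem TreU.spl (h : TreU d S) (hc : c ∈ S) (ha : a ∈ S) (hz : z ∈ S) (n : a ≠ c)
    (l : d z c ≤ d a c) : d z c < d a c ∨ d z a < d a c := by
  by_contra! k
  exact h.bn a ha c hc z hz n ((l.antisymm k.1).symm.trans (h.sy _ _))
    ((k.2.antisymm (h.le l (h.sy a c).ge)).trans (h.sy _ _))

theorem TreU.key (h : TreU d S) (hp : p ∈ S) (ha : a ∈ S) (ha' : a' ∈ S) (n : a ≠ a')
    (e : d y a = d a a') (e' : d y a' = d a a') (l : d y p < r) : d a p < r ∧ d a' p < r := by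
  have k : d a a' < r := not_le.1 fun k => by
    rw [h.sy] at l
    exact h.bn a ha a' ha' p hp n (e'.symm.trans ((h.eq (e' ▸ l.trans_le k)).symm.trans (h.sy _ _)))
      (e.symm.trans ((h.eq (e ▸ l.trans_le k)).symm.trans (h.sy _ _)))
  exact ⟨h.lt (by rwa [h.sy, e]) l, h.lt (by rwa [h.sy, e']) l⟩

/-- The vertices of the tree. -/
structure TreV [LinearOrder P] (d : P → P → Γ) (S : Finset P) (c a : P) : Prop where
  mc : c ∈ S
  ma : a ∈ S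
  ne : a ≠ c
  lc : ∀ z ∈ S, d z c ≤ d a c → c ≤ z
  la : ∀ z ∈ S, d z a < d a c → a ≤ z

theorem TreU.ex [LinearOrder P] (h : TreU d S) (hp : p ∈ S) (ha : a ∈ S) (n : a ≠ p)
    (l : ∀ z ∈ S, d z p < d a p → p ≤ z) :
    ∃ q, d q p = d a p ∧ (TreV d S p q ∨ q < p ∧ TreV d S q p) := by
  obtain ⟨q, hq, m⟩ := exists_min_image (S.filter fun z => d z p = d a p) id ⟨a, by simpa⟩
  simp only [mem_filter, id, and_imp] at hq m
  have k : ∀ z ∈ S, d z q < d q p → q ≤ z := fun z hz t => m z hz ((h.eq t).trans hq.2)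
  rw [← hq.2] at l m
  have n' : q ≠ p := fun e => (h.z0 p a p n).ne (e ▸ hq.2)
  refine ⟨q, hq.2, (lt_or_gt_of_ne n').symm.imp (fun t => ⟨hp, hq.1, n', fun z hz u =>
    u.eq_or_lt.elim (fun e => t.le.trans (m z hz e)) (l z hz), k⟩) fun t =>
      ⟨t, hq.1, hp, n'.symm, fun z hz u => ?_, fun z hz u => l z hz (h.sy q p ▸ u)⟩⟩
  exact (h.le (h.sy p q ▸ u) le_rfl).eq_or_lt.elim (m z hz) fun e => t.le.trans (l z hz e)

theorem TreU.abs (h : TreU d S) (h2 : 2 ≤ S.card) : ∃ X : P → P → Prop,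
    (∀ c a, X c a → c ∈ S ∧ a ∈ S ∧ a ≠ c) ∧ (∃ c a, X c a) ∧
    (∀ c a c' a', X c a → X c' a' → d a c = d a' c' → d c' c ≤ d a c → c = c' ∧ a = a') ∧
    (∀ c a p, X c a → p = c ∨ p = a → ∀ q ∈ S, q ≠ p → d q p < d a c →
      ∃ q', d q' p = d q p ∧ X p q') ∧
    ∀ c a, X c a → ∀ q ∈ S, d a c < d q c → (∀ z ∈ S, d z c < d q c → d z c ≤ d a c) →
      ∃ q', d q' c = d q c ∧ (X c q' ∨ X q' c) := by
  classical
  let _ : LinearOrder P := linearOrderOfSTO WellOrderingRel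
  refine ⟨TreV d S, fun c a v => ⟨v.mc, v.ma, v.ne⟩, ?_, fun c a c' a' v v' e l => ?_,
    fun c a p v hp q hq n l => ?_, fun c a v q hq l m => ?_⟩
  · obtain ⟨p, hp, m⟩ := exists_min_image S id (card_pos.1 (by omega))
    obtain ⟨q, hq, n⟩ := exists_mem_ne (s := S) h2 p
    obtain ⟨q, -, v | v⟩ := h.ex hp hq n fun z hz _ => m z hz
    exacts [⟨_, _, v⟩, ⟨_, _, v.2⟩]
  · obtain rfl := (v.lc _ v'.mc l).antisymm (v'.lc _ v.mc (by rwa [h.sy, ← e]))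
    have k := (h.spl v.mc v.ma v'.ma v.ne e.ge).resolve_left e.not_gt
    exact ⟨rfl, (v.la _ v'.ma k).antisymm (v'.la _ v.ma (by rwa [h.sy, ← e]))⟩
  · have m : ∀ z ∈ S, d z p < d a c → p ≤ z := by
      rcases hp with rfl | rfl
      exacts [fun z hz t => v.lc z hz t.le, v.la]
    obtain ⟨q', e, v' | v'⟩ := h.ex (hp.elim (· ▸ v.mc) (· ▸ v.ma)) hq n
      fun z hz t => m z hz (t.trans l)
    exacts [⟨_, e, v'⟩, (v'.1.not_ge (m _ v'.2.mc (e ▸ l))).elim]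
  · obtain ⟨q', e, v'⟩ := h.ex v.mc hq (fun e => (h.z0 c a c v.ne).not_gt (e ▸ l))
      fun z hz t => v.lc z hz (m z hz t)
    exact ⟨q', e, v'.imp_right And.right⟩

end

theorem tre_sd {e : En} (h : sd e = false) : e = some false := by
  rcases e with _ | _ | _ <;> simp_all [sd]

theorem tre_pe (c a : ℂ) (e : En) : pe c (a - c) e = c ∨ pe c (a - c) e = a := by
  cases e <;> simp [pe]

theorem tre_inj {c a : ℂ} (n : a ≠ c) {e e' : En} (h : sd e = true) (h' : sd e' = true)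
    (k : pe c (a - c) e = pe c (a - c) e') : e = e' := by
  rcases e with _ | _ | _ <;> rcases e' with _ | _ | _ <;> simp_all [sd, pe]

variable {M : ℕ} {W : ValuationSubring ℂ}

open Classical in
theorem tree_val {S S' : Finset ℂ} (hS : S ⊆ S') (h : Bin W S') (h2 : 2 ≤ S'.card) {β : Fin M → ℂ}
    (hβ : ∀ l, β l ∈ S' ∨ ∃ a ∈ S', ∃ a' ∈ S', a ≠ a' ∧
      W.valuation (β l - a) = W.valuation (a - a') ∧ W.valuation (β l - a') = W.valuation (a - a')) :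
    ∃ (V : Type) (_ : Finite V) (_ : Nonempty V) (c x : V → ℂ) (N : V × En → V × En → Prop),
      Cb β S c x (fun j e => univ.filter fun l => if sd e then
        W.valuation (β l - pe (c j) (x j) e) < W.valuation (x j) else
          W.valuation (β l - pe (c j) (x j) e) ≤ W.valuation (x j)) N ∧
        ∀ a b, N a b → W.valuation (x a.1) < W.valuation (x b.1) := by
  have U : TreU (fun x y => W.valuation (x - y)) S' := ⟨fun x y => Valuation.map_sub_swap _ _ _,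
    fun x y z => by simpa using W.valuation.map_add (x - y) (y - z),
    fun x a b n => by simpa [zero_lt_iff, sub_eq_zero] using n, h⟩
  obtain ⟨X, m, ⟨c₀, a₀, n₀⟩, un, ch, pa⟩ := U.abs h2
  refine ⟨{j : ℂ × ℂ // X j.1 j.2}, ((S'.finite_toSet.prod S'.finite_toSet).subset fun j hj =>
    ⟨(m _ _ hj).1, (m _ _ hj).2.1⟩).to_subtype, ⟨⟨(c₀, a₀), n₀⟩⟩, fun j => j.1.1,
    fun j => j.1.2 - j.1.1, fun a b => sd a.2 = false ∧ sd b.2 = true ∧
      a.1.1.1 = pe b.1.1.1 (b.1.1.2 - b.1.1.1) b.2 ∧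
      W.valuation (a.1.1.2 - a.1.1.1) < W.valuation (b.1.1.2 - b.1.1.1) ∧
      ∀ z ∈ S', W.valuation (z - a.1.1.1) < W.valuation (b.1.1.2 - b.1.1.1) →
        W.valuation (z - a.1.1.1) ≤ W.valuation (a.1.1.2 - a.1.1.1),
    ⟨fun j => sub_ne_zero.2 (m _ _ j.2).2.2, ⟨fun _ _ n => n.1, fun _ _ n => n.2.1, ?_, ?_⟩,
      fun a b n => by rw [tre_sd n.1, ← n.2.2.1]; rfl, ?_, ?_, ?_, ?_⟩, fun _ _ n => n.2.2.2.1⟩
  · rintro ⟨⟨⟨c, a⟩, v⟩, e⟩ ⟨⟨⟨c₁, a₁⟩, v₁⟩, e₁⟩ ⟨⟨⟨c₂, a₂⟩, v₂⟩, e₂⟩ ⟨-, s₁, p₁, l₁, m₁⟩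
      ⟨-, s₂, p₂, l₂, m₂⟩
    dsimp only at *
    have o : ∀ c' a' e', X c' a' → c = pe c' (a' - c') e' → W.valuation (c - c') ≤
        W.valuation (a' - c') ∧ ∃ z ∈ S', W.valuation (z - c) = W.valuation (a' - c') :=
      fun c' a' e' v' p' => by
        rcases tre_pe c' a' e' with t | t <;> rw [p', t]
        exacts [⟨by simp, a', (m _ _ v').2.1, rfl⟩, ⟨le_rfl, c', (m _ _ v').1, U.sy _ _⟩]
    obtain ⟨k₁, z₁, y₁, t₁⟩ := o _ _ _ v₁ p₁
    obtain ⟨k₂, z₂, y₂, t₂⟩ := o _ _ _ v₂ p₂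
    have q := le_antisymm (not_lt.1 fun u => (t₂ ▸ m₁ z₂ y₂ (t₂ ▸ u)).not_gt l₂)
      (not_lt.1 fun u => (t₁ ▸ m₂ z₁ y₁ (t₁ ▸ u)).not_gt l₁)
    obtain ⟨rfl, rfl⟩ := un _ _ _ _ v₁ v₂ q (U.le ((U.sy _ _).trans_le (k₂.trans q.ge)) k₁)
    rw [tre_inj (m _ _ v₁).2.2 s₁ s₂ (p₁.symm.trans p₂)]
  · rintro ⟨⟨⟨c₁, a₁⟩, v₁⟩, e₁⟩ ⟨⟨⟨c₂, a₂⟩, v₂⟩, e₂⟩ ⟨⟨⟨c, a⟩, v⟩, e⟩ ⟨s₁, -, p₁, l₁, m₁⟩
      ⟨s₂, -, p₂, l₂, m₂⟩
    dsimp only at *
    obtain rfl := p₁.trans p₂.symm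
    obtain ⟨-, rfl⟩ := un _ _ _ _ v₁ v₂
      ((m₂ _ (m _ _ v₁).2.1 l₁).antisymm (m₁ _ (m _ _ v₂).2.1 l₂)) (by simp)
    rw [tre_sd s₁, tre_sd s₂]
  · rintro ⟨⟨⟨c, a⟩, v⟩, e⟩ ⟨⟨⟨c₁, a₁⟩, v₁⟩, e₁⟩ ⟨s, s₁, p₁, l₁, m₁⟩
    dsimp only at *
    obtain rfl := tre_sd s
    refine filter_congr fun l _ => ?_
    rw [s, s₁, ← p₁, if_pos rfl, if_neg Bool.false_ne_true]
    refine ⟨fun u => u.trans_lt l₁, fun u => ?_⟩
    obtain y | ⟨b, hb, b', hb', n, t, t'⟩ := hβ l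
    · exact m₁ _ y u
    obtain ⟨k, k'⟩ := U.key (m _ _ v).1 hb hb' n t t' u
    exact U.le (t.trans_le (U.le (m₁ _ hb k) ((U.sy _ _).trans_le (m₁ _ hb' k')))) (m₁ _ hb k)
  · rintro ⟨⟨c, a⟩, v⟩ e s n l hl
    dsimp only at *
    rw [mem_filter, s, if_pos rfl] at hl
    have k : ∀ z ∈ S', W.valuation (z - pe c (a - c) e) < W.valuation (a - c) →
        z = pe c (a - c) e := fun z hz u => by_contra fun t => by
      obtain ⟨q, hq, mx⟩ := exists_max_image (S'.filter fun z =>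
        W.valuation (z - pe c (a - c) e) < W.valuation (a - c))
        (fun z => W.valuation (z - pe c (a - c) e)) ⟨z, mem_filter.2 ⟨hz, u⟩⟩
      simp only [mem_filter, and_imp] at hq mx
      obtain ⟨q', t', v'⟩ := ch c a _ v (tre_pe c a e) q hq.1
        (fun g => (U.z0 _ _ _ t).not_ge (g ▸ mx z hz u)) hq.2
      exact n (⟨(_, q'), v'⟩, some false) ⟨rfl, s, rfl, t'.trans_lt hq.2,
        fun y hy g => (mx y hy g).trans t'.ge⟩
    obtain y | ⟨b, hb, b', hb', n, t, t'⟩ := hβ l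
    · exact k _ y hl.2
    obtain ⟨g, g'⟩ := U.key ((tre_pe c a e).elim (·.symm ▸ (m _ _ v).1) (·.symm ▸ (m _ _ v).2.1))
      hb hb' n t t' hl.2
    exact (n ((k _ hb g).trans (k _ hb' g').symm)).elim
  · rintro ⟨⟨c, a⟩, v⟩ e s n
    dsimp only at *
    obtain rfl := tre_sd s
    have k : ∀ z ∈ S', W.valuation (z - c) ≤ W.valuation (a - c) := fun z hz => not_lt.1 fun u => by
      obtain ⟨q, hq, mx⟩ := exists_min_image (S'.filter fun z =>
        W.valuation (a - c) < W.valuation (z - c)) (fun z => W.valuation (z - c))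
        ⟨z, mem_filter.2 ⟨hz, u⟩⟩
      simp only [mem_filter, and_imp] at hq mx
      have g : ∀ y ∈ S', W.valuation (y - c) < W.valuation (q - c) →
          W.valuation (y - c) ≤ W.valuation (a - c) :=
        fun y hy g => not_lt.1 fun f => g.not_ge (mx y hy f)
      obtain ⟨q', t', v' | v'⟩ := pa c a v q hq.1 hq.2 g
      · exact n (⟨(c, q'), v'⟩, some true) ⟨rfl, rfl, rfl, hq.2.trans_eq t'.symm,
          fun y hy f => g y hy (f.trans_eq t')⟩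
      · have t := (U.sy c q').trans t'
        exact n (⟨(q', c), v'⟩, none) ⟨rfl, rfl, (add_sub_cancel _ _).symm, hq.2.trans_eq t.symm,
          fun y hy f => g y hy (f.trans_eq t)⟩
    refine filter_true_of_mem fun l _ => ?_
    rw [s, if_neg Bool.false_ne_true]
    obtain y | ⟨b, hb, b', hb', -, t, -⟩ := hβ l
    · exact k _ y
    exact U.le (t.trans_le (U.le (k _ hb) ((U.sy _ _).trans_le (k _ hb')))) (k _ hb)
  · rintro ⟨⟨c, a⟩, v⟩ l hl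
    simpa [sd, pe, ← or_assoc, or_iff_not_imp_left] using
      U.spl (m _ _ v).1 (m _ _ v).2.1 (hS hl) (m _ _ v).2.2

end Pool.Agent.Lib.MP_815ef6_nt.Ch
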