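import Pool.Agent.Lib.MP_815ef6_nt.CT.TrD

/-! Translations. -/

namespace Pool.Agent.Lib.MP_815ef6_nt.Ch
open Finset Polynomial Matrix

theorem trl_der (p : ℂ) (f : ℂ[X]) : derivative (taylor p f) = taylor p (derivative f) := by
  simp [taylor_apply, derivative_comp]

theorem rder_laurent (p : ℂ) (f : RatFunc ℂ) :
    rder (RatFunc.laurent p f) = RatFunc.laurent p (rder f) := by
  have h1 := congrArg (RatFunc.laurent p) (mul_denom f)
  have h2 := congrArg (RatFunc.laurent p) (rder_mul_of (mul_denom f))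
  simp only [map_mul, RatFunc.laurent_algebraMap] at h1 h2
  have h3 := rder_mul_of h1
  rw [trl_der, trl_der, ← taylor_mul, ← taylor_mul, ← map_sub, ← h2, taylor_pow] at h3
  exact mul_right_cancel₀ (am_ne (pow_ne_zero 2 fun e => f.denom_ne_zero
    ((taylor_eq_zero _ _).1 e))) h3

theorem trl_aseq {n : ℕ} (A : Matrix (Fin n) (Fin n) (RatFunc ℂ)) (p : ℂ) (m : ℕ) :
    Aseq (A.map (RatFunc.laurent p)) m = (Aseq A m).map (RatFunc.laurent p) := by
  induction m with
  | zero => exact (Matrix.map_one _ (map_zero _) (map_one _)).symm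
  | succ m ih =>
    ext i j
    simp [Aseq, ih, rder_laurent, Matrix.mul_apply]

theorem trl_coeff {T : Finset ℂ} {f : ℂ[X]} (h : ∀ i, f.coeff i ∈ cl T) (p : ℂ) (i : ℕ) :
    (taylor p f).coeff i ∈ cl (insert p T) := by
  obtain ⟨g, rfl⟩ := (mem_lifts _).1 ((lifts_iff_coeff_lifts (f := (cl (insert p T)).subtype) f).2
    fun i => ⟨⟨_, Subring.closure_mono (by simp) (h i)⟩, rfl⟩)
  have : taylor p (g.map (cl (insert p T)).subtype) =
      (taylor ⟨p, Subring.subset_closure (by simp)⟩ g).map (cl (insert p T)).subtype := by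
    simp [taylor_apply, map_comp]
  rw [this, coeff_map]
  exact Subtype.prop _

theorem trl_loc {T : Finset ℂ} {D : ℂ[X]} {f : RatFunc ℂ} (h : InLoc (cl T) D f) (p : ℂ) :
    InLoc (cl (insert p T)) (taylor p D) (RatFunc.laurent p f) := by
  obtain ⟨P, s, h1, h2⟩ := h
  refine ⟨taylor p P, s, trl_coeff h1 p, ?_⟩
  simpa only [map_mul, map_pow, RatFunc.laurent_algebraMap] using congrArg (RatFunc.laurent p) h2

theorem dorm_laurent {n : ℕ} {A : Matrix (Fin n) (Fin n) (RatFunc ℂ)} (h : Dormant A) (p : ℂ) :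
    Dormant (A.map (RatFunc.laurent p)) := by
  obtain ⟨T, D, h0, h1, h2, p₀, h3⟩ := h
  refine ⟨insert p T, taylor p D, fun e => h0 ((taylor_eq_zero _ _).1 e), trl_coeff h1 p,
    fun i j => trl_loc (h2 i j) p, p₀, fun q hq k i j => ?_⟩
  obtain ⟨g, g1, g2⟩ := h3 q hq k i j
  exact ⟨_, trl_loc g1 p, by rw [trl_aseq, Matrix.map_apply, g2, map_mul, map_natCast]⟩

theorem bd_laurent {n : ℕ} {A : Matrix (Fin n) (Fin n) (RatFunc ℂ)} (h : Bd A) (p : ℂ) :
    Bd (A.map (RatFunc.laurent p)) := by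
  obtain ⟨T, D, h0, h1, h3⟩ := h
  refine ⟨insert p T, taylor p D, fun e => h0 ((taylor_eq_zero _ _).1 e), trl_coeff h1 p,
    fun m i j => ?_⟩
  obtain ⟨g, g1, g2⟩ := h3 m i j
  exact ⟨_, trl_loc g1 p, by rw [trl_aseq, Matrix.map_apply, g2, map_mul, map_natCast]⟩

theorem reg3 {M : ℕ} {β : Fin M → ℂ} {n : ℕ} {P : Fin (n + 1) → ℂ[X]}
    (h : Dormant (compM (∏ l, (X - C (β l))) P)) (i : ℕ) :
    (Lz (∏ l, (X - C (β l))) P i).natDegree ≤ M ∧ ∀ I : Finset (Fin M), (∀ l ∈ I, β l = 0) →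
      (∀ l ∉ I, β l ≠ 0) → ∀ a < I.card, (Lz (∏ l, (X - C (β l))) P i).coeff a = 0 := by
  have hm : (∏ l, (X - C (β l)) : ℂ[X]).Monic := monic_prod_of_monic _ _ fun l _ => monic_X_sub_C _
  have hd : (∏ l, (X - C (β l)) : ℂ[X]).natDegree = M := by
    rw [natDegree_prod_of_monic _ _ fun l _ => monic_X_sub_C _]
    simp
  have he : ∀ I : Finset (Fin M), (∀ l ∈ I, β l = 0) →
      (∏ l, (X - C (β l)) : ℂ[X]) = X ^ I.card * ∏ l ∈ Iᶜ, (X - C (β l)) := fun I hI => by
    rw [← prod_mul_prod_compl I, prod_congr rfl fun l hl => by rw [hI l hl, C_0, sub_zero],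
      prod_const]
  have hz : ∀ I : Finset (Fin M), (∀ l ∈ I, β l = 0) → ∀ a < I.card,
      (∏ l, (X - C (β l)) : ℂ[X]).coeff a = 0 := fun I hI a ha => by
    rw [he I hI, coeff_X_pow_mul', if_neg (by omega)]
  rw [Lz]
  split_ifs with hi
  · refine ⟨natDegree_le_iff_coeff_eq_zero.2 fun a ha => reg_pol h (σ := -1) (v := M) ?_
      (fun a ha => coeff_eq_zero_of_natDegree_lt (by omega)) _ a (by omega),
      fun I h1 h2 a ha => reg_pol h (σ := 1) (v := I.card) ?_
        (fun a ha => hz I h1 a (by omega)) _ a (by omega)⟩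
    · have := hm.coeff_natDegree
      rw [hd] at this
      rw [this]
      exact one_ne_zero
    · rw [he I h1, coeff_X_pow_mul', if_pos le_rfl, Nat.sub_self, coeff_zero_eq_eval_zero,
        eval_prod]
      exact prod_ne_zero_iff.2 fun l hl => by simpa using h2 l (mem_compl.1 hl)
  · exact ⟨hd.le, fun I h1 _ => hz I h1⟩

end Pool.Agent.Lib.MP_815ef6_nt.Ch
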